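import Mathlib

set_option autoImplicit false

/-!
# A prime number in a prime ideal `P` of a polynomial ring over `ℤ` is not in `P ^ 2` locally
-/

namespace Pool.Agent.QuadAll

namespace PNotSq

variable {ι : Type} (p : ℕ)

/-- `expand p` lifts the Frobenius map. -/
theorem exists_frob (hp : p.Prime) (a : MvPolynomial ι ℤ) :
    ∃ b, MvPolynomial.expand p a = a ^ p + MvPolynomial.C (p : ℤ) * b := by
  have : Fact p.Prime := ⟨hp⟩
  have h1 : MvPolynomial.map (Int.castRingHom (ZMod p)) (MvPolynomial.expand p a - a ^ p) = 0 := by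
    rw [map_sub, MvPolynomial.map_expand, map_pow, MvPolynomial.expand_zmod, sub_self]
  have h2 : MvPolynomial.C (p : ℤ) ∣ (MvPolynomial.expand p a - a ^ p) := by
    rw [MvPolynomial.C_dvd_iff_zmod]
    exact h1
  obtain ⟨b, hb⟩ := h2
  exact ⟨b, by rw [← hb]; ring⟩

/-- The `p`-th power of a sum. -/
theorem exists_add_pow (hp : p.Prime) {R : Type*} [CommRing R] (x y : R) :
    ∃ r, (x + y) ^ p = x ^ p + y ^ p + p * (x * y * r) := by
  obtain ⟨r, hr⟩ := exists_add_pow_prime_eq hp x y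
  exact ⟨r, by rw [hr]; ring⟩

theorem frob_sq (hp : p.Prime) (P : Ideal (MvPolynomial ι ℤ))
    (hpP : (MvPolynomial.C (p : ℤ) : MvPolynomial ι ℤ) ∈ P) (x : MvPolynomial ι ℤ)
    (hx : x ∈ P ^ 2) : ∃ c ∈ P, MvPolynomial.expand p x = x ^ p + MvPolynomial.C (p : ℤ) * c := by
  have hpos : 0 < p := hp.pos
  have key : x ∈ P ∧ ∃ c ∈ P, MvPolynomial.expand p x = x ^ p + MvPolynomial.C (p : ℤ) * c := by
    rw [pow_two] at hx
    induction hx using Submodule.mul_induction_on' with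
    | mem_mul_mem a ha b hb =>
      refine ⟨P.mul_mem_left _ hb, ?_⟩
      obtain ⟨α, hα⟩ := exists_frob p hp a
      obtain ⟨β, hβ⟩ := exists_frob p hp b
      refine ⟨a ^ p * β + b ^ p * α + MvPolynomial.C (p : ℤ) * (α * β), ?_, ?_⟩
      · refine P.add_mem (P.add_mem (P.mul_mem_right _ (Ideal.pow_mem_of_mem P ha p hpos))
          (P.mul_mem_right _ (Ideal.pow_mem_of_mem P hb p hpos))) (P.mul_mem_right _ hpP)
      · rw [map_mul, hα, hβ]
        ring
    | add x _ y _ hx hy =>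
      obtain ⟨hx, α, hα, hxα⟩ := hx
      obtain ⟨hy, β, hβ, hyβ⟩ := hy
      refine ⟨P.add_mem hx hy, ?_⟩
      obtain ⟨r, hr⟩ := exists_add_pow p hp x y
      refine ⟨α + β - x * y * r, ?_, ?_⟩
      · exact P.sub_mem (P.add_mem hα hβ) (P.mul_mem_right _ (P.mul_mem_left _ hy))
      · rw [map_add, hxα, hyβ, hr]
        have : (p : MvPolynomial ι ℤ) = MvPolynomial.C (p : ℤ) := by simp
        rw [this]
        ring
  exact key.2

end PNotSq

open PNotSq

/-- A prime number in `P` is not in `P ^ 2` locally. -/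
theorem mem_of_prime_mul_mem_sq {ι : Type} (p : ℕ) (hp : p.Prime) (P : Ideal (MvPolynomial ι ℤ))
    [P.IsPrime] (hpP : (MvPolynomial.C (p : ℤ) : MvPolynomial ι ℤ) ∈ P) (b : MvPolynomial ι ℤ)
    (h : MvPolynomial.C (p : ℤ) * b ∈ P ^ 2) : b ∈ P := by
  obtain ⟨c, hc, h1⟩ := frob_sq p hp P hpP _ h
  obtain ⟨β, hβ⟩ := exists_frob p hp b
  rw [map_mul, MvPolynomial.expand_C, hβ] at h1
  have hp0 : (MvPolynomial.C (p : ℤ) : MvPolynomial ι ℤ) ≠ 0 := by
    rw [Ne, MvPolynomial.C_eq_zero]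
    exact_mod_cast hp.ne_zero
  obtain ⟨q, rfl⟩ : ∃ q, p = q + 1 := ⟨p - 1, (Nat.succ_pred_eq_of_pos hp.pos).symm⟩
  have hq : q ≠ 0 := by
    rintro rfl
    exact hp.one_lt.ne rfl
  have h2 : b ^ (q + 1) + MvPolynomial.C ((q + 1 : ℕ) : ℤ) * β =
      MvPolynomial.C ((q + 1 : ℕ) : ℤ) ^ q * b ^ (q + 1) + c := by
    apply mul_left_cancel₀ hp0
    rw [h1]
    ring
  have h3 : b ^ (q + 1) ∈ P := by
    have h4 : b ^ (q + 1) = MvPolynomial.C ((q + 1 : ℕ) : ℤ) ^ q * b ^ (q + 1) + c -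
        MvPolynomial.C ((q + 1 : ℕ) : ℤ) * β := by
      rw [← h2]
      ring
    rw [h4]
    exact P.sub_mem (P.add_mem (P.mul_mem_right _ (Ideal.pow_mem_of_mem P hpP q
      (Nat.pos_of_ne_zero hq))) hc) (P.mul_mem_right _ hpP)
  exact Ideal.IsPrime.mem_of_pow_mem inferInstance _ h3

end Pool.Agent.QuadAll
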