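import Mathlib
import Pool.Agent.QuadModel.Regular

set_option autoImplicit false

namespace Pool.Agent.QuadAll

open Pool.Agent.QuadModel IsLocalRing

namespace RegFamily

theorem aux (r : ℕ) : ∀ (R : Type) [CommRing R] [IsRegularLocalRing R]
    (g : Fin r → R) (_hg : ∀ i, g i ∈ maximalIdeal R)
    (_hli : ∀ a : Fin r → R, ∑ i, a i * g i ∈ maximalIdeal R ^ 2 → ∀ i, a i ∈ maximalIdeal R),
    IsRegularLocalRing (R ⧸ Ideal.span (Set.range g)) := by
  induction r with
  | zero =>
    intro R _ _ g _ _
    have h : Ideal.span (Set.range g) = ⊥ := by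
      rw [Set.range_eq_empty, Ideal.span_empty]
    exact IsRegularLocalRing.of_ringEquiv
      ((RingEquiv.quotientBot R).symm.trans (Ideal.quotEquivOfEq h.symm))
  | succ r ih =>
    intro R _ _ g hg hli
    have hf2 : g 0 ∉ maximalIdeal R ^ 2 := by
      intro h
      have h1 := hli (Pi.single 0 1) (by
        have : ∑ i, (Pi.single 0 1 : Fin (r + 1) → R) i * g i = g 0 := by
          rw [Finset.sum_eq_single 0]
          · simp
          · intro i _ hi
            simp [Pi.single_eq_of_ne hi]
          · simp
        rw [this]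
        exact h) 0
      rw [Pi.single_eq_same] at h1
      exact (Ideal.ne_top_iff_one _).mp (maximalIdeal.isMaximal R).ne_top h1
    have hreg := isRegularLocalRing_quotient (hg 0) hf2
    set q := Ideal.Quotient.mk (Ideal.span {g 0}) with hq
    have hsurj : Function.Surjective q := Ideal.Quotient.mk_surjective
    have hmax : (maximalIdeal R).map q = maximalIdeal (R ⧸ Ideal.span {g 0}) :=
      map_maximalIdeal_of_surjective q hsurj
    have hreg2 := ih (R ⧸ Ideal.span {g 0}) (fun i ↦ q (g i.succ))
      (fun i ↦ hmax ▸ Ideal.mem_map_of_mem _ (hg _)) (by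
        intro a' ha' i
        choose a ha using fun i ↦ hsurj (a' i)
        have h1 : ∑ i, a' i * q (g i.succ) = q (∑ i : Fin r, a i * g i.succ) := by
          rw [map_sum]
          refine Finset.sum_congr rfl fun i _ ↦ ?_
          rw [map_mul, ha]
        rw [h1, ← hmax, ← Ideal.map_pow, Ideal.mem_map_iff_of_surjective q hsurj] at ha'
        obtain ⟨y, hy, hyF⟩ := ha'
        rw [Ideal.Quotient.eq, Ideal.mem_span_singleton'] at hyF
        obtain ⟨b, hb⟩ := hyF
        have h2 := hli (Fin.cons b a) (by
          rw [Fin.sum_univ_succ]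
          simp only [Fin.cons_zero, Fin.cons_succ]
          have : b * g 0 + ∑ i : Fin r, a i * g i.succ = y := by rw [hb]; ring
          rw [this]
          exact hy) i.succ
        rw [Fin.cons_succ] at h2
        rw [← ha i, ← hmax]
        exact Ideal.mem_map_of_mem _ h2)
    refine @IsRegularLocalRing.of_ringEquiv _ _ hreg2 _ _ ?_
    refine (Ideal.quotEquivOfEq ?_).trans ((DoubleQuot.quotQuotEquivQuotSup
      (Ideal.span {g 0}) (Ideal.span (Set.range fun i : Fin r ↦ g i.succ))).trans
      (Ideal.quotEquivOfEq ?_))
    · rw [Ideal.map_span, ← Set.range_comp]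
      rfl
    · rw [← Ideal.span_union, Fin.range_fin_succ g, Set.insert_eq]
      rfl

end RegFamily

/-- The quotient of a regular local ring by elements of the maximal ideal that are linearly
independent modulo its square is regular. -/
theorem isRegularLocalRing_quotient_family {R : Type} [CommRing R] [IsRegularLocalRing R] {r : ℕ}
    (g : Fin r → R) (hg : ∀ i, g i ∈ IsLocalRing.maximalIdeal R)
    (hli : ∀ a : Fin r → R, ∑ i, a i * g i ∈ IsLocalRing.maximalIdeal R ^ 2 →
      ∀ i, a i ∈ IsLocalRing.maximalIdeal R) :
    IsRegularLocalRing (R ⧸ Ideal.span (Set.range g)) :=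
  RegFamily.aux r R g hg hli

end Pool.Agent.QuadAll
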