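import Pool.Agent.QuadAll.RegDomain
import Pool.Agent.QuadAll.RegFamily

set_option autoImplicit false

namespace Pool.Agent.QuadAll

open IsLocalRing

/-- Regularity at a prime of a domain presented up to `e`-torsion. -/
theorem isRegularLocalRing_of_presentation {T C : Type} [CommRing T] [CommRing C]
    [IsRegularRing T] [IsDomain C] (π : T →+* C) (hπ : Function.Surjective π) {r : ℕ}
    (g : Fin r → T) (hg : ∀ i, π (g i) = 0) (e : T) (he : π e ≠ 0)
    (htor : ∀ t, π t = 0 → ∃ n : ℕ, e ^ n * t ∈ Ideal.span (Set.range g))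
    (Q : Ideal C) [Q.IsPrime]
    (hind : ∀ a : Fin r → T, ∑ i, a i * g i ∈ Q.comap π ^ 2 → ∀ i, a i ∈ Q.comap π) :
    IsRegularLocalRing (Localization.AtPrime Q) := by
  classical
  set P : Ideal T := Q.comap π with hP
  have hPp : P.IsPrime := Ideal.IsPrime.comap _
  let L := Localization.AtPrime P
  have hreg : IsRegularLocalRing L := IsRegularRing.isRegularLocalRing_localization P
  have hmax : P.map (algebraMap T L) = maximalIdeal L := Localization.AtPrime.map_eq_maximalIdeal
  have hsq : ∀ x : T, algebraMap T L x ∈ (maximalIdeal L) ^ 2 → ∃ t, t ∉ P ∧ t * x ∈ P ^ 2 := by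
    intro x hx
    rw [← hmax, ← Ideal.map_pow,
      IsLocalization.algebraMap_mem_map_algebraMap_iff P.primeCompl] at hx
    obtain ⟨t, ht, h⟩ := hx
    exact ⟨t, ht, h⟩
  have hgP : ∀ i, g i ∈ P := fun i ↦ by
    rw [hP, Ideal.mem_comap, hg]
    exact Q.zero_mem
  let g' : Fin r → L := fun i ↦ algebraMap T L (g i)
  have hg'm : ∀ i, g' i ∈ maximalIdeal L := fun i ↦ hmax ▸ Ideal.mem_map_of_mem _ (hgP i)
  have hli : ∀ a : Fin r → L, ∑ i, a i * g' i ∈ maximalIdeal L ^ 2 →
      ∀ i, a i ∈ maximalIdeal L := by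
    intro a ha i
    obtain ⟨s, hs⟩ := IsLocalization.exist_integer_multiples_of_finset P.primeCompl
      (Finset.univ.image a)
    have hs' : ∀ i, ∃ b : T, algebraMap T L b = algebraMap T L s * a i := fun i ↦ by
      obtain ⟨b, hb⟩ := hs (a i) (Finset.mem_image_of_mem a (Finset.mem_univ i))
      exact ⟨b, by rw [hb, Algebra.smul_def]⟩
    choose b hb using hs'
    have h1 : algebraMap T L (∑ i, b i * g i) = algebraMap T L s * ∑ i, a i * g' i := by
      rw [map_sum, Finset.mul_sum]
      exact Finset.sum_congr rfl fun i _ ↦ by rw [map_mul, hb, mul_assoc]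
    obtain ⟨t, ht, htP⟩ := hsq (∑ i, b i * g i) (h1 ▸ Ideal.mul_mem_left _ _ ha)
    have h2 : ∑ i, (t * b i) * g i ∈ P ^ 2 := by
      have : ∑ i, (t * b i) * g i = t * ∑ i, b i * g i := by
        rw [Finset.mul_sum]
        exact Finset.sum_congr rfl fun i _ ↦ by ring
      rwa [this]
    have h3 := hind _ h2 i
    have h4 : b i ∈ P := (hPp.mem_or_mem h3).resolve_left ht
    have h5 : algebraMap T L s * a i ∈ maximalIdeal L := by
      rw [← hb, ← hmax]
      exact Ideal.mem_map_of_mem _ h4
    refine ((maximalIdeal.isMaximal L).isPrime.mem_or_mem h5).resolve_left ?_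
    intro h6
    exact h6 (IsLocalization.map_units L s)
  have hreg2 := isRegularLocalRing_quotient_family g' hg'm hli
  have hdom := isDomain_of_isRegularLocalRing (L ⧸ Ideal.span (Set.range g'))
  let φ : L →+* Localization.AtPrime Q := Localization.localRingHom P Q π rfl
  have hφ : ∀ t : T, φ (algebraMap T L t) = algebraMap C (Localization.AtPrime Q) (π t) :=
    fun t ↦ Localization.localRingHom_to_map P Q π rfl t
  have hinj : Function.Injective (algebraMap C (Localization.AtPrime Q)) :=
    IsLocalization.injective _ Q.primeCompl_le_nonZeroDivisors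
  have hφs : Function.Surjective φ := by
    intro z
    obtain ⟨c, s, rfl⟩ := IsLocalization.exists_mk'_eq Q.primeCompl z
    obtain ⟨t, rfl⟩ := hπ c
    obtain ⟨y, hy⟩ := hπ s.1
    have hyP : y ∉ P := by
      rw [hP, Ideal.mem_comap, hy]
      exact s.2
    refine ⟨IsLocalization.mk' L t (⟨y, hyP⟩ : P.primeCompl), ?_⟩
    rw [IsLocalization.eq_mk'_iff_mul_eq, ← hy, ← hφ, ← hφ, ← map_mul]
    congr 1
    exact IsLocalization.mk'_spec L t (⟨y, hyP⟩ : P.primeCompl)
  have hker : RingHom.ker φ = Ideal.span (Set.range g') := by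
    refine le_antisymm (fun z hz ↦ ?_) ?_
    · obtain ⟨t, s, rfl⟩ := IsLocalization.exists_mk'_eq P.primeCompl z
      have h1 : algebraMap T L s * IsLocalization.mk' L t s = algebraMap T L t := by
        rw [mul_comm]
        exact IsLocalization.mk'_spec _ _ _
      have h2 : π t = 0 := by
        apply hinj
        rw [← hφ, ← h1, map_mul, (RingHom.mem_ker).mp hz, mul_zero, map_zero]
      obtain ⟨n, hn⟩ := htor t h2
      have h3 : algebraMap T L e ^ n * algebraMap T L t ∈ Ideal.span (Set.range g') := by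
        have := Ideal.mem_map_of_mem (algebraMap T L) hn
        rw [Ideal.map_span, ← Set.range_comp, map_mul, map_pow] at this
        exact this
      have h4 : (Ideal.span (Set.range g')).IsPrime := (Ideal.Quotient.isDomain_iff_prime _).mp hdom
      have h5 : algebraMap T L e ∉ Ideal.span (Set.range g') := by
        intro h
        have h6 : Ideal.span (Set.range g') ≤ RingHom.ker φ := by
          rw [Ideal.span_le]
          rintro _ ⟨i, rfl⟩
          rw [SetLike.mem_coe, RingHom.mem_ker, hφ, hg, map_zero]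
        have h7 := (RingHom.mem_ker).mp (h6 h)
        rw [hφ] at h7
        exact he (hinj (h7.trans (map_zero _).symm))
      have h6 : algebraMap T L t ∈ Ideal.span (Set.range g') :=
        (h4.mem_or_mem h3).resolve_left fun h ↦ h5 (h4.mem_of_pow_mem n h)
      rw [← h1] at h6
      refine (h4.mem_or_mem h6).resolve_left fun h ↦ h4.ne_top ?_
      exact Ideal.eq_top_of_isUnit_mem _ h (IsLocalization.map_units L s)
    · rw [Ideal.span_le]
      rintro _ ⟨i, rfl⟩
      rw [SetLike.mem_coe, RingHom.mem_ker, hφ, hg, map_zero]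
  have hreg3 : IsRegularLocalRing (L ⧸ RingHom.ker φ) := by
    rw [hker]
    exact hreg2
  exact IsRegularLocalRing.of_ringEquiv (RingHom.quotientKerEquivOfSurjective hφs)

end Pool.Agent.QuadAll
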