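import Pool.Agent.QuadAll.GenFibre
import Pool.Agent.QuadModel.ProjZ

set_option autoImplicit false

/-!
# The projective model attached to a family of elements of degree `d` of a graded domain
-/

namespace Pool.Agent.QuadAll

open AlgebraicGeometry CategoryTheory CategoryTheory.Limits HomogeneousLocalization
open Pool.Agent.QuadModel

namespace Family

section Ring

variable {S : Type} [CommRing S] (𝒮 : ℕ → Submodule ℤ S) {ι : Type} (v : ι → S) (d : ℕ)

/-- The ring generated by the family. -/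
abbrev FRing : Type := (MvPolynomial.aeval v : MvPolynomial ι ℤ →ₐ[ℤ] S).range

/-- The elements of the family, in the ring they generate. -/
noncomputable def fx (s : ι) : FRing v := ⟨v s, MvPolynomial.X s, MvPolynomial.aeval_X v s⟩

/-- The graded pieces of the ring generated by the family. -/
noncomputable def fgr (k : ℕ) : Submodule ℤ (FRing v) :=
  (𝒮 (d * k)).comap (MvPolynomial.aeval v : MvPolynomial ι ℤ →ₐ[ℤ] S).range.val.toLinearMap

theorem mem_fgr {k : ℕ} {a : FRing v} : a ∈ fgr 𝒮 v d k ↔ (a : S) ∈ 𝒮 (d * k) := Iff.rfl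

theorem coe_aeval_fx (q : MvPolynomial ι ℤ) :
    ((MvPolynomial.aeval (fx v) q : FRing v) : S) = MvPolynomial.aeval v q := by
  have h : ((MvPolynomial.aeval v : MvPolynomial ι ℤ →ₐ[ℤ] S).range.val).comp
      (MvPolynomial.aeval (fx v)) = MvPolynomial.aeval v := by
    apply MvPolynomial.algHom_ext
    intro s
    simp [fx]
  exact congrArg (fun g : MvPolynomial ι ℤ →ₐ[ℤ] S ↦ g q) h

theorem exists_aeval_fx (a : FRing v) : ∃ q : MvPolynomial ι ℤ, MvPolynomial.aeval (fx v) q = a := by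
  obtain ⟨a, q, hq⟩ := a
  refine ⟨q, Subtype.ext ?_⟩
  rw [coe_aeval_fx]
  exact hq

variable [GradedAlgebra 𝒮]

theorem aeval_mem {v : ι → S} {d : ℕ} (hv : ∀ s, v s ∈ 𝒮 d) (n : ℕ) (f : MvPolynomial ι ℤ)
    (hf : f.IsHomogeneous n) : MvPolynomial.aeval v f ∈ 𝒮 (d * n) := by
  rw [MvPolynomial.aeval_def, MvPolynomial.eval₂_eq]
  refine Submodule.sum_mem _ fun e he ↦ ?_
  have hen : ∑ i ∈ e.support, e i = n := by
    rw [← Finsupp.degree_apply]
    by_contra h
    exact MvPolynomial.mem_support_iff.mp he (hf.coeff_eq_zero h)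
  rw [← Algebra.smul_def]
  refine Submodule.smul_mem _ _ ?_
  have h1 := SetLike.prod_pow_mem_graded 𝒮 (fun _ : ι ↦ d) v (F := e.support)
    (fun i ↦ e i) (fun k _ ↦ hv k)
  have h2 : ∑ k ∈ e.support, e k • (fun _ : ι ↦ d) k = d * n := by
    rw [← hen, Finset.mul_sum]
    exact Finset.sum_congr rfl fun i _ ↦ by simp [mul_comm]
  rwa [h2] at h1

variable {v} {d}

theorem isInternal_fgr (hd : 0 < d) (hv : ∀ s, v s ∈ 𝒮 d) :
    DirectSum.IsInternal (fgr 𝒮 v d) := by
  classical
  constructor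
  · rw [injective_iff_map_eq_zero]
    intro x hx
    rw [DirectSum.coeAddMonoidHom_eq_dfinsuppSum] at hx
    have hx' : ∑ i ∈ DFinsupp.support x, ((x i : FRing v) : S) = 0 := by
      have := congrArg (fun a : FRing v ↦ (a : S)) hx
      simpa [DFinsupp.sum] using this
    ext i
    by_cases hi : i ∈ DFinsupp.support x
    · have h1 : (DirectSum.decompose 𝒮 (∑ j ∈ DFinsupp.support x, ((x j : FRing v) : S)) (d * i) :
          S) = 0 := by
        rw [hx', DirectSum.decompose_zero]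
        rfl
      rw [DirectSum.decompose_sum, DFinsupp.finsetSum_apply, AddSubmonoidClass.coe_finsetSum,
        Finset.sum_eq_single i] at h1
      · rw [DirectSum.decompose_of_mem_same 𝒮 ((mem_fgr 𝒮 v d).mp (x i).2)] at h1
        rw [h1]
        rfl
      · intro j _ hj
        refine DirectSum.decompose_of_mem_ne 𝒮 ((mem_fgr 𝒮 v d).mp (x j).2) fun h ↦ hj ?_
        exact Nat.eq_of_mul_eq_mul_left hd h
      · intro h
        exact absurd hi h
    · rw [DFinsupp.notMem_support_iff] at hi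
      rw [hi]
      rfl
  · intro y
    obtain ⟨q, rfl⟩ := exists_aeval_fx v y
    have hmem : ∀ k, MvPolynomial.aeval (fx v) (MvPolynomial.homogeneousComponent k q) ∈
        fgr 𝒮 v d k := fun k ↦ by
      rw [mem_fgr, coe_aeval_fx]
      exact aeval_mem 𝒮 hv k _ (MvPolynomial.homogeneousComponent_isHomogeneous k q)
    refine ⟨∑ k ∈ Finset.range (q.totalDegree + 1), DirectSum.of (fun i ↦ fgr 𝒮 v d i) k
      ⟨_, hmem k⟩, ?_⟩
    rw [map_sum]
    simp only [DirectSum.coeAddMonoidHom_of]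
    rw [← map_sum, MvPolynomial.sum_homogeneousComponent]

/-- The grading of the ring generated by the family. -/
@[reducible] noncomputable def fgraded (hd : 0 < d) (hv : ∀ s, v s ∈ 𝒮 d) :
    GradedAlgebra (fgr 𝒮 v d) :=
  { one_mem := by
      rw [mem_fgr, mul_zero]
      exact SetLike.GradedOne.one_mem
    mul_mem := by
      intro i j x y hx hy
      rw [mem_fgr] at hx hy ⊢
      rw [mul_add]
      exact SetLike.GradedMul.mul_mem hx hy
    toDecomposition := (isInternal_fgr 𝒮 hd hv).chooseDecomposition }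

theorem mem_fgr_iff_exists (hd : 0 < d) (hv : ∀ s, v s ∈ 𝒮 d) {k : ℕ} {a : FRing v} :
    a ∈ fgr 𝒮 v d k ↔ ∃ q : MvPolynomial ι ℤ, q.IsHomogeneous k ∧
      MvPolynomial.aeval (fx v) q = a := by
  classical
  constructor
  · intro ha
    obtain ⟨q, rfl⟩ := exists_aeval_fx v a
    refine ⟨MvPolynomial.homogeneousComponent k q,
      MvPolynomial.homogeneousComponent_isHomogeneous k q, Subtype.ext ?_⟩
    rw [mem_fgr, coe_aeval_fx] at ha
    rw [coe_aeval_fx, coe_aeval_fx]
    have h0 := fun j ↦ aeval_mem 𝒮 hv j _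
      (MvPolynomial.homogeneousComponent_isHomogeneous j q)
    rw [← DirectSum.decompose_of_mem_same 𝒮 ha]
    conv_rhs => rw [← MvPolynomial.sum_homogeneousComponent q]
    rw [map_sum, DirectSum.decompose_sum, DFinsupp.finsetSum_apply,
      AddSubmonoidClass.coe_finsetSum]
    by_cases hk : k ∈ Finset.range (q.totalDegree + 1)
    · rw [Finset.sum_eq_single_of_mem k hk]
      · exact (DirectSum.decompose_of_mem_same 𝒮 (h0 k)).symm
      · intro j _ hjk
        refine DirectSum.decompose_of_mem_ne 𝒮 (h0 j) fun h ↦ hjk ?_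
        exact Nat.eq_of_mul_eq_mul_left hd h
    · rw [MvPolynomial.homogeneousComponent_eq_zero, map_zero]
      · refine (Finset.sum_eq_zero fun j hj ↦ ?_).symm
        refine DirectSum.decompose_of_mem_ne 𝒮 (h0 j) fun h ↦ ?_
        rw [Nat.eq_of_mul_eq_mul_left hd h] at hj
        exact hk hj
      · rw [Finset.mem_range] at hk
        omega
  · rintro ⟨q, hq, rfl⟩
    rw [mem_fgr, coe_aeval_fx]
    exact aeval_mem 𝒮 hv k q hq

omit [GradedAlgebra 𝒮] in
theorem fx_mem (hv : ∀ s, v s ∈ 𝒮 d) (s : ι) : fx v s ∈ fgr 𝒮 v d 1 := by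
  rw [mem_fgr, mul_one]
  exact hv s

theorem irrelevant_le [GradedAlgebra (fgr 𝒮 v d)] (hd : 0 < d) (hv : ∀ s, v s ∈ 𝒮 d) :
    (HomogeneousIdeal.irrelevant (fgr 𝒮 v d)).toIdeal ≤ Ideal.span (Set.range (fx v)) := by
  rw [HomogeneousIdeal.toIdeal_irrelevant_le]
  intro k hk a ha
  obtain ⟨g, hg, rfl⟩ := (mem_fgr_iff_exists 𝒮 hd hv).mp ha
  have h1 : g ∈ Ideal.span (MvPolynomial.X '' (Set.univ : Set ι) :
      Set (MvPolynomial ι ℤ)) := by
    rw [MvPolynomial.mem_ideal_span_X_image]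
    intro e he
    by_contra hcon
    push Not at hcon
    have h2 : e = 0 := by
      ext i
      exact hcon i (Set.mem_univ i)
    subst h2
    have h3 := hg (MvPolynomial.mem_support_iff.mp he)
    simp at h3
    omega
  have h2 := Ideal.mem_map_of_mem (MvPolynomial.aeval (fx v) : MvPolynomial ι ℤ →ₐ[ℤ] FRing v) h1
  rw [Ideal.map_span, ← Set.image_comp, Set.image_univ] at h2
  have h3 : Set.range ((MvPolynomial.aeval (fx v) : MvPolynomial ι ℤ →ₐ[ℤ] FRing v) ∘
      MvPolynomial.X) = Set.range (fx v) := by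
    congr 1
    ext s
    simp
  rw [h3] at h2
  exact h2

end Ring

section Away

variable {S : Type} [CommRing S] [IsDomain S] (𝒮 : ℕ → Submodule ℤ S) [GradedAlgebra 𝒮]
  {ι : Type} {v : ι → S} {d : ℕ}

/-- Homogeneity and scaling. -/
theorem pow_mul_aeval_div {ι : Type} {K : Type} [Field K] [Algebra ℤ K] (w : ι → K) (t : K) {n : ℕ}
    {q : MvPolynomial ι ℤ} (hq : q.IsHomogeneous n) :
    MvPolynomial.aeval (fun s ↦ w s / t) q = MvPolynomial.aeval w q / t ^ n := by
  rw [MvPolynomial.aeval_def, MvPolynomial.aeval_def, MvPolynomial.eval₂_eq,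
    MvPolynomial.eval₂_eq, Finset.sum_div]
  refine Finset.sum_congr rfl fun e he ↦ ?_
  have hen : ∑ i ∈ e.support, e i = n := by
    rw [← Finsupp.degree_apply]
    by_contra h
    exact MvPolynomial.mem_support_iff.mp he (hq.coeff_eq_zero h)
  rw [mul_div_assoc]
  congr 1
  rw [← hen, ← Finset.prod_pow_eq_pow_sum, ← Finset.prod_div_distrib]
  exact Finset.prod_congr rfl fun i _ ↦ div_pow _ _ _

/-- The standard charts of `Proj` of the ring generated by the family. -/
theorem nonempty_away_equiv (hd : 0 < d) (hv : ∀ s, v s ∈ 𝒮 d) [GradedAlgebra (fgr 𝒮 v d)]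
    (s₀ : ι) (hs₀ : v s₀ ≠ 0) :
    Nonempty ((Algebra.adjoin ℤ (Set.range fun s ↦
      algebraMap S (FractionRing S) (v s) / algebraMap S (FractionRing S) (v s₀))) ≃+*
        Away (fgr 𝒮 v d) (fx v s₀)) := by
  set K := FractionRing S
  let j : FRing v →+* K := (algebraMap S K).comp
    ((MvPolynomial.aeval v : MvPolynomial ι ℤ →ₐ[ℤ] S).range.val : FRing v →+* S)
  have hj : Function.Injective j :=
    (IsFractionRing.injective S K).comp Subtype.val_injective
  have hjx : ∀ s, j (fx v s) = algebraMap S K (v s) := fun s ↦ rfl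
  set t : K := algebraMap S K (v s₀) with ht
  have ht0 : t ≠ 0 := by
    rw [ht]
    intro h
    exact hs₀ ((map_eq_zero_iff _ (IsFractionRing.injective S K)).mp h)
  have hu : IsUnit (j (fx v s₀)) := by
    rw [hjx]
    exact isUnit_iff_ne_zero.mpr ht0
  let θ₀ : Localization.Away (fx v s₀) →+* K := Localization.awayLift j (fx v s₀) hu
  have hθ₀ : Function.Injective θ₀ := by
    rw [injective_iff_map_eq_zero]
    intro z hz
    obtain ⟨a, b, rfl⟩ := IsLocalization.exists_mk'_eq (Submonoid.powers (fx v s₀)) z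
    have h1 : θ₀ (algebraMap _ _ a) = 0 := by
      rw [← IsLocalization.mk'_spec (Localization.Away (fx v s₀)) a b, map_mul, hz, zero_mul]
    have h2 : j a = 0 := by
      rw [← h1]
      exact (IsLocalization.Away.lift_eq (fx v s₀) hu a).symm
    rw [(map_eq_zero_iff j hj).mp h2, IsLocalization.mk'_zero]
  let θ : Away (fgr 𝒮 v d) (fx v s₀) →+* K := θ₀.comp (algebraMap _ _)
  have hθ : Function.Injective θ :=
    hθ₀.comp (HomogeneousLocalization.val_injective _)
  have hmk : ∀ (n : ℕ) (a : FRing v) (ha : a ∈ fgr 𝒮 v d (n • 1)),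
      θ (Away.mk (fgr 𝒮 v d) (fx_mem 𝒮 hv s₀) n a ha) = j a / t ^ n := by
    intro n a ha
    rw [eq_div_iff (pow_ne_zero _ ht0)]
    change θ₀ (Away.mk (fgr 𝒮 v d) (fx_mem 𝒮 hv s₀) n a ha).val * _ = _
    have ht' : t = j (fx v s₀) := rfl
    rw [Away.val_mk, ht', ← map_pow]
    have h1 : ∀ b, θ₀ (algebraMap _ _ b) = j b := fun b ↦
      IsLocalization.Away.lift_eq (fx v s₀) hu b
    rw [← h1, ← map_mul, ← h1]
    congr 1
    rw [Localization.mk_eq_mk']
    exact IsLocalization.mk'_spec (Localization.Away (fx v s₀)) a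
      (⟨fx v s₀ ^ n, n, rfl⟩ : Submonoid.powers (fx v s₀))
  have hrange : θ.range = (Algebra.adjoin ℤ (Set.range fun s ↦
      algebraMap S K (v s) / t)).toSubring := by
    ext z
    rw [RingHom.mem_range, Subalgebra.mem_toSubring]
    constructor
    · rintro ⟨y, rfl⟩
      obtain ⟨n, a, ha, rfl⟩ := HomogeneousLocalization.Away.mk_surjective (fgr 𝒮 v d)
        (fx_mem 𝒮 hv s₀) y
      rw [hmk]
      have ha' : a ∈ fgr 𝒮 v d n := by simpa using ha
      obtain ⟨q, hq, rfl⟩ := (mem_fgr_iff_exists 𝒮 hd hv).mp ha'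
      have h1 : j (MvPolynomial.aeval (fx v) q) =
          MvPolynomial.aeval (fun s ↦ algebraMap S K (v s)) q := by
        change algebraMap S K ((MvPolynomial.aeval (fx v) q : FRing v) : S) = _
        rw [coe_aeval_fx]
        exact (MvPolynomial.aeval_algebraMap_apply K v q).symm
      rw [h1, ← pow_mul_aeval_div _ t hq, Algebra.adjoin_range_eq_range_aeval]
      exact ⟨q, rfl⟩
    · intro hz
      rw [Algebra.adjoin_range_eq_range_aeval] at hz
      obtain ⟨q, hq⟩ := hz
      have h1 : ∀ s, ∃ y, θ y = algebraMap S K (v s) / t := fun s ↦ by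
        refine ⟨Away.mk (fgr 𝒮 v d) (fx_mem 𝒮 hv s₀) 1 (fx v s) (by
          simpa using fx_mem 𝒮 hv s), ?_⟩
        rw [hmk, pow_one]
        rfl
      choose y hy using h1
      refine ⟨MvPolynomial.aeval y q, ?_⟩
      have h2 : θ.comp ((MvPolynomial.aeval y : MvPolynomial ι ℤ →ₐ[ℤ] _) :
          MvPolynomial ι ℤ →+* Away (fgr 𝒮 v d) (fx v s₀)) =
          (MvPolynomial.aeval (fun s ↦ algebraMap S K (v s) / t) :
            MvPolynomial ι ℤ →ₐ[ℤ] K) :=
        MvPolynomial.ringHom_ext (fun r ↦ by simp) (fun i ↦ by simp [hy])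
      exact (congrArg (fun g : MvPolynomial ι ℤ →+* K ↦ g q) h2).trans hq
  exact ⟨((RingEquiv.subringCongr hrange).symm.trans
    (RingEquiv.ofLeftInverse (Function.leftInverse_invFun hθ)).symm)⟩

end Away

end Family

open Family in
/-- The subring generated by a finite family of elements of degree `d` gives a model, if the
charts of a subfamily covering `Proj` are regular. -/
theorem exists_model_of_family {S : Type} [CommRing S] [IsDomain S] [CharZero S]
    (𝒮 : ℕ → Submodule ℤ S) [GradedAlgebra 𝒮] {ι : Type} [Finite ι] (v : ι → S) {d : ℕ}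
    (hd : 0 < d) (hv : ∀ s, v s ∈ 𝒮 d) {J : Type} [Fintype J] [Nonempty J] (c : J → ι)
    (hc : ∀ j, v (c j) ≠ 0)
    (hcov : ∀ s, ∃ (k : ℕ) (a : J → MvPolynomial ι ℤ), 0 < k ∧
      v s ^ k = ∑ j, MvPolynomial.aeval v (a j) * v (c j))
    (hreg : ∀ j, IsRegularRing (Algebra.adjoin ℤ (Set.range fun s ↦
      algebraMap S (FractionRing S) (v s) / algebraMap S (FractionRing S) (v (c j)))))
    {B : Type} [CommRing B] [Algebra ℚ B] (ℬ : ℕ → Submodule ℚ B) [GradedAlgebra ℬ]
    (ψ : S →+* B) (hψ : Function.Injective ψ) (hψd : ∀ k, ∀ a ∈ 𝒮 k, ψ a ∈ ℬ k)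
    (hfrac : ∀ k, ∀ z ∈ ℬ (d * k), ∃ (N : ℤ) (q : MvPolynomial ι ℤ), N ≠ 0 ∧
      q.IsHomogeneous k ∧ ψ (MvPolynomial.aeval v q) = (N : B) * z) :
    ∃ (Y : Scheme),
        IsIntegral Y ∧
        IsLocallyNoetherian Y ∧
        (∀ (U : Y.affineOpens) (p : PrimeSpectrum (Y.presheaf.obj (Opposite.op U.1))),
          ringKrullDim (Localization.AtPrime p.asIdeal) =
            (((Module.finrank (IsLocalRing.ResidueField (Localization.AtPrime p.asIdeal))
              (IsLocalRing.CotangentSpace (Localization.AtPrime p.asIdeal)) : ℕ) : ℕ∞) :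
                WithBot ℕ∞)) ∧
        (∃ (A : Type) (_ : CommRing A) (𝒜 : ℕ → Submodule ℤ A) (_ : GradedAlgebra 𝒜),
          (∀ a ∈ 𝒜 0, ∃ n : ℤ, (n : A) = a) ∧
          (∃ s : Finset A, (∀ a ∈ s, a ∈ 𝒜 1) ∧ Algebra.adjoin ℤ (s : Set A) = ⊤) ∧
          Nonempty (Y ≅ Proj 𝒜)) ∧
        Flat (specZIsTerminal.from Y) ∧
        Nonempty (pullback (specZIsTerminal.from Y)
            (specZIsTerminal.from (Spec (CommRingCat.of ℚ))) ≅ Proj ℬ) := by
  classical
  have hfin := Fintype.ofFinite ι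
  let _ : GradedAlgebra (fgr 𝒮 v d) := fgraded 𝒮 hd hv
  have hdom : IsDomain (FRing v) := inferInstance
  have hchar : CharZero (FRing v) := by
    refine ⟨fun a b hab ↦ ?_⟩
    have := congrArg (fun x : FRing v ↦ (x : S)) hab
    exact_mod_cast this
  have hx : ∀ s, fx v s ∈ fgr 𝒮 v d 1 := fx_mem 𝒮 hv
  have hx0 : ∀ j, fx v (c j) ≠ 0 := fun j h ↦ hc j (congrArg (fun x : FRing v ↦ (x : S)) h)
  have hirr := irrelevant_le 𝒮 hd hv
  have htop : ⨆ j, Proj.basicOpen (fgr 𝒮 v d) (fx v (c j)) = ⊤ := by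
    refine top_le_iff.mp fun P _ ↦ TopologicalSpace.Opens.mem_iSup.mpr ?_
    by_contra! H
    simp only [Proj.mem_basicOpen, Decidable.not_not] at H
    refine P.not_irrelevant_le (hirr.trans ?_)
    rw [Ideal.span_le, Set.range_subset_iff]
    intro s
    obtain ⟨k, a, hk, h⟩ := hcov s
    have h1 : fx v s ^ k = ∑ j, MvPolynomial.aeval (fx v) (a j) * fx v (c j) := by
      apply Subtype.ext
      have h2 : ((∑ j, MvPolynomial.aeval (fx v) (a j) * fx v (c j) : FRing v) : S) =
          ∑ j, MvPolynomial.aeval v (a j) * v (c j) := by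
        rw [AddSubmonoidClass.coe_finsetSum]
        refine Finset.sum_congr rfl fun j _ ↦ ?_
        exact congrArg (· * v (c j)) (coe_aeval_fx v (a j))
      rw [h2, ← h]
      rfl
    have h2 : fx v s ^ k ∈ P.asHomogeneousIdeal.toIdeal := by
      rw [h1]
      exact Ideal.sum_mem _ fun j _ ↦ Ideal.mul_mem_left _ _ (H j)
    exact P.isPrime.mem_of_pow_mem k h2
  have hreg' : ∀ j, IsRegularRing (Away (fgr 𝒮 v d) (fx v (c j))) := fun j ↦ by
    obtain ⟨e⟩ := nonempty_away_equiv 𝒮 hd hv (c j) (hc j)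
    have := hreg j
    exact IsRegularRing.of_ringEquiv e
  obtain ⟨j₀⟩ := ‹Nonempty J›
  refine ⟨Proj (fgr 𝒮 v d), isIntegral_proj (fgr 𝒮 v d) (hx (c j₀)) (hx0 j₀),
    isLocallyNoetherian_proj (fgr 𝒮 v d) (fun j ↦ fx v (c j)) (fun j ↦ hx _) htop hreg', ?_, ?_,
    flat_proj (fgr 𝒮 v d) (fun j ↦ fx v (c j)) (fun j ↦ hx _) hx0 htop, ?_⟩
  · exact krullDim_of_cover (Proj (fgr 𝒮 v d)) (fun j ↦ Proj.basicOpen (fgr 𝒮 v d) (fx v (c j)))
      (fun j ↦ Proj.isAffineOpen_basicOpen _ _ (hx _) one_pos) htop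
      (fun j ↦ regular_section (fgr 𝒮 v d) (hx _) (hreg' j))
  · refine ⟨FRing v, inferInstance, fgr 𝒮 v d, inferInstance, ?_, ?_, ⟨Iso.refl _⟩⟩
    · intro a ha
      obtain ⟨q, hq, rfl⟩ := (mem_fgr_iff_exists 𝒮 hd hv).mp ha
      have h1 := MvPolynomial.IsHomogeneous.totalDegree_le hq
      rw [Nat.le_zero] at h1
      have h2 := MvPolynomial.totalDegree_eq_zero_iff_eq_C.mp h1
      refine ⟨MvPolynomial.coeff 0 q, ?_⟩
      conv_rhs => rw [h2]
      simp
    · refine ⟨Finset.univ.image (fx v), ?_, ?_⟩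
      · intro a ha
        obtain ⟨i, -, rfl⟩ := Finset.mem_image.mp ha
        exact hx i
      · rw [Finset.coe_image, Finset.coe_univ, Set.image_univ, Algebra.adjoin_range_eq_range_aeval,
          eq_top_iff]
        rintro a -
        exact exists_aeval_fx v a
  · refine generic_fibre_mul (fgr 𝒮 v d) ℬ
      (ψ.comp ((MvPolynomial.aeval v : MvPolynomial ι ℤ →ₐ[ℤ] S).range.val : FRing v →+* S))
      (hψ.comp Subtype.val_injective) hd (fun k a ha ↦ hψd _ _ ha) ?_ (fx v) hx hirr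
    intro k z hz
    obtain ⟨N, q, hN, hq, h⟩ := hfrac k z hz
    refine ⟨N, hN, MvPolynomial.aeval (fx v) q, (mem_fgr_iff_exists 𝒮 hd hv).mpr ⟨q, hq, rfl⟩, ?_⟩
    rw [← h]
    exact congrArg ψ (coe_aeval_fx v q)

end Pool.Agent.QuadAll
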