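import Mathlib
import Pool.Agent.QuadModel.Main

set_option autoImplicit false

/-!
# All quadrics: definitions

Integral quadratic forms `m P + G` adapted to the bad primes `p ∣ m`, and the blow up charts.
-/

namespace Pool.Agent.QuadAll

open Matrix Module Pool.Agent.QuadModel

/-- An integral form `m P + G` in the variables `x_0, ..., x_(n-1)`, where `G` involves only the
variables `x_k` with `k ≥ 2`, such that for the primes `p ∣ m` the form `P` is anisotropic modulo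
`p` on the plane `x_2 = ... = 0` and `G` is nonsingular modulo `p`, and for the other primes the
singular radical has dimension at most one. -/
structure Adapted {n : ℕ} (m : ℤ) (P G : Matrix (Fin n) (Fin n) ℤ) : Prop where
  ne_zero : m ≠ 0
  sqfree : ∀ p : ℕ, p.Prime → (p : ℤ) ∣ m → ¬ (p : ℤ) ^ 2 ∣ m
  supp : ∀ i j : Fin n, (i : ℕ) < 2 ∨ (j : ℕ) < 2 → G i j = 0
  aniso : ∀ p : ℕ, p.Prime → (p : ℤ) ∣ m → ∀ u : Fin n → ℤ, (∀ k : Fin n, 2 ≤ (k : ℕ) → u k = 0) →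
    (p : ℤ) ∣ qf P u → ∀ k, (p : ℤ) ∣ u k
  nonsing : ∀ p : ℕ, p.Prime → (p : ℤ) ∣ m → ∀ y : Fin n → ℤ,
    (∀ k, (p : ℤ) ∣ ((G + Gᵀ) *ᵥ y) k) → (p : ℤ) ∣ qf G y → ∀ k : Fin n, 2 ≤ (k : ℕ) → (p : ℤ) ∣ y k
  good : ∀ (p : ℕ) [Fact p.Prime], ¬ (p : ℤ) ∣ m →
    finrank (ZMod p) (radSub (redMat p (m • P + G))) ≤ 1

/-- The variables of the blow up charts: `inl k` is the coordinate `x_k` for `k < 2` and `Y_k` for
`k ≥ 2`; `inr 0 = e`, `inr 1 = M`, `inr 2 = B`. -/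
abbrev Var (n : ℕ) : Type := Fin n ⊕ Fin 3

/-- The polynomial ring of the blow up charts. -/
abbrev TT (n : ℕ) : Type := MvPolynomial (Var n) ℤ

/-- The coordinate vector `(x_0, x_1, e Y_2, ..., e Y_(n-1))`. -/
noncomputable def xv (n : ℕ) : Fin n → TT n := fun k ↦
  if (k : ℕ) < 2 then MvPolynomial.X (Sum.inl k)
  else MvPolynomial.X (Sum.inr 0) * MvPolynomial.X (Sum.inl k)

/-- The vector of all variables `inl k`. -/
noncomputable def yv (n : ℕ) : Fin n → TT n := fun k ↦ MvPolynomial.X (Sum.inl k)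

/-- The five relations of the chart `x_i = 1`, `w = 1`:
`e M - m`, `e B - P(x)`, `M B + G(Y)`, `x_i - 1`, `w - 1`. -/
noncomputable def rel {n : ℕ} (m : ℤ) (P G : Matrix (Fin n) (Fin n) ℤ) (i : Fin n) (w : Var n) :
    Fin 5 → TT n :=
  ![MvPolynomial.X (Sum.inr 0) * MvPolynomial.X (Sum.inr 1) - MvPolynomial.C m,
    MvPolynomial.X (Sum.inr 0) * MvPolynomial.X (Sum.inr 2) - qf (P.map MvPolynomial.C) (xv n),
    MvPolynomial.X (Sum.inr 1) * MvPolynomial.X (Sum.inr 2) + qf (G.map MvPolynomial.C) (yv n),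
    MvPolynomial.X (Sum.inl i) - 1,
    MvPolynomial.X w - 1]

/-- The point of the chart with coordinates in a field `K`: `η` is the vector of the affine
coordinates `x_k / x_i` and `ε` the value of `e`. -/
noncomputable def pt {n : ℕ} {K : Type} [Field K] (m : ℤ) (P : Matrix (Fin n) (Fin n) ℤ)
    (η : Fin n → K) (ε : K) : Var n → K :=
  Sum.elim (fun k ↦ if (k : ℕ) < 2 then η k else η k / ε)
    ![ε, (m : K) / ε, qf (P.map (Int.cast : ℤ → K)) η / ε]

/-- The coordinate ring of a chart, a subring of the function field. -/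
noncomputable abbrev chartRing {n : ℕ} {K : Type} [Field K] (m : ℤ) (P : Matrix (Fin n) (Fin n) ℤ)
    (η : Fin n → K) (ε : K) : Subalgebra ℤ K :=
  (MvPolynomial.aeval (pt m P η ε) : TT n →ₐ[ℤ] K).range

/-- The coordinate ring of the standard affine chart `x_i ≠ 0` of the hypersurface. -/
noncomputable abbrev affRing {n : ℕ} {K : Type} [Field K] (ξ : Fin n → K) (i : Fin n) :
    Subalgebra ℤ K :=
  (MvPolynomial.aeval (fun k ↦ ξ k / ξ i) : MvPolynomial (Fin n) ℤ →ₐ[ℤ] K).range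

/-- The generators (of degree three) of the model: `m x_a x_b x_c`, `P(x) x_k`, `x_j x_a x_b`
with `j ≥ 2`. -/
abbrev Gen (n : ℕ) : Type :=
  (Fin n × Fin n × Fin n) ⊕ Fin n ⊕ ({j : Fin n // 2 ≤ (j : ℕ)} × Fin n × Fin n)

/-- The values of the generators at a vector `ξ`. -/
noncomputable def gen {n : ℕ} {R : Type*} [CommRing R] (m : ℤ) (P : Matrix (Fin n) (Fin n) ℤ)
    (ξ : Fin n → R) : Gen n → R :=
  Sum.elim (fun t ↦ (m : R) * ξ t.1 * ξ t.2.1 * ξ t.2.2)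
    (Sum.elim (fun k ↦ qf (P.map (Int.cast : ℤ → R)) ξ * ξ k)
      (fun t ↦ ξ t.1.1 * ξ t.2.1 * ξ t.2.2))

/-- The indices of the charts. -/
abbrev Idx (n : ℕ) : Type :=
  ({i : Fin n // (i : ℕ) < 2} ⊕ {i : Fin n // (i : ℕ) < 2}) ⊕
    (({j : Fin n // 2 ≤ (j : ℕ)} × {i : Fin n // (i : ℕ) < 2}) ⊕ {j : Fin n // 2 ≤ (j : ℕ)})

/-- The generators whose nonvanishing loci are the charts: `m x_i ^ 3`, `P(x) x_i`,
`x_j x_i ^ 2` (with `i < 2 ≤ j`) and `x_j ^ 3` (with `j ≥ 2`). -/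
def chartGen {n : ℕ} : Idx n → Gen n
  | Sum.inl (Sum.inl i) => Sum.inl (i.1, i.1, i.1)
  | Sum.inl (Sum.inr i) => Sum.inr (Sum.inl i.1)
  | Sum.inr (Sum.inl (j, i)) => Sum.inr (Sum.inr (j, i.1, i.1))
  | Sum.inr (Sum.inr j) => Sum.inr (Sum.inr (j, j.1, j.1))

end Pool.Agent.QuadAll
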