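import Mathlib
import Pool.Agent.QuadModel.Lattice

set_option autoImplicit false

/-!
# Planes modulo finitely many primes and unimodular matrices
-/

namespace Pool.Agent.QuadAll

open Matrix Module Pool.Agent.QuadModel

namespace Unimod

variable {n : ℕ}

/-- Products of transvections. -/
def TV (n : ℕ) (K : Type) [Field K] : Submonoid (Matrix (Fin n) (Fin n) K) :=
  Submonoid.closure (Set.range TransvectionStruct.toMatrix)

theorem conj_mem {K : Type} [Field K] (D : Fin n → K) (hD : ∀ i, D i ≠ 0)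
    (A : Matrix (Fin n) (Fin n) K) (hA : A ∈ TV n K) :
    diagonal D * A * diagonal (fun i ↦ (D i)⁻¹) ∈ TV n K := by
  have h1 : diagonal (fun i ↦ (D i)⁻¹) * diagonal D = 1 := by
    rw [diagonal_mul_diagonal, ← diagonal_one]
    congr 1
    funext i
    exact inv_mul_cancel₀ (hD i)
  have h2 : diagonal D * diagonal (fun i ↦ (D i)⁻¹) = 1 := by
    rw [diagonal_mul_diagonal, ← diagonal_one]
    congr 1
    funext i
    exact mul_inv_cancel₀ (hD i)
  induction hA using Submonoid.closure_induction with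
  | mem x hx =>
    obtain ⟨t, rfl⟩ := hx
    apply Submonoid.subset_closure
    refine ⟨⟨t.i, t.j, t.hij, D t.i * t.c * (D t.j)⁻¹⟩, ?_⟩
    rw [TransvectionStruct.toMatrix_mk, TransvectionStruct.toMatrix, transvection, transvection,
      Matrix.mul_add, Matrix.add_mul, Matrix.mul_one, h2]
    congr 1
    ext a b
    rw [Matrix.mul_diagonal, Matrix.diagonal_mul]
    by_cases ha : t.i = a
    · by_cases hb : t.j = b
      · subst ha; subst hb; simp
      · subst ha; simp [hb]
    · simp [ha]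
  | one => rw [Matrix.mul_one, h2]; exact Submonoid.one_mem _
  | mul x y _ _ hx hy =>
    have h3 : diagonal D * (x * y) * diagonal (fun i ↦ (D i)⁻¹) =
        (diagonal D * x * diagonal (fun i ↦ (D i)⁻¹)) *
          (diagonal D * y * diagonal (fun i ↦ (D i)⁻¹)) := by
      calc diagonal D * (x * y) * diagonal (fun i ↦ (D i)⁻¹)
          = diagonal D * x * 1 * y * diagonal (fun i ↦ (D i)⁻¹) := by
            rw [Matrix.mul_one]; simp only [Matrix.mul_assoc]
        _ = _ := by rw [← h1]; simp only [Matrix.mul_assoc]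
    rw [h3]
    exact Submonoid.mul_mem _ hx hy

theorem exists_factor {K : Type} [Field K] (M : Matrix (Fin n) (Fin n) K) (hM : M.det ≠ 0) :
    ∃ A ∈ TV n K, ∃ D : Fin n → K, (∀ i, D i ≠ 0) ∧ M = A * diagonal D := by
  refine diagonal_transvection_induction_of_det_ne_zero
    (fun M ↦ ∃ A ∈ TV n K, ∃ D : Fin n → K, (∀ i, D i ≠ 0) ∧ M = A * diagonal D) M hM ?_ ?_ ?_
  · intro D hD
    refine ⟨1, Submonoid.one_mem _, D, ?_, by rw [Matrix.one_mul]⟩
    intro i hi
    apply hD
    rw [det_diagonal]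
    exact Finset.prod_eq_zero (Finset.mem_univ i) hi
  · intro t
    refine ⟨t.toMatrix, Submonoid.subset_closure ⟨t, rfl⟩, fun _ ↦ 1, fun _ ↦ one_ne_zero, ?_⟩
    rw [diagonal_one, Matrix.mul_one]
  · rintro A B - - ⟨A', hA', D, hD, rfl⟩ ⟨B', hB', E, hE, rfl⟩
    refine ⟨A' * (diagonal D * B' * diagonal (fun i ↦ (D i)⁻¹)),
      Submonoid.mul_mem _ hA' (conj_mem D hD B' hB'), fun i ↦ D i * E i,
      fun i ↦ mul_ne_zero (hD i) (hE i), ?_⟩
    have h1 : diagonal (fun i ↦ (D i)⁻¹) * diagonal (fun i ↦ D i * E i) = diagonal E := by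
      rw [diagonal_mul_diagonal]
      congr 1
      funext i
      rw [← mul_assoc, inv_mul_cancel₀ (hD i), one_mul]
    simp only [Matrix.mul_assoc]
    rw [h1]

/-- Lifting products of transvections modulo `p` to unimodular matrices that are trivial modulo
the primes of `s`. -/
theorem exists_lift {p : ℕ} [Fact p.Prime] (s : Finset ℕ) (hs : ∀ q ∈ s, q.Prime) (hps : p ∉ s)
    (A : Matrix (Fin n) (Fin n) (ZMod p)) (hA : A ∈ TV n (ZMod p)) :
    ∃ h : Matrix (Fin n) (Fin n) ℤ, h.det = 1 ∧ (Int.castRingHom (ZMod p)).mapMatrix h = A ∧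
      ∀ q ∈ s, (Int.castRingHom (ZMod q)).mapMatrix h = 1 := by
  have hN : ((∏ q ∈ s, (q : ℤ) : ℤ) : ZMod p) ≠ 0 := by
    intro h0
    rw [ZMod.intCast_zmod_eq_zero_iff_dvd] at h0
    have hp : Prime (p : ℤ) := Nat.prime_iff_prime_int.mp Fact.out
    obtain ⟨q, hq, hdvd⟩ := (Prime.dvd_finsetProd_iff hp _).mp h0
    have : p = q := (Nat.prime_dvd_prime_iff_eq Fact.out (hs q hq)).mp (by exact_mod_cast hdvd)
    exact hps (this ▸ hq)
  induction hA using Submonoid.closure_induction with
  | mem x hx =>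
    obtain ⟨t, rfl⟩ := hx
    obtain ⟨k, hk⟩ := ZMod.intCast_surjective (((∏ q ∈ s, (q : ℤ) : ℤ) : ZMod p)⁻¹ * t.c)
    refine ⟨transvection t.i t.j ((∏ q ∈ s, (q : ℤ)) * k), det_transvection_of_ne _ _ t.hij _,
      ?_, ?_⟩
    · rw [TransvectionStruct.toMatrix, transvection, transvection, map_add, map_one]
      congr 1
      ext a b
      rw [RingHom.mapMatrix_apply, Matrix.map_apply, Matrix.single_apply, Matrix.single_apply]
      split_ifs with h
      · rw [map_mul, eq_intCast, eq_intCast, hk, ← mul_assoc, mul_inv_cancel₀ hN, one_mul]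
      · rw [map_zero]
    · intro q hq
      rw [transvection, map_add, map_one]
      have : (Int.castRingHom (ZMod q)).mapMatrix
          (Matrix.single t.i t.j ((∏ q ∈ s, (q : ℤ)) * k)) = 0 := by
        ext a b
        rw [RingHom.mapMatrix_apply, Matrix.map_apply, Matrix.single_apply]
        split_ifs with h
        · rw [eq_intCast, Matrix.zero_apply, ZMod.intCast_zmod_eq_zero_iff_dvd]
          exact Dvd.dvd.mul_right (Finset.dvd_prod_of_mem _ hq) _
        · simp
      rw [this, add_zero]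
  | one => exact ⟨1, det_one, map_one _, fun q _ ↦ map_one _⟩
  | mul x y _ _ hx hy =>
    obtain ⟨h1, a1, b1, c1⟩ := hx
    obtain ⟨h2, a2, b2, c2⟩ := hy
    refine ⟨h1 * h2, by rw [det_mul, a1, a2, one_mul], by rw [map_mul, b1, b2], fun q hq ↦ ?_⟩
    rw [map_mul, c1 q hq, c2 q hq, one_mul]

/-- The coordinate plane. -/
def E0 (n : ℕ) (K : Type) [Field K] : Submodule K (Fin n → K) where
  carrier := {x | ∀ k : Fin n, 2 ≤ (k : ℕ) → x k = 0}
  add_mem' := fun {x y} hx hy k hk ↦ by rw [Pi.add_apply, hx k hk, hy k hk, add_zero]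
  zero_mem' := fun _ _ ↦ rfl
  smul_mem' := fun c x hx k hk ↦ by rw [Pi.smul_apply, hx k hk, smul_zero]

theorem finrank_E0 {K : Type} [Field K] (hn : 2 ≤ n) : finrank K (E0 n K) = 2 := by
  let f : (Fin 2 → K) →ₗ[K] (Fin n → K) :=
    { toFun := fun x k ↦ if h : (k : ℕ) < 2 then x ⟨k, h⟩ else 0
      map_add' := fun x y ↦ by
        funext k
        rw [Pi.add_apply]
        by_cases h : (k : ℕ) < 2
        · rw [dif_pos h, dif_pos h, dif_pos h, Pi.add_apply]
        · rw [dif_neg h, dif_neg h, dif_neg h, add_zero]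
      map_smul' := fun c x ↦ by
        funext k
        rw [Pi.smul_apply, RingHom.id_apply]
        by_cases h : (k : ℕ) < 2
        · rw [dif_pos h, dif_pos h, Pi.smul_apply]
        · rw [dif_neg h, dif_neg h, smul_zero] }
  have hfa : ∀ (x : Fin 2 → K) (k : Fin n), f x k = if h : (k : ℕ) < 2 then x ⟨k, h⟩ else 0 :=
    fun x k ↦ rfl
  have hf : Function.Injective f := by
    intro x y hxy
    funext i
    have h1 := congrFun hxy (⟨i, lt_of_lt_of_le i.2 hn⟩ : Fin n)
    rw [hfa, hfa, dif_pos i.2, dif_pos i.2] at h1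
    exact h1
  have hr : LinearMap.range f = E0 n K := by
    ext x
    constructor
    · rintro ⟨y, rfl⟩ k hk
      rw [hfa, dif_neg (by omega)]
    · intro hx
      refine ⟨fun i ↦ x ⟨i, lt_of_lt_of_le i.2 hn⟩, ?_⟩
      funext k
      rw [hfa]
      by_cases h : (k : ℕ) < 2
      · rw [dif_pos h]
      · rw [dif_neg h]
        exact (hx k (by omega)).symm
  rw [← hr, LinearMap.finrank_range_of_inj hf, finrank_fin_fun]

theorem mulVec_diagonal_mem {K : Type} [Field K] (D : Fin n → K) (hD : ∀ i, D i ≠ 0)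
    (x : Fin n → K) : diagonal D *ᵥ x ∈ E0 n K ↔ x ∈ E0 n K := by
  constructor
  · intro h k hk
    have := h k hk
    rw [mulVec_diagonal] at this
    exact (mul_eq_zero.mp this).resolve_left (hD k)
  · intro h k hk
    rw [mulVec_diagonal, h k hk, mul_zero]

/-- Every plane is the image of the coordinate plane under a product of transvections. -/
theorem exists_TV {K : Type} [Field K] (W : Submodule K (Fin n → K)) (hW : finrank K W = 2) :
    ∃ A ∈ TV n K, ∀ x : Fin n → K, A *ᵥ x ∈ W ↔ x ∈ E0 n K := by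
  have hn : 2 ≤ n := by
    have := Submodule.finrank_le W
    rw [hW, finrank_fin_fun] at this
    exact this
  obtain ⟨e, he⟩ := Submodule.exists_linearEquiv_restrict_eq
    (LinearEquiv.ofFinrankEq (E0 n K) W (by rw [finrank_E0 hn, hW]))
  have heW : ∀ x : Fin n → K, e x ∈ W ↔ x ∈ E0 n K := by
    intro x
    constructor
    · intro hx
      set w : W := ⟨e x, hx⟩ with hw
      set y := (LinearEquiv.ofFinrankEq (E0 n K) W (by rw [finrank_E0 hn, hW])).symm w with hy
      have h1 := he y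
      rw [hy, LinearEquiv.apply_symm_apply] at h1
      have h2 : x = (y : Fin n → K) := by
        apply e.injective
        rw [← h1]
      rw [h2]
      exact y.2
    · intro hx
      have h1 := he ⟨x, hx⟩
      rw [← h1]
      exact Subtype.coe_prop _
  have hdet : (LinearMap.toMatrix' e.toLinearMap).det ≠ 0 := by
    rw [LinearMap.det_toMatrix']
    exact (LinearEquiv.isUnit_det' e).ne_zero
  obtain ⟨A, hA, D, hD, hAD⟩ := exists_factor _ hdet
  have hAx : ∀ x, (A * diagonal D) *ᵥ x = e x := by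
    intro x
    rw [← hAD, ← Matrix.toLin'_apply, Matrix.toLin'_toMatrix']
    rfl
  refine ⟨A, hA, fun x ↦ ?_⟩
  have h1 : A *ᵥ x = e (diagonal (fun i ↦ (D i)⁻¹) *ᵥ x) := by
    rw [← hAx, Matrix.mulVec_mulVec, Matrix.mul_assoc, diagonal_mul_diagonal]
    have : (fun i ↦ D i * (D i)⁻¹) = fun _ ↦ (1 : K) := funext fun i ↦ mul_inv_cancel₀ (hD i)
    rw [this, diagonal_one, Matrix.mul_one]
  rw [h1, heW, mulVec_diagonal_mem _ (fun i ↦ inv_ne_zero (hD i))]

theorem red_mulVec (p : ℕ) (g : Matrix (Fin n) (Fin n) ℤ) (v : Fin n → ℤ) :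
    red p (g *ᵥ v) = (Int.castRingHom (ZMod p)).mapMatrix g *ᵥ red p v := by
  funext i
  rw [red_apply, Matrix.mulVec, Matrix.mulVec, dotProduct, dotProduct, Int.cast_sum]
  refine Finset.sum_congr rfl fun j _ ↦ ?_
  rw [Int.cast_mul]
  rfl

theorem red_mem_E0 (p : ℕ) [Fact p.Prime] (v : Fin n → ℤ) :
    red p v ∈ E0 n (ZMod p) ↔ ∀ k : Fin n, 2 ≤ (k : ℕ) → (p : ℤ) ∣ v k := by
  constructor
  · intro h k hk
    have := h k hk
    rwa [red_apply, ZMod.intCast_zmod_eq_zero_iff_dvd] at this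
  · intro h k hk
    rw [red_apply, ZMod.intCast_zmod_eq_zero_iff_dvd]
    exact h k hk

end Unimod

open Unimod in
/-- Planes modulo finitely many primes are simultaneously the reductions of a coordinate plane of
a basis of `ℤ ^ n`. -/
theorem exists_unimodular {n : ℕ} (s : Finset ℕ) (hs : ∀ p ∈ s, p.Prime)
    (W : ∀ p : ℕ, Submodule (ZMod p) (Fin n → ZMod p))
    (hW : ∀ p ∈ s, finrank (ZMod p) (W p) = 2) :
    ∃ g : Matrix (Fin n) (Fin n) ℤ, IsUnit g.det ∧ ∀ p ∈ s, ∀ v : Fin n → ℤ,
      red p (g *ᵥ v) ∈ W p ↔ ∀ k : Fin n, 2 ≤ (k : ℕ) → (p : ℤ) ∣ v k := by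
  induction s using Finset.induction_on with
  | empty => exact ⟨1, by simp, by simp⟩
  | insert p s hps ih =>
    obtain ⟨g, hg, hgs⟩ := ih (fun q hq ↦ hs q (Finset.mem_insert_of_mem hq))
      (fun q hq ↦ hW q (Finset.mem_insert_of_mem hq))
    have : Fact p.Prime := ⟨hs p (Finset.mem_insert_self _ _)⟩
    set G := (Int.castRingHom (ZMod p)).mapMatrix g with hG
    have hGdet : IsUnit G.det := by
      rw [hG, ← RingHom.map_det]
      exact hg.map _
    -- the plane `G⁻¹ W p`
    let L : (Fin n → ZMod p) ≃ₗ[ZMod p] (Fin n → ZMod p) := Matrix.toLinearEquiv' G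
      (Matrix.invertibleOfIsUnitDet G hGdet)
    have hL : ∀ x, L x = G *ᵥ x := fun x ↦ rfl
    have hfin : finrank (ZMod p) ((W p).comap L.toLinearMap) = 2 := by
      rw [← hW p (Finset.mem_insert_self _ _)]
      have : (W p).comap L.toLinearMap = (W p).map L.symm.toLinearMap := by
        rw [Submodule.map_equiv_eq_comap_symm]
        rfl
      rw [this]
      exact LinearEquiv.finrank_map_eq L.symm (W p)
    obtain ⟨A, hA, hAW⟩ := exists_TV _ hfin
    obtain ⟨h, hdet, hhp, hhs⟩ := exists_lift s (fun q hq ↦ hs q (Finset.mem_insert_of_mem hq))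
      hps A hA
    refine ⟨g * h, by rw [det_mul, hdet, mul_one]; exact hg, ?_⟩
    intro q hq v
    rcases Finset.mem_insert.mp hq with rfl | hq
    · rw [← Matrix.mulVec_mulVec, red_mulVec, red_mulVec, hhp, ← red_mem_E0, ← hAW,
        Submodule.mem_comap]
      rfl
    · rw [← Matrix.mulVec_mulVec, hgs q hq]
      have : Fact q.Prime := ⟨hs q (Finset.mem_insert_of_mem hq)⟩
      rw [← red_mem_E0, ← red_mem_E0, red_mulVec, hhs q hq, Matrix.one_mulVec]

end Pool.Agent.QuadAll
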