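import Mathlib
import Pool.Agent.QuadAll.Defs
import Pool.Agent.QuadAll.Unimod

set_option autoImplicit false

namespace Pool.Agent.QuadAll

open Matrix Module Pool.Agent.QuadModel

namespace Arith

variable {n : ℕ}

theorem mem_radSub_red (p : ℕ) [Fact p.Prime] (C : Matrix (Fin n) (Fin n) ℤ) (v : Fin n → ℤ) :
    red p v ∈ radSub (redMat p C) ↔
      (∀ k, (p : ℤ) ∣ ((C + Cᵀ) *ᵥ v) k) ∧ (p : ℤ) ∣ qf C v := by
  rw [mem_radSub, qf_redMat, ZMod.intCast_zmod_eq_zero_iff_dvd]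
  have h : ∀ k, ((redMat p C + (redMat p C)ᵀ) *ᵥ red p v) k =
      ((((C + Cᵀ) *ᵥ v) k : ℤ) : ZMod p) := by
    intro k
    simp [Matrix.mulVec, dotProduct]
  constructor
  · rintro ⟨h1, h2⟩
    refine ⟨fun k ↦ ?_, h2⟩
    rw [← ZMod.intCast_zmod_eq_zero_iff_dvd, ← h, h1, Pi.zero_apply]
  · rintro ⟨h1, h2⟩
    refine ⟨?_, h2⟩
    ext k
    rw [h, Pi.zero_apply, ZMod.intCast_zmod_eq_zero_iff_dvd]
    exact h1 k

theorem qf_eq_of_gram {C T : Matrix (Fin n) (Fin n) ℤ} (h : C + Cᵀ = T + Tᵀ) (v : Fin n → ℤ) :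
    qf C v = qf T v := by
  have h1 := two_mul_qf C v
  have h2 := two_mul_qf T v
  rw [h, ← h2] at h1
  exact mul_left_cancel₀ two_ne_zero h1

theorem gram_congr (D g : Matrix (Fin n) (Fin n) ℤ) :
    (gᵀ * D * g) + (gᵀ * D * g)ᵀ = gᵀ * (D + Dᵀ) * g := by
  rw [Matrix.transpose_mul, Matrix.transpose_mul, Matrix.transpose_transpose, Matrix.mul_add,
    Matrix.add_mul, Matrix.mul_assoc, Matrix.mul_assoc]

theorem isMin_congr {M : Matrix (Fin n) (Fin n) ℚ} {C D g : Matrix (Fin n) (Fin n) ℤ}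
    (hD : IsMin M D) (hg : IsUnit g.det) (h : C + Cᵀ = gᵀ * (D + Dᵀ) * g) : IsMin M C := by
  have hg1 : g.det.natAbs = 1 := Int.isUnit_iff_natAbs_eq.mp hg
  have hg0 : g.det ≠ 0 := by
    intro h0
    rw [h0] at hg1
    exact absurd hg1 (by decide)
  refine ⟨?_, fun C' hC' ↦ ?_⟩
  · obtain ⟨c, k, hc, hk, hck⟩ := hD.1
    refine ⟨c, k * g.map (Int.castRingHom ℚ), hc, ?_, ?_⟩
    · rw [Matrix.det_mul, ← RingHom.mapMatrix_apply, ← RingHom.map_det]
      exact mul_ne_zero hk (by simpa using hg0)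
    · rw [h, Matrix.map_mul, Matrix.map_mul, hck, Matrix.transpose_mul, Matrix.mul_smul,
        Matrix.smul_mul, Matrix.transpose_map]
      simp only [Matrix.mul_assoc]
  · have h1 : (C + Cᵀ).det.natAbs = (D + Dᵀ).det.natAbs := by
      rw [h, Matrix.det_mul, Matrix.det_mul, Matrix.det_transpose, Int.natAbs_mul, Int.natAbs_mul,
        hg1, one_mul, mul_one]
    rw [h1]
    exact hD.2 C' hC'

theorem dvd_det_of_radSub {p : ℕ} [Fact p.Prime] {D : Matrix (Fin n) (Fin n) ℤ}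
    (h : 0 < finrank (ZMod p) (radSub (redMat p D))) : (p : ℤ) ∣ (D + Dᵀ).det := by
  by_contra hcon
  have h1 : (redMat p D + (redMat p D)ᵀ).det ≠ 0 := by
    have : (redMat p D + (redMat p D)ᵀ) = (D + Dᵀ).map (Int.castRingHom (ZMod p)) := by
      ext i j
      simp
    rw [this, ← RingHom.mapMatrix_apply, ← RingHom.map_det, eq_intCast, Ne,
      ZMod.intCast_zmod_eq_zero_iff_dvd]
    exact hcon
  have h2 : radSub (redMat p D) = ⊥ := by
    rw [eq_bot_iff]
    intro x hx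
    rw [Submodule.mem_bot]
    exact Matrix.eq_zero_of_mulVec_eq_zero h1 hx.1
  rw [h2, finrank_bot] at h
  exact lt_irrefl _ h

theorem red_mulVec (p : ℕ) (g : Matrix (Fin n) (Fin n) ℤ) (v : Fin n → ℤ) :
    red p (g *ᵥ v) = (g.map (Int.castRingHom (ZMod p))) *ᵥ red p v := by
  ext k
  simp [Matrix.mulVec, dotProduct]

theorem dvd_mulVec {a : ℤ} (A : Matrix (Fin n) (Fin n) ℤ) {w : Fin n → ℤ} (h : ∀ i, a ∣ w i)
    (k : Fin n) : a ∣ (A *ᵥ w) k := by
  change a ∣ ∑ i, A k i * w i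
  exact Finset.dvd_sum fun i _ ↦ Dvd.dvd.mul_left (h i) _

theorem mem_radSub_congr {p : ℕ} [Fact p.Prime] {C D g : Matrix (Fin n) (Fin n) ℤ}
    (hg : IsUnit g.det) (h : C + Cᵀ = gᵀ * (D + Dᵀ) * g) (hq : ∀ v, qf C v = qf D (g *ᵥ v))
    (v : Fin n → ℤ) :
    red p v ∈ radSub (redMat p C) ↔ red p (g *ᵥ v) ∈ radSub (redMat p D) := by
  rw [mem_radSub_red, mem_radSub_red, hq, h]
  refine and_congr_left fun _ ↦ ?_
  have hgt : IsUnit gᵀ.det := by rwa [Matrix.det_transpose]
  constructor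
  · intro h1 k
    have h2 : (D + Dᵀ) *ᵥ (g *ᵥ v) = gᵀ⁻¹ *ᵥ ((gᵀ * (D + Dᵀ) * g) *ᵥ v) := by
      rw [Matrix.mulVec_mulVec, Matrix.mulVec_mulVec, Matrix.mul_assoc, Matrix.nonsing_inv_mul_cancel_left _ _ hgt]
    rw [h2]
    exact dvd_mulVec _ h1 k
  · intro h1 k
    have h2 : (gᵀ * (D + Dᵀ) * g) *ᵥ v = gᵀ *ᵥ ((D + Dᵀ) *ᵥ (g *ᵥ v)) := by
      rw [Matrix.mulVec_mulVec, Matrix.mulVec_mulVec, Matrix.mul_assoc]
    rw [h2]
    exact dvd_mulVec _ h1 k

theorem finrank_radSub_congr {p : ℕ} [Fact p.Prime] {C D g : Matrix (Fin n) (Fin n) ℤ}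
    (hg : IsUnit g.det) (h : C + Cᵀ = gᵀ * (D + Dᵀ) * g) (hq : ∀ v, qf C v = qf D (g *ᵥ v)) :
    finrank (ZMod p) (radSub (redMat p C)) ≤ finrank (ZMod p) (radSub (redMat p D)) := by
  set gp := g.map (Int.castRingHom (ZMod p)) with hgp
  have hdet : gp.det ≠ 0 := by
    rw [hgp, ← RingHom.mapMatrix_apply, ← RingHom.map_det]
    exact (hg.map _).ne_zero
  have hmap : ∀ x ∈ radSub (redMat p C), gp.mulVecLin x ∈ radSub (redMat p D) := by
    intro x hx
    obtain ⟨v, rfl⟩ := red_surjective p x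
    rw [Matrix.mulVecLin_apply, ← red_mulVec]
    exact (mem_radSub_congr hg h hq v).mp hx
  refine LinearMap.finrank_le_finrank_of_injective
    (f := gp.mulVecLin.restrict hmap) ?_
  intro x y hxy
  have h1 := congrArg Subtype.val hxy
  simp only [LinearMap.coe_restrict_apply, Matrix.mulVecLin_apply] at h1
  refine Subtype.ext ?_
  have h2 : gp *ᵥ ((x : Fin n → ZMod p) - y) = 0 := by
    rw [Matrix.mulVec_sub, h1, sub_self]
  exact sub_eq_zero.mp (Matrix.eq_zero_of_mulVec_eq_zero hdet h2)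

/-- The upper triangular form with the same polar form. -/
def upper (T : Matrix (Fin n) (Fin n) ℤ) : Matrix (Fin n) (Fin n) ℤ := Matrix.of fun i j ↦
  if i = j then T i i else if i < j then T i j + T j i else 0

theorem upper_gram (T : Matrix (Fin n) (Fin n) ℤ) : upper T + (upper T)ᵀ = T + Tᵀ := by
  ext i j
  simp only [upper, Matrix.add_apply, Matrix.of_apply, Matrix.transpose_apply]
  rcases lt_trichotomy i j with hij | hij | hij
  · rw [if_neg hij.ne, if_pos hij, if_neg hij.ne', if_neg hij.asymm, add_zero]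
  · subst hij
    simp only [if_true]
  · rw [if_neg hij.ne', if_neg hij.asymm, if_neg hij.ne, if_pos hij, zero_add, add_comm]

theorem dvd_of_mem_radSub {p : ℕ} [Fact p.Prime] {T : Matrix (Fin n) (Fin n) ℤ}
    (i : Fin n) (h : red p (Pi.single i 1) ∈ radSub (redMat p T)) (j : Fin n) :
    (p : ℤ) ∣ upper T i j := by
  rw [mem_radSub_red] at h
  obtain ⟨h1, h2⟩ := h
  rw [qf_single] at h2
  have h3 := h1 j
  simp only [Matrix.mulVec_single_one, Matrix.col_apply, Matrix.add_apply,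
    Matrix.transpose_apply] at h3
  simp only [upper, Matrix.of_apply]
  split_ifs with h4 h5
  · exact h2
  · rwa [add_comm]
  · exact dvd_zero _

end Arith

/-- Every rational form is similar to an adapted integral form of smallest discriminant. -/
theorem exists_adapted {n : ℕ} (_hn : 3 ≤ n) {M : Matrix (Fin n) (Fin n) ℚ} (hM : M.det ≠ 0)
    {D : Matrix (Fin n) (Fin n) ℤ} (hD : IsMin M D) :
    ∃ (m : ℤ) (P G : Matrix (Fin n) (Fin n) ℤ), Adapted m P G ∧ IsMin M (m • P + G) := by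
  classical
  have hdet := hD.1.det_ne_zero hM
  let W : ∀ p : ℕ, Submodule (ZMod p) (Fin n → ZMod p) := fun p ↦
    if h : p.Prime then haveI := Fact.mk h; radSub (redMat p D) else ⊥
  have hWp : ∀ (p : ℕ) [hp : Fact p.Prime], W p = radSub (redMat p D) := by
    intro p hp
    simp only [W]
    rw [dif_pos hp.out]
  let s : Finset ℕ := (D + Dᵀ).det.natAbs.primeFactors.filter
    fun p ↦ finrank (ZMod p) (W p) = 2
  have hs : ∀ p ∈ s, p.Prime := fun p hp ↦
    Nat.prime_of_mem_primeFactors (Finset.mem_filter.mp hp).1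
  obtain ⟨g, hg, hgW⟩ := exists_unimodular s hs W (fun p hp ↦ (Finset.mem_filter.mp hp).2)
  set T := gᵀ * D * g with hT
  set C := Arith.upper T with hC
  have hgram : C + Cᵀ = gᵀ * (D + Dᵀ) * g := by
    rw [hC, Arith.upper_gram, hT, Arith.gram_congr]
  have hq : ∀ v, qf C v = qf D (g *ᵥ v) := by
    intro v
    rw [hC, Arith.qf_eq_of_gram (Arith.upper_gram T), hT, qf_mulVec]
  have hmin : IsMin M C := Arith.isMin_congr hD hg hgram
  have hrad : ∀ (p : ℕ) [Fact p.Prime], p ∈ s → ∀ v : Fin n → ℤ,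
      red p v ∈ radSub (redMat p C) ↔ ∀ k : Fin n, 2 ≤ (k : ℕ) → (p : ℤ) ∣ v k := by
    intro p hp hps v
    rw [Arith.mem_radSub_congr hg hgram hq, ← hgW p hps, hWp]
  set m : ℤ := ∏ p ∈ s, (p : ℤ) with hm
  have hm0 : m ≠ 0 := Finset.prod_ne_zero_iff.mpr fun p hp ↦ by
    exact_mod_cast (hs p hp).ne_zero
  have hdvd_m : ∀ p : ℕ, p.Prime → (p : ℤ) ∣ m → p ∈ s := by
    intro p hp h
    obtain ⟨q, hq1, hq2⟩ := (Nat.prime_iff_prime_int.mp hp).exists_mem_finset_dvd h
    have h3 : p ∣ q := by exact_mod_cast hq2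
    rw [(Nat.prime_dvd_prime_iff_eq hp (hs q hq1)).mp h3]
    exact hq1
  have hm_dvd : ∀ a : ℤ, (∀ p ∈ s, (p : ℤ) ∣ a) → m ∣ a := by
    intro a ha
    refine Finset.prod_dvd_of_coprime ?_ ha
    intro p hp q hq hpq
    exact Nat.isCoprime_iff_coprime.mpr ((Nat.coprime_primes (hs p hp) (hs q hq)).mpr hpq)
  have hCdvd : ∀ i j : Fin n, (i : ℕ) < 2 → m ∣ C i j := by
    intro i j hi
    refine hm_dvd _ fun p hp ↦ ?_
    have := Fact.mk (hs p hp)
    rw [hC]
    refine Arith.dvd_of_mem_radSub i ?_ j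
    have h1 : red p (Pi.single i 1) ∈ radSub (redMat p C) := by
      rw [hrad p hp]
      intro k hk
      rw [Pi.single_eq_of_ne (by rintro rfl; omega)]
      exact dvd_zero _
    rw [Arith.mem_radSub_red] at h1 ⊢
    rwa [hC, Arith.upper_gram, Arith.qf_eq_of_gram (Arith.upper_gram T)] at h1
  let P : Matrix (Fin n) (Fin n) ℤ := Matrix.of fun i j ↦
    if (i : ℕ) < 2 ∨ (j : ℕ) < 2 then C i j / m else 0
  let G : Matrix (Fin n) (Fin n) ℤ := Matrix.of fun i j ↦
    if (i : ℕ) < 2 ∨ (j : ℕ) < 2 then 0 else C i j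
  have hPG : m • P + G = C := by
    ext i j
    simp only [P, G, Matrix.add_apply, Matrix.smul_apply, Matrix.of_apply, smul_eq_mul]
    split_ifs with h
    · rw [add_zero]
      refine Int.mul_ediv_cancel' ?_
      by_cases hi : (i : ℕ) < 2
      · exact hCdvd i j hi
      · have hj : (j : ℕ) < 2 := by omega
        have : C i j = 0 := by
          rw [hC]
          simp only [Arith.upper, Matrix.of_apply]
          rw [if_neg (by rintro rfl; exact hi hj), if_neg (by
            rw [Fin.lt_def]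
            omega)]
        rw [this]
        exact dvd_zero _
    · rw [mul_zero, zero_add]
  have hG0 : ∀ u : Fin n → ℤ, (∀ k : Fin n, 2 ≤ (k : ℕ) → u k = 0) → qf G u = 0 := by
    intro u hu
    have : G *ᵥ u = 0 := by
      ext i
      simp only [Matrix.mulVec, dotProduct, Pi.zero_apply]
      refine Finset.sum_eq_zero fun j _ ↦ ?_
      by_cases hj : (j : ℕ) < 2
      · simp only [G, Matrix.of_apply]
        rw [if_pos (Or.inr hj), zero_mul]
      · rw [hu j (by omega), mul_zero]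
    unfold qf
    rw [this, dotProduct_zero]
  have hsum : ∀ u, qf C u = m * qf P u + qf G u := by
    intro u
    rw [← hPG]
    unfold qf
    rw [Matrix.add_mulVec, dotProduct_add, Matrix.smul_mulVec, dotProduct_smul, smul_eq_mul]
  refine ⟨m, P, G, ⟨hm0, ?_, ?_, ?_, ?_, ?_⟩, hPG ▸ hmin⟩
  · intro p hp hpm hsq
    have hps := hdvd_m p hp hpm
    rw [hm, ← Finset.mul_prod_erase s _ hps, pow_two] at hsq
    have h1 := Int.dvd_of_mul_dvd_mul_left (by exact_mod_cast hp.ne_zero) hsq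
    obtain ⟨q, hq1, hq2⟩ := (Nat.prime_iff_prime_int.mp hp).exists_mem_finset_dvd h1
    have h3 : p ∣ q := by exact_mod_cast hq2
    have h4 := (Nat.prime_dvd_prime_iff_eq hp (hs q (Finset.mem_of_mem_erase hq1))).mp h3
    exact Finset.ne_of_mem_erase hq1 h4.symm
  · intro i j hij
    simp only [G, Matrix.of_apply]
    rw [if_pos hij]
  · intro p hp hpm u hu hdvd
    have := Fact.mk hp
    have hps := hdvd_m p hp hpm
    by_contra hcon
    have h1 : red p u ∈ radSub (redMat p C) := by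
      rw [hrad p hps]
      intro k hk
      rw [hu k hk]
      exact dvd_zero _
    refine hmin.not_sq_dvd hM p u h1 ?_ ?_
    · intro h0
      apply hcon
      intro k
      rw [← ZMod.intCast_zmod_eq_zero_iff_dvd]
      exact congrFun h0 k
    · rw [hsum, hG0 u hu, add_zero, pow_two]
      exact mul_dvd_mul hpm hdvd
  · intro p hp hpm y hy hqy
    have := Fact.mk hp
    have hps := hdvd_m p hp hpm
    refine (hrad p hps y).mp ?_
    rw [Arith.mem_radSub_red, hsum]
    refine ⟨fun k ↦ ?_, dvd_add (Dvd.dvd.mul_right hpm _) hqy⟩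
    have h1 : (C + Cᵀ) *ᵥ y = m • ((P + Pᵀ) *ᵥ y) + (G + Gᵀ) *ᵥ y := by
      rw [← hPG, Matrix.transpose_add, Matrix.transpose_smul, ← Matrix.smul_mulVec,
        ← Matrix.add_mulVec, smul_add]
      congr 1
      abel
    rw [h1, Pi.add_apply, Pi.smul_apply, smul_eq_mul]
    exact dvd_add (Dvd.dvd.mul_right hpm _) (hy k)
  · intro p hp hpm
    rw [hPG]
    refine (Arith.finrank_radSub_congr hg hgram hq).trans ?_
    have h2 := (hD.finrank_radSub_le_two hM p).1
    by_contra hcon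
    have h3 : finrank (ZMod p) (radSub (redMat p D)) = 2 := by omega
    apply hpm
    have h4 := Arith.dvd_det_of_radSub (p := p) (D := D) (by omega)
    have hps : p ∈ s := by
      refine Finset.mem_filter.mpr ⟨?_, ?_⟩
      · rw [Nat.mem_primeFactors]
        exact ⟨hp.out, Int.natCast_dvd.mp h4, Int.natAbs_ne_zero.mpr hdet⟩
      · rw [hWp]
        exact h3
    exact Finset.dvd_prod_of_mem (fun p : ℕ ↦ (p : ℤ)) hps

end Pool.Agent.QuadAll
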