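import Mathlib
import Pool.Agent.QuadAll.Defs

set_option autoImplicit false

/-!
# Adapted forms over extension fields
-/

namespace Pool.Agent.QuadAll

open Matrix Module Pool.Agent.QuadModel

namespace Kappa

variable {n : ℕ}

/-- The coordinates of a singular radical vector over an extension field are singular radical
vectors. -/
theorem coords_mem (p : ℕ) [hp : Fact p.Prime] {κ : Type*} [Field κ] [Algebra (ZMod p) κ]
    (D : Matrix (Fin n) (Fin n) (ZMod p))
    (x : Fin n → κ) (hG : (D + Dᵀ).map (algebraMap (ZMod p) κ) *ᵥ x = 0)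
    (hq : qf (D.map (algebraMap (ZMod p) κ)) x = 0) {ι : Type*} (b : Basis ι (ZMod p) κ) (t : ι) :
    (fun j ↦ b.repr (x j) t) ∈ radSub D := by
  classical
  let v := fun t (j : Fin n) ↦ b.repr (x j) t
  have hv1 : ∀ t, (D + Dᵀ) *ᵥ (v t) = 0 := by
    intro t
    ext k
    have h1 := congrFun hG k
    have h2 := congrArg (b.coord t) h1
    simp only [Matrix.mulVec, dotProduct, Matrix.map_apply, ← Algebra.smul_def, map_sum, map_smul,
      Pi.zero_apply, map_zero, smul_eq_mul, Basis.coord_apply] at h2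
    simp only [Matrix.mulVec, dotProduct, Pi.zero_apply]
    exact h2
  have hsum : ∀ j, x j = ∑ t ∈ Finset.univ.biUnion (fun j ↦ (b.repr (x j)).support),
      v t j • b t := by
    intro j
    conv_lhs => rw [← b.linearCombination_repr (x j)]
    rw [Finsupp.linearCombination_apply, Finsupp.sum_of_support_subset]
    · exact Finset.subset_biUnion_of_mem (fun j ↦ (b.repr (x j)).support) (Finset.mem_univ j)
    · intro t _
      rw [zero_smul]
  set T := Finset.univ.biUnion (fun j ↦ (b.repr (x j)).support) with hT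
  have hv2 : ∀ t, qf D (v t) = 0 := by
    by_cases hp2 : p = 2
    · subst hp2
      have hκ : CharP κ 2 := charP_of_injective_algebraMap (algebraMap (ZMod 2) κ).injective 2
      have hx : x = ∑ t ∈ T, b t • (fun j ↦ algebraMap (ZMod 2) κ (v t j)) := by
        ext j
        rw [hsum j, Finset.sum_apply]
        refine Finset.sum_congr rfl fun t _ ↦ ?_
        rw [Pi.smul_apply, Algebra.smul_def, smul_eq_mul, mul_comm]
      have hgr : ∀ t, (D.map (algebraMap (ZMod 2) κ) + (D.map (algebraMap (ZMod 2) κ))ᵀ) *ᵥ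
          (b t • (fun j ↦ algebraMap (ZMod 2) κ (v t j))) = 0 := by
        intro t
        rw [Matrix.mulVec_smul, ← Matrix.transpose_map, ← Matrix.map_add _ (map_add _)]
        have : (D + Dᵀ).map (algebraMap (ZMod 2) κ) *ᵥ (fun j ↦ algebraMap (ZMod 2) κ (v t j)) =
            fun k ↦ algebraMap (ZMod 2) κ (((D + Dᵀ) *ᵥ (v t)) k) := by
          ext k
          simp [Matrix.mulVec, dotProduct]
        rw [this, hv1]
        ext k
        simp
      have h1 : ∑ t ∈ T, b t ^ 2 * algebraMap (ZMod 2) κ (qf D (v t)) = 0 := by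
        rw [← hq, hx, qf_sum_of_gram _ _ _ hgr]
        refine Finset.sum_congr rfl fun t _ ↦ ?_
        rw [qf_smul, qf_map]
      have h2 : (∑ t ∈ T, qf D (v t) • b t) ^ 2 = 0 := by
        rw [← h1]
        rw [← frobenius_def, map_sum]
        refine Finset.sum_congr rfl fun t _ ↦ ?_
        rw [frobenius_def, Algebra.smul_def, mul_pow, ← map_pow, ZMod.pow_card (qf D (v t)),
          mul_comm]
      have h3 : ∑ t ∈ T, qf D (v t) • b t = 0 := pow_eq_zero_iff (two_ne_zero) |>.mp h2
      have h4 := linearIndependent_iff'.mp b.linearIndependent T _ h3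
      intro t
      by_cases ht : t ∈ T
      · exact h4 t ht
      · have : v t = 0 := by
          ext j
          by_contra hne
          exact ht (Finset.mem_biUnion.mpr ⟨j, Finset.mem_univ j, Finsupp.mem_support_iff.mpr hne⟩)
        rw [this]
        simp [qf]
    · intro t
      have h1 := two_mul_qf D (v t)
      rw [hv1, dotProduct_zero] at h1
      have h2 : (2 : ZMod p) ≠ 0 := by
        intro h
        have : ((2 : ℕ) : ZMod p) = 0 := by exact_mod_cast h
        rw [ZMod.natCast_eq_zero_iff] at this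
        exact hp2 ((Nat.prime_dvd_prime_iff_eq hp.out Nat.prime_two).mp this)
      exact (mul_eq_zero.mp h1).resolve_left h2
  exact ⟨hv1 t, hv2 t⟩

/-- Vanishing of coordinates of singular radical vectors passes to extension fields. -/
theorem vanish {p : ℕ} (hp : p.Prime) {κ : Type} [Field κ] [CharP κ p]
    (D : Matrix (Fin n) (Fin n) ℤ) (k : Fin n)
    (h : ∀ u : Fin n → ℤ, (∀ l, (p : ℤ) ∣ ((D + Dᵀ) *ᵥ u) l) → (p : ℤ) ∣ qf D u → (p : ℤ) ∣ u k)
    (x : Fin n → κ) (hG : ((D + Dᵀ).map (Int.cast : ℤ → κ)) *ᵥ x = 0)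
    (hq : qf (D.map (Int.cast : ℤ → κ)) x = 0) : x k = 0 := by
  have : Fact p.Prime := ⟨hp⟩
  let _ : Algebra (ZMod p) κ := ZMod.algebra κ p
  have hcast : ∀ z : ℤ, algebraMap (ZMod p) κ (z : ZMod p) = (z : κ) := fun z ↦ by simp
  let b := Basis.ofVectorSpace (ZMod p) κ
  have h1 : ∀ t, (fun j ↦ b.repr (x j) t) ∈ radSub (redMat p D) := by
    intro t
    refine coords_mem p (redMat p D) x ?_ ?_ b t
    · rw [← hG]
      congr 1
      ext i j
      simp [redMat]
    · rw [← hq]
      congr 1
      ext i j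
      simp [redMat]
  have h2 : ∀ t, b.repr (x k) t = 0 := by
    intro t
    obtain ⟨u, hu⟩ := red_surjective p (fun j ↦ b.repr (x j) t)
    have h3 := h1 t
    rw [← hu] at h3
    obtain ⟨h4, h5⟩ := h3
    have h6 : (p : ℤ) ∣ u k := by
      apply h
      · intro l
        rw [← ZMod.intCast_zmod_eq_zero_iff_dvd]
        have h7 := congrFun h4 l
        rw [Pi.zero_apply] at h7
        rw [← h7]
        simp [redMat, Matrix.mulVec, dotProduct]
      · rw [← ZMod.intCast_zmod_eq_zero_iff_dvd, ← qf_redMat]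
        exact h5
    have h8 := congrFun hu k
    simp only [red_apply] at h8
    rw [← h8, ZMod.intCast_zmod_eq_zero_iff_dvd]
    exact h6
  apply b.repr.injective
  rw [map_zero]
  ext t
  exact h2 t

end Kappa

open Kappa

/-- `G` is nonsingular over every field of characteristic `p ∣ m`. -/
theorem Adapted.eq_zero_of_singular {n : ℕ} {m : ℤ} {P G : Matrix (Fin n) (Fin n) ℤ}
    (hA : Adapted m P G) {p : ℕ} (hp : p.Prime) (hpm : (p : ℤ) ∣ m) {κ : Type} [Field κ]
    [CharP κ p] (y : Fin n → κ) (hy : ((G + Gᵀ).map (Int.cast : ℤ → κ)) *ᵥ y = 0)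
    (hq : qf (G.map (Int.cast : ℤ → κ)) y = 0) (k : Fin n) (hk : 2 ≤ (k : ℕ)) : y k = 0 :=
  vanish hp G k (fun u hu hqu ↦ hA.nonsing p hp hpm u hu hqu k hk) y hy hq

/-- `P` is separable on the plane over every field of characteristic `p ∣ m`. -/
theorem Adapted.exists_partial_ne {n : ℕ} {m : ℤ} {P G : Matrix (Fin n) (Fin n) ℤ}
    (hA : Adapted m P G) {p : ℕ} (hp : p.Prime) (hpm : (p : ℤ) ∣ m) {κ : Type} [Field κ]
    [CharP κ p] (x : Fin n → κ) (hx : ∀ k : Fin n, 2 ≤ (k : ℕ) → x k = 0) (hx0 : x ≠ 0)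
    (hq : qf (P.map (Int.cast : ℤ → κ)) x = 0) :
    ∃ i : Fin n, (i : ℕ) < 2 ∧ (((P + Pᵀ).map (Int.cast : ℤ → κ)) *ᵥ x) i ≠ 0 := by
  classical
  by_contra hcon
  push Not at hcon
  let R : Matrix (Fin n) (Fin n) ℤ := Matrix.of fun i j ↦
    if (i : ℕ) < 2 ∧ (j : ℕ) < 2 then P i j else 0
  have hR : ∀ {S : Type} [CommRing S] (f : ℤ → S) (hf : f 0 = 0) (v : Fin n → S),
      (∀ k : Fin n, 2 ≤ (k : ℕ) → v k = 0) → qf (R.map f) v = qf (P.map f) v := by
    intro S _ f hf v hv
    unfold qf
    simp only [dotProduct, Matrix.mulVec, Finset.mul_sum]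
    refine Finset.sum_congr rfl fun i _ ↦ Finset.sum_congr rfl fun j _ ↦ ?_
    by_cases h : (i : ℕ) < 2 ∧ (j : ℕ) < 2
    · have : R i j = P i j := if_pos h
      rw [Matrix.map_apply, Matrix.map_apply, this]
    · rw [not_and_or] at h
      rcases h with h | h
      · rw [hv i (by omega), zero_mul, zero_mul]
      · rw [hv j (by omega)]
        ring
  apply hx0
  ext k
  rw [Pi.zero_apply]
  by_cases hk : 2 ≤ (k : ℕ)
  · exact hx k hk
  refine vanish hp R k ?_ x ?_ ?_
  · intro u _ hu
    let u' : Fin n → ℤ := fun l ↦ if (l : ℕ) < 2 then u l else 0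
    have h1 : qf R u = qf P u' := by
      unfold qf
      simp only [dotProduct, Matrix.mulVec, Finset.mul_sum]
      refine Finset.sum_congr rfl fun i _ ↦ Finset.sum_congr rfl fun j _ ↦ ?_
      by_cases h : (i : ℕ) < 2 ∧ (j : ℕ) < 2
      · have h3 : R i j = P i j := if_pos h
        have h4 : u' i = u i := if_pos h.1
        have h5 : u' j = u j := if_pos h.2
        rw [h3, h4, h5]
      · have h3 : R i j = 0 := if_neg h
        rw [h3]
        rw [not_and_or] at h
        rcases h with h | h
        · have h4 : u' i = 0 := if_neg h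
          rw [h4]
          ring
        · have h4 : u' j = 0 := if_neg h
          rw [h4]
          ring
    rw [h1] at hu
    have h2 := hA.aniso p hp hpm u' (fun l hl ↦ if_neg (by omega)) hu k
    have h3 : u' k = u k := if_pos (by omega)
    rwa [h3] at h2
  · ext i
    rw [Pi.zero_apply]
    by_cases hi : (i : ℕ) < 2
    · rw [← hcon i hi]
      simp only [Matrix.mulVec, dotProduct]
      refine Finset.sum_congr rfl fun j _ ↦ ?_
      by_cases hj : (j : ℕ) < 2
      · have h3 : R i j = P i j := if_pos ⟨hi, hj⟩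
        have h4 : R j i = P j i := if_pos ⟨hj, hi⟩
        rw [Matrix.map_apply, Matrix.map_apply, Matrix.add_apply, Matrix.add_apply,
          Matrix.transpose_apply, Matrix.transpose_apply, h3, h4]
      · rw [hx j (by omega), mul_zero, mul_zero]
    · simp only [Matrix.mulVec, dotProduct]
      refine Finset.sum_eq_zero fun j _ ↦ ?_
      have h3 : R i j = 0 := if_neg (fun h ↦ hi h.1)
      have h4 : R j i = 0 := if_neg (fun h ↦ hi h.2)
      rw [Matrix.map_apply, Matrix.add_apply, Matrix.transpose_apply, h3, h4]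
      simp
  · rw [hR (Int.cast : ℤ → κ) Int.cast_zero x hx]
    exact hq

end Pool.Agent.QuadAll
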