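import Mathlib
import Pool.Agent.QuadAll.Kappa

set_option autoImplicit false

/-!
# All quadrics, module Affine: the standard affine charts
-/

namespace Pool.Agent.QuadAll

open Matrix Module Pool.Agent.QuadModel

namespace Affine

theorem aeval_div_of_isHomogeneous {n : ℕ} {K : Type} [Field K] (ξ : Fin n → K) (i : Fin n)
    {g : MvPolynomial (Fin n) ℤ} {N : ℕ} (hg : g.IsHomogeneous N) :
    MvPolynomial.aeval (fun k ↦ ξ k / ξ i) g = (ξ i)⁻¹ ^ N * MvPolynomial.aeval ξ g := by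
  have h1 := eval₂_mul_of_isHomogeneous (algebraMap ℤ K) (ξ i)⁻¹ ξ hg
  rw [MvPolynomial.aeval_def, MvPolynomial.aeval_def, ← h1]
  congr 1
  funext k
  rw [div_eq_inv_mul]

theorem span_le_ker {n : ℕ} {D : Matrix (Fin n) (Fin n) ℤ} {K : Type} [Field K]
    (ξ : Fin n → K) (hξ : MvPolynomial.aeval ξ (qpoly D) = 0)
    (i : Fin n) (hi : ξ i ≠ 0) {f : MvPolynomial (Fin n) ℤ}
    (hf : f ∈ Ideal.span {qpoly D, (MvPolynomial.X i - 1 : MvPolynomial (Fin n) ℤ)}) :
    MvPolynomial.aeval (fun k ↦ ξ k / ξ i) f = 0 := by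
  obtain ⟨a, b, rfl⟩ := Ideal.mem_span_pair.mp hf
  have h1 : MvPolynomial.aeval (fun k ↦ ξ k / ξ i) (qpoly D) = 0 := by
    rw [aeval_div_of_isHomogeneous ξ i (isHomogeneous_qpoly D), hξ, mul_zero]
  have h2 : MvPolynomial.aeval (fun k ↦ ξ k / ξ i) (MvPolynomial.X i - 1 :
      MvPolynomial (Fin n) ℤ) = 0 := by
    rw [map_sub, MvPolynomial.aeval_X, map_one, div_self hi, sub_self]
  rw [map_add, map_mul, map_mul, h1, h2, mul_zero, mul_zero, add_zero]

end Affine

/-- Dehomogenisation: the kernel of the affine coordinates. -/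
theorem aeval_affine_eq_zero_iff {n : ℕ} {D : Matrix (Fin n) (Fin n) ℤ} {K : Type} [Field K]
    (ξ : Fin n → K) (hξ : ∀ f : MvPolynomial (Fin n) ℤ, MvPolynomial.aeval ξ f = 0 ↔ qpoly D ∣ f)
    (i : Fin n) (hi : ξ i ≠ 0) (f : MvPolynomial (Fin n) ℤ) :
    MvPolynomial.aeval (fun k ↦ ξ k / ξ i) f = 0 ↔
      f ∈ Ideal.span {qpoly D, (MvPolynomial.X i - 1 : MvPolynomial (Fin n) ℤ)} := by
  have hD0 : MvPolynomial.aeval ξ (qpoly D) = 0 := (hξ _).mpr dvd_rfl
  constructor
  · intro hf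
    have h1 := homog_sub_mem i f
    set h := homog i f.totalDegree f with hh
    have h2 : h - f ∈ Ideal.span {qpoly D, (MvPolynomial.X i - 1 : MvPolynomial (Fin n) ℤ)} :=
      Ideal.span_mono (by simp) h1
    have h3 := Affine.span_le_ker ξ hD0 i hi h2
    rw [map_sub, hf, sub_zero,
      Affine.aeval_div_of_isHomogeneous ξ i (isHomogeneous_homog i _ f)] at h3
    have h4 : MvPolynomial.aeval ξ h = 0 :=
      (mul_eq_zero.mp h3).resolve_left (pow_ne_zero _ (inv_ne_zero hi))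
    have h5 : h ∈ Ideal.span {qpoly D, (MvPolynomial.X i - 1 : MvPolynomial (Fin n) ℤ)} :=
      Ideal.span_mono (by simp) (Ideal.mem_span_singleton.mpr ((hξ h).mp h4))
    have h6 := Ideal.sub_mem _ h5 h2
    rwa [sub_sub_cancel] at h6
  · exact Affine.span_le_ker ξ hD0 i hi

namespace Affine

theorem cast_entry {n : ℕ} {m : ℤ} (P G : Matrix (Fin n) (Fin n) ℤ) {κ : Type} [Field κ]
    (hm0 : (m : κ) = 0) (a b : Fin n) : (((m • P + G) a b : ℤ) : κ) = (G a b : κ) := by
  have h1 : (m • P + G) a b = m * P a b + G a b := rfl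
  rw [h1, Int.cast_add, Int.cast_mul, hm0, zero_mul, zero_add]

/-- The local condition which makes the affine chart of an adapted form regular. -/
theorem local_condition {n : ℕ} {M : Matrix (Fin n) (Fin n) ℚ} (hM : M.det ≠ 0) {m : ℤ}
    {P G : Matrix (Fin n) (Fin n) ℤ} (hA : Adapted m P G) (hmin : IsMin M (m • P + G))
    (i : Fin n) (Q : Ideal (MvPolynomial (Fin n) ℤ)) [hQ : Q.IsPrime]
    (hF : qpoly (m • P + G) ∈ Q) (hX : (MvPolynomial.X i - 1 : MvPolynomial (Fin n) ℤ) ∈ Q)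
    (hmi : (MvPolynomial.C m : MvPolynomial (Fin n) ℤ) ∉ Q ∨ 2 ≤ (i : ℕ))
    (α β s : MvPolynomial (Fin n) ℤ) (hs : s ∉ Q)
    (h : s * (α * qpoly (m • P + G) + β * (MvPolynomial.X i - 1)) ∈ Q ^ 2) : α ∈ Q ∧ β ∈ Q := by
  classical
  set C := m • P + G with hC
  -- differentiate
  have hder : ∀ j, α * MvPolynomial.pderiv j (qpoly C) + β * MvPolynomial.pderiv j
      (MvPolynomial.X i - 1 : MvPolynomial (Fin n) ℤ) ∈ Q := by
    intro j
    have h1 := derivation_mem (MvPolynomial.pderiv j) Q h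
    simp only [Derivation.leibniz, map_add, smul_eq_mul] at h1
    have h2 : s * (α * MvPolynomial.pderiv j (qpoly C) + β * MvPolynomial.pderiv j
      (MvPolynomial.X i - 1 : MvPolynomial (Fin n) ℤ)) ∈ Q := by
      have h3 : s * (qpoly C * MvPolynomial.pderiv j α + (MvPolynomial.X i - 1) *
          MvPolynomial.pderiv j β) + (α * qpoly C + β * (MvPolynomial.X i - 1)) *
          MvPolynomial.pderiv j s ∈ Q := by
        refine Q.add_mem (Q.mul_mem_left _ (Q.add_mem (Q.mul_mem_right _ hF)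
          (Q.mul_mem_right _ hX))) (Q.mul_mem_right _ (Q.add_mem (Q.mul_mem_left _ hF)
          (Q.mul_mem_left _ hX)))
      have h4 := Q.sub_mem h1 h3
      convert h4 using 1
      ring
    exact (hQ.mem_or_mem h2).resolve_left hs
  have hpX : ∀ j, MvPolynomial.pderiv j (MvPolynomial.X i - 1 : MvPolynomial (Fin n) ℤ) =
      if i = j then 1 else 0 := by
    intro j
    rw [map_sub, MvPolynomial.pderiv_one, sub_zero, MvPolynomial.pderiv_X, Pi.single_apply]
  by_cases hα : α ∈ Q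
  · refine ⟨hα, ?_⟩
    have h1 := hder i
    rw [hpX, if_pos rfl, mul_one] at h1
    have h2 := Q.sub_mem h1 (Q.mul_mem_right (MvPolynomial.pderiv i (qpoly C)) hα)
    convert h2 using 1
    ring
  exfalso
  have hj : ∀ j, j ≠ i → MvPolynomial.pderiv j (qpoly C) ∈ Q := by
    intro j hji
    have h1 := hder j
    rw [hpX, if_neg hji.symm, mul_zero, add_zero] at h1
    exact (hQ.mem_or_mem h1).resolve_left hα
  have heuler : ∑ j, MvPolynomial.X j * MvPolynomial.pderiv j (qpoly C) = 2 * qpoly C :=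
    euler_qpoly C
  have hi : MvPolynomial.pderiv i (qpoly C) ∈ Q := by
    have h1 : MvPolynomial.X i * MvPolynomial.pderiv i (qpoly C) ∈ Q := by
      have h2 : ∑ j ∈ Finset.univ.erase i, MvPolynomial.X j * MvPolynomial.pderiv j (qpoly C) ∈ Q :=
        Q.sum_mem fun j hj' ↦ Q.mul_mem_left _ (hj j (Finset.ne_of_mem_erase hj'))
      have h3 := Q.sub_mem (Q.mul_mem_left 2 hF) h2
      rw [← heuler, ← Finset.add_sum_erase _ _ (Finset.mem_univ i)] at h3
      convert h3 using 1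
      ring
    have h4 := Q.sub_mem h1 (Q.mul_mem_right (MvPolynomial.pderiv i (qpoly C)) hX)
    convert h4 using 1
    ring
  have hall : ∀ j, MvPolynomial.pderiv j (qpoly C) ∈ Q := fun j ↦ by
    by_cases hji : j = i
    · rw [hji]; exact hi
    · exact hj j hji
  have hβ : β ∈ Q := by
    have h1 := hder i
    rw [hpX, if_pos rfl, mul_one] at h1
    have h2 := Q.sub_mem h1 (Q.mul_mem_left α hi)
    convert h2 using 1
    ring
  -- pass to the residue field
  let κ := FractionRing (MvPolynomial (Fin n) ℤ ⧸ Q)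
  let π : MvPolynomial (Fin n) ℤ →+* κ :=
    (algebraMap (MvPolynomial (Fin n) ℤ ⧸ Q) κ).comp (Ideal.Quotient.mk Q)
  have hπ : ∀ f, π f = 0 ↔ f ∈ Q := by
    intro f
    change algebraMap (MvPolynomial (Fin n) ℤ ⧸ Q) κ (Ideal.Quotient.mk Q f) = 0 ↔ _
    rw [map_eq_zero_iff _ (IsFractionRing.injective (MvPolynomial (Fin n) ℤ ⧸ Q) κ),
      Ideal.Quotient.eq_zero_iff_mem]
  let x : Fin n → κ := fun j ↦ π (MvPolynomial.X j)
  have hπe : ∀ f, π f = MvPolynomial.eval₂ (Int.castRingHom κ) x f := by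
    intro f
    have : π = MvPolynomial.eval₂Hom (Int.castRingHom κ) x :=
      MvPolynomial.ringHom_ext (fun r ↦ by simp) (fun j ↦ by simp [x])
    conv_lhs => rw [this]
    rfl
  have hπC : ∀ z : ℤ, π (MvPolynomial.C z) = (z : κ) := by
    intro z
    rw [hπe, MvPolynomial.eval₂_C]
    rfl
  have hxi : x i = 1 := by
    have := (hπ _).mpr hX
    rwa [map_sub, map_one, sub_eq_zero] at this
  have hGx : (C + Cᵀ).map (Int.castRingHom κ) *ᵥ x = 0 := by
    ext j
    have := (hπ _).mpr (hall j)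
    rw [pderiv_qpoly] at this
    rw [Pi.zero_apply, ← this]
    simp [Matrix.mulVec, dotProduct, x]
  have hqx : qf (C.map (Int.castRingHom κ)) x = 0 := by
    rw [← eval₂_qpoly, ← hπe]
    exact (hπ _).mpr hF
  have hdet : ((C + Cᵀ).det : κ) = 0 := by
    by_contra hne
    have h1 : ((C + Cᵀ).map (Int.castRingHom κ)).det ≠ 0 := by
      rwa [← RingHom.mapMatrix_apply, ← RingHom.map_det]
    have h2 := Matrix.eq_zero_of_mulVec_eq_zero h1 hGx
    rw [h2] at hxi
    exact zero_ne_one hxi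
  obtain ⟨p, hcp⟩ := CharP.exists κ
  have hp0 : p ≠ 0 := by
    rintro rfl
    have := (CharP.intCast_eq_zero_iff κ 0 _).mp hdet
    exact hmin.1.det_ne_zero hM (by simpa using this)
  have hpp : Fact p.Prime := ⟨(CharP.char_is_prime_or_zero κ p).resolve_right hp0⟩
  by_cases hpm : (p : ℤ) ∣ m
  · have hm0 : (m : κ) = 0 := (CharP.intCast_eq_zero_iff κ p m).mpr hpm
    have hi2 : 2 ≤ (i : ℕ) := by
      refine hmi.resolve_left fun hmQ ↦ hmQ ?_
      rw [← hπ, hπC, hm0]
    have hCab : ∀ a b, ((C a b : ℤ) : κ) = (G a b : κ) := cast_entry P G hm0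
    have hmapC : C.map (Int.castRingHom κ) = G.map (Int.cast : ℤ → κ) := by
      ext a b
      exact hCab a b
    have hmapCT : (C + Cᵀ).map (Int.castRingHom κ) = (G + Gᵀ).map (Int.cast : ℤ → κ) := by
      ext a b
      change (((C + Cᵀ) a b : ℤ) : κ) = (((G + Gᵀ) a b : ℤ) : κ)
      rw [Matrix.add_apply, Matrix.add_apply, Matrix.transpose_apply, Matrix.transpose_apply,
        Int.cast_add, Int.cast_add, hCab, hCab]
    have h1 := hA.eq_zero_of_singular hpp.out hpm x (hmapCT ▸ hGx) (hmapC ▸ hqx) i hi2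
    rw [hxi] at h1
    exact one_ne_zero h1
  have hrad : finrank (ZMod p) (radSub (redMat p C)) ≤ 1 := hA.good p hpm
  let _ : Algebra (ZMod p) κ := ZMod.algebra κ p
  have hcast : ∀ z : ℤ, algebraMap (ZMod p) κ (z : ZMod p) = (z : κ) := fun z ↦ map_intCast _ z
  have hmap : ∀ D : Matrix (Fin n) (Fin n) ℤ, (redMat p D).map (algebraMap (ZMod p) κ) =
      D.map (Int.castRingHom κ) := by
    intro D
    ext a b
    simp
  obtain ⟨w, hw, hxw⟩ := descend p (κ := κ) (redMat p C) hrad x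
    (by
      rw [← hGx, ← hmap]
      congr 2
      ext a b
      simp)
    (by rw [hmap]; exact hqx) i hxi
  obtain ⟨a, ha⟩ := red_surjective p w
  have hev : ∀ f, π f = ((MvPolynomial.eval a f : ℤ) : κ) := by
    intro f
    have : π = (Int.castRingHom κ).comp (MvPolynomial.eval a) :=
      MvPolynomial.ringHom_ext (fun r ↦ by simp) (fun j ↦ by
        have := hxw j
        rw [← ha, red_apply, hcast] at this
        simpa using this)
    conv_lhs => rw [this]
    rfl
  have hmem : ∀ f, f ∈ Q ↔ (p : ℤ) ∣ MvPolynomial.eval a f := by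
    intro f
    rw [← hπ, hev, CharP.intCast_eq_zero_iff κ p]
  have hmap2 : ∀ f ∈ Q ^ 2, (p : ℤ) ^ 2 ∣ MvPolynomial.eval a f := by
    intro f hf
    have h1 : Ideal.map (MvPolynomial.eval a) Q ≤ Ideal.span {(p : ℤ)} := by
      rw [Ideal.map_le_iff_le_comap]
      intro f hf
      rw [Ideal.mem_comap, Ideal.mem_span_singleton]
      exact (hmem f).mp hf
    have h2 := Ideal.mem_map_of_mem (MvPolynomial.eval a) hf
    rw [Ideal.map_pow] at h2
    have h3 := Ideal.pow_right_mono h1 2 h2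
    rw [Ideal.span_singleton_pow, Ideal.mem_span_singleton] at h3
    exact h3
  have hfin := hmap2 _ h
  simp only [map_mul, map_add, map_sub, map_one, MvPolynomial.eval_X, eval_qpoly] at hfin
  have hpI : Prime (p : ℤ) := Nat.prime_iff_prime_int.mp hpp.out
  have hs' : ¬ (p : ℤ) ∣ MvPolynomial.eval a s := fun hcon ↦ hs ((hmem s).mpr hcon)
  have hα' : ¬ (p : ℤ) ∣ MvPolynomial.eval a α := fun hcon ↦ hα ((hmem α).mpr hcon)
  have hβ' := (hmem β).mp hβ
  have hX' := (hmem _).mp hX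
  simp only [map_sub, map_one, MvPolynomial.eval_X] at hX'
  have h1 := hpI.pow_dvd_of_dvd_mul_left 2 hs' hfin
  have h2 : (p : ℤ) ^ 2 ∣ MvPolynomial.eval a β * (a i - 1) := by
    rw [pow_two]
    exact mul_dvd_mul hβ' hX'
  have h3 := (dvd_add_left h2).mp h1
  have h4 := hpI.pow_dvd_of_dvd_mul_left 2 hα' h3
  refine hmin.not_sq_dvd hM p a (ha ▸ hw) ?_ h4
  intro h0
  have := hxw i
  rw [← ha, h0, hxi] at this
  simp at this

end Affine

/-- The affine charts of the hypersurface are regular at the primes not containing `m`, and the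
charts `x_j ≠ 0`, `j ≥ 2`, are regular everywhere. -/
theorem isRegularLocalRing_affRing {n : ℕ} {M : Matrix (Fin n) (Fin n) ℚ} (hM : M.det ≠ 0) {m : ℤ}
    {P G : Matrix (Fin n) (Fin n) ℤ} (hA : Adapted m P G) (hmin : IsMin M (m • P + G))
    {K : Type} [Field K] [CharZero K] (ξ : Fin n → K)
    (hξ : ∀ f : MvPolynomial (Fin n) ℤ, MvPolynomial.aeval ξ f = 0 ↔ qpoly (m • P + G) ∣ f)
    (i : Fin n) (hi : ξ i ≠ 0) (Q : Ideal (affRing ξ i)) [Q.IsPrime]
    (h : (m : affRing ξ i) ∉ Q ∨ 2 ≤ (i : ℕ)) :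
    IsRegularLocalRing (Localization.AtPrime Q) := by
  classical
  let S := MvPolynomial (Fin n) ℤ
  let I : Ideal S := Ideal.span {qpoly (m • P + G), (MvPolynomial.X i - 1 : S)}
  let φ : S →+* affRing ξ i :=
    ((MvPolynomial.aeval (fun k ↦ ξ k / ξ i) : S →ₐ[ℤ] K).rangeRestrict : S →+* affRing ξ i)
  have hφv : ∀ f, ((φ f : affRing ξ i) : K) = MvPolynomial.aeval (fun k ↦ ξ k / ξ i) f :=
    fun _ ↦ rfl
  have hφs : Function.Surjective φ :=
    (MvPolynomial.aeval (fun k ↦ ξ k / ξ i) : S →ₐ[ℤ] K).rangeRestrict_surjective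
  have hker : RingHom.ker φ = I := by
    ext f
    rw [RingHom.mem_ker, ← aeval_affine_eq_zero_iff ξ hξ i hi f, ← hφv]
    exact (ZeroMemClass.coe_eq_zero).symm
  let e : (S ⧸ I) ≃+* affRing ξ i :=
    (Ideal.quotEquivOfEq hker.symm).trans (RingHom.quotientKerEquivOfSurjective hφs)
  have he : ∀ f : S, e (Ideal.Quotient.mk I f) = φ f := fun _ ↦ rfl
  let P' : Ideal (S ⧸ I) := Q.comap (e : (S ⧸ I) →+* affRing ξ i)
  have hP' : P'.IsPrime := Ideal.IsPrime.comap _
  have hmemP : ∀ f : S, f ∈ P'.comap (Ideal.Quotient.mk I) ↔ φ f ∈ Q := fun _ ↦ Iff.rfl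
  have hIφ : ∀ f ∈ I, φ f = 0 := fun f hf ↦ by rwa [← RingHom.mem_ker, hker]
  have hF : qpoly (m • P + G) ∈ P'.comap (Ideal.Quotient.mk I) := by
    rw [hmemP, hIφ _ (Ideal.subset_span (by simp))]
    exact Q.zero_mem
  have hX : (MvPolynomial.X i - 1 : S) ∈ P'.comap (Ideal.Quotient.mk I) := by
    rw [hmemP, hIφ _ (Ideal.subset_span (by simp))]
    exact Q.zero_mem
  have hmi : (MvPolynomial.C m : S) ∉ P'.comap (Ideal.Quotient.mk I) ∨ 2 ≤ (i : ℕ) := by
    refine h.imp_left fun hm hc ↦ hm ?_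
    rw [hmemP] at hc
    have : φ (MvPolynomial.C m) = (m : affRing ξ i) := by
      rw [← map_intCast φ m]
      rfl
    rwa [this] at hc
  have hreg : IsRegularLocalRing (Localization.AtPrime P') :=
    isRegularLocalRing_atPrime_quotient _ _ I rfl P' _ rfl
      (fun α β s hs h' ↦ Affine.local_condition hM hA hmin i _ hF hX hmi α β s hs h')
  have hmon : P'.primeCompl.map (e.toMonoidHom : (S ⧸ I) →* affRing ξ i) = Q.primeCompl := by
    ext y
    constructor
    · rintro ⟨x, hx, rfl⟩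
      exact hx
    · intro hy
      refine ⟨e.symm y, ?_, e.apply_symm_apply y⟩
      intro hc
      apply hy
      have h1 : e (e.symm y) ∈ Q := hc
      rwa [e.apply_symm_apply] at h1
  have e2 : Localization.AtPrime P' ≃+* Localization.AtPrime Q :=
    IsLocalization.ringEquivOfRingEquiv (M := P'.primeCompl) (T := Q.primeCompl)
      (Localization.AtPrime P') (Localization.AtPrime Q) e hmon
  exact @IsRegularLocalRing.of_ringEquiv (Localization.AtPrime P') _ hreg
    (Localization.AtPrime Q) _ e2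

end Pool.Agent.QuadAll
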