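import Mathlib
import Pool.Agent.QuadAll.Defs

set_option autoImplicit false

/-!
# All quadrics: the rings generated by the degree zero fractions are the chart rings
-/

namespace Pool.Agent.QuadAll

open Matrix Module Pool.Agent.QuadModel

namespace ChartRange

variable {n : ℕ} {K : Type} [Field K]

theorem qf_smul_div (P : Matrix (Fin n) (Fin n) ℤ) (ξ : Fin n → K) (x : K) (hx : x ≠ 0) :
    qf (P.map (Int.cast : ℤ → K)) ξ =
      x ^ 2 * qf (P.map (Int.cast : ℤ → K)) (fun k ↦ ξ k / x) := by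
  simp only [qf, dotProduct, mulVec, Matrix.map_apply, Finset.mul_sum]
  refine Finset.sum_congr rfl fun i _ ↦ Finset.sum_congr rfl fun j _ ↦ ?_
  field_simp

theorem gen_smul_div (m : ℤ) (P : Matrix (Fin n) (Fin n) ℤ) (ξ : Fin n → K) (x : K) (hx : x ≠ 0)
    (s : Gen n) : gen m P ξ s = x ^ 3 * gen m P (fun k ↦ ξ k / x) s := by
  rcases s with ⟨a, b, c⟩ | k | ⟨j, a, b⟩
  · simp only [gen, Sum.elim_inl]
    field_simp
  · simp only [gen, Sum.elim_inl, Sum.elim_inr]
    rw [qf_smul_div P ξ x hx]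
    field_simp
  · simp only [gen, Sum.elim_inr]
    field_simp

theorem qf_mem (A : Subalgebra ℤ K) (P : Matrix (Fin n) (Fin n) ℤ) (η : Fin n → K)
    (hη : ∀ k, η k ∈ A) : qf (P.map (Int.cast : ℤ → K)) η ∈ A := by
  simp only [qf, dotProduct, mulVec, Matrix.map_apply]
  exact sum_mem fun i _ ↦ mul_mem (hη i) (sum_mem fun j _ ↦ mul_mem (intCast_mem A _) (hη j))

theorem pt_lt (m : ℤ) (P : Matrix (Fin n) (Fin n) ℤ) (η : Fin n → K) (ε : K) (k : Fin n)
    (hk : (k : ℕ) < 2) : pt m P η ε (Sum.inl k) = η k := by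
  simp only [pt, Sum.elim_inl, hk, if_true]

theorem pt_ge (m : ℤ) (P : Matrix (Fin n) (Fin n) ℤ) (η : Fin n → K) (ε : K) (k : Fin n)
    (hk : 2 ≤ (k : ℕ)) : pt m P η ε (Sum.inl k) = η k / ε := by
  simp only [pt, Sum.elim_inl, not_lt.2 hk, if_false]

theorem adjoin_eq_chartRing (m : ℤ) (P : Matrix (Fin n) (Fin n) ℤ) (η : Fin n → K) (i : Fin n)
    (hi : η i = 1) (ε : K) (hε : ε ≠ 0)
    (hηA : ∀ k, η k ∈ Algebra.adjoin ℤ (Set.range fun s : Gen n ↦ gen m P η s / ε))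
    (hεA : ε ∈ Algebra.adjoin ℤ (Set.range fun s : Gen n ↦ gen m P η s / ε)) :
    Algebra.adjoin ℤ (Set.range fun s : Gen n ↦ gen m P η s / ε) = chartRing m P η ε := by
  have hr : chartRing m P η ε = Algebra.adjoin ℤ (Set.range (pt m P η ε)) := by
    rw [Algebra.adjoin_range_eq_range_aeval]
  rw [hr]
  apply le_antisymm
  · have hpt : ∀ w, pt m P η ε w ∈ Algebra.adjoin ℤ (Set.range (pt m P η ε)) := fun w ↦
      Algebra.subset_adjoin ⟨w, rfl⟩
    set C := Algebra.adjoin ℤ (Set.range (pt m P η ε))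
    have hε' : ε ∈ C := by simpa [pt] using hpt (Sum.inr 0)
    have hM : (m : K) / ε ∈ C := by simpa [pt] using hpt (Sum.inr 1)
    have hB : qf (P.map (Int.cast : ℤ → K)) η / ε ∈ C := by simpa [pt] using hpt (Sum.inr 2)
    have hY : ∀ k : Fin n, 2 ≤ (k : ℕ) → η k / ε ∈ C := by
      intro k hk
      have := hpt (Sum.inl k)
      rwa [pt_ge m P η ε k hk] at this
    have hη : ∀ k, η k ∈ C := by
      intro k
      by_cases hk : (k : ℕ) < 2
      · have := hpt (Sum.inl k)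
        rwa [pt_lt m P η ε k hk] at this
      · have := mul_mem hε' (hY k (not_lt.1 hk))
        rwa [mul_div_cancel₀ _ hε] at this
    rw [Algebra.adjoin_le_iff]
    rintro _ ⟨s, rfl⟩
    rcases s with ⟨a, b, c⟩ | k | ⟨j, a, b⟩
    · have := mul_mem (mul_mem (mul_mem hM (hη a)) (hη b)) (hη c)
      simp only [gen, Sum.elim_inl, SetLike.mem_coe]
      convert this using 1
      ring
    · have := mul_mem hB (hη k)
      simp only [gen, Sum.elim_inl, Sum.elim_inr, SetLike.mem_coe]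
      convert this using 1
      ring
    · have := mul_mem (mul_mem (hY j.1 j.2) (hη a)) (hη b)
      simp only [gen, Sum.elim_inr, SetLike.mem_coe]
      convert this using 1
      ring
  · have hg : ∀ s, gen m P η s / ε ∈ Algebra.adjoin ℤ
        (Set.range fun s : Gen n ↦ gen m P η s / ε) := fun s ↦ Algebra.subset_adjoin ⟨s, rfl⟩
    rw [Algebra.adjoin_le_iff]
    rintro _ ⟨w, rfl⟩
    rcases w with k | t
    · by_cases hk : (k : ℕ) < 2
      · rw [pt_lt m P η ε k hk]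
        exact hηA k
      · rw [pt_ge m P η ε k (not_lt.1 hk)]
        have := hg (Sum.inr (Sum.inr (⟨k, not_lt.1 hk⟩, i, i)))
        simpa [gen, hi] using this
    · fin_cases t
      · simpa [pt] using hεA
      · have := hg (Sum.inl (i, i, i))
        simpa [pt, gen, hi] using this
      · have := hg (Sum.inr (Sum.inl i))
        simpa [pt, gen, hi] using this

theorem adjoin_eq_affRing (m : ℤ) (P : Matrix (Fin n) (Fin n) ℤ) (ζ : Fin n → K) (j : Fin n)
    (hj : ζ j = 1) (hj2 : 2 ≤ (j : ℕ)) :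
    Algebra.adjoin ℤ (Set.range fun s : Gen n ↦ gen m P ζ s) =
      Algebra.adjoin ℤ (Set.range ζ) := by
  apply le_antisymm
  · rw [Algebra.adjoin_le_iff]
    have hζ : ∀ k, ζ k ∈ Algebra.adjoin ℤ (Set.range ζ) := fun k ↦
      Algebra.subset_adjoin ⟨k, rfl⟩
    rintro _ ⟨s, rfl⟩
    rcases s with ⟨a, b, c⟩ | k | ⟨l, a, b⟩
    · exact mul_mem (mul_mem (mul_mem (intCast_mem _ _) (hζ a)) (hζ b)) (hζ c)
    · exact mul_mem (qf_mem _ P ζ hζ) (hζ k)
    · exact mul_mem (mul_mem (hζ _) (hζ a)) (hζ b)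
  · rw [Algebra.adjoin_le_iff]
    rintro _ ⟨k, rfl⟩
    have : gen m P ζ (Sum.inr (Sum.inr (⟨j, hj2⟩, k, j))) ∈ Algebra.adjoin ℤ
        (Set.range fun s : Gen n ↦ gen m P ζ s) := Algebra.subset_adjoin ⟨_, rfl⟩
    simpa [gen, hj] using this

end ChartRange

open ChartRange

/-- The ring generated by the fractions `gen s / gen (chartGen c)` is regular, for each of the
charts; this only identifies the rings: for `c` of the first three kinds it is `chartRing` with
`ε = m`, `P(η)`, `η_j`, for the last kind it is `affRing ξ j`. -/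
theorem isRegularRing_adjoin_gen {n : ℕ} {m : ℤ} {P : Matrix (Fin n) (Fin n) ℤ}
    {K : Type} [Field K] (ξ : Fin n → K)
    (hgen : ∀ c : Idx n, gen m P ξ (chartGen c) ≠ 0)
    (hchart : ∀ (i : Fin n), (i : ℕ) < 2 → ∀ (w : Var n),
      (w = Sum.inr 1 ∨ w = Sum.inr 2 ∨ ∃ j : Fin n, 2 ≤ (j : ℕ) ∧ w = Sum.inl j) →
      ∀ ε : K, ε ≠ 0 → pt m P (fun k ↦ ξ k / ξ i) ε w = 1 →
        IsRegularRing (chartRing m P (fun k ↦ ξ k / ξ i) ε))
    (haff : ∀ j : Fin n, 2 ≤ (j : ℕ) → IsRegularRing (affRing ξ j)) (c : Idx n) :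
    IsRegularRing (Algebra.adjoin ℤ
      (Set.range fun s : Gen n ↦ gen m P ξ s / gen m P ξ (chartGen c))) := by
  have hc := hgen c
  rcases c with (i | i) | (⟨j, i⟩ | j)
  · -- `ε = m`
    have hc' : (m : K) * ξ i.1 * ξ i.1 * ξ i.1 ≠ 0 := hc
    have hm : (m : K) ≠ 0 := by
      intro h; exact hc' (by simp [h])
    have hξ : ξ i.1 ≠ 0 := by
      intro h; exact hc' (by simp [h])
    have hfr : (fun s : Gen n ↦ gen m P ξ s / gen m P ξ (chartGen (Sum.inl (Sum.inl i)))) =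
        fun s ↦ gen m P (fun k ↦ ξ k / ξ i.1) s / (m : K) := by
      funext s
      have : gen m P ξ (chartGen (Sum.inl (Sum.inl i))) = ξ i.1 ^ 3 * (m : K) := by
        simp only [chartGen, gen, Sum.elim_inl]; ring
      rw [this, gen_smul_div m P ξ (ξ i.1) hξ s]
      field_simp
    rw [hfr]
    have hi : (fun k ↦ ξ k / ξ i.1) i.1 = (1 : K) := div_self hξ
    rw [adjoin_eq_chartRing m P _ i.1 hi (m : K) hm]
    · exact hchart i.1 i.2 (Sum.inr 1) (Or.inl rfl) (m : K) hm (by simp [pt, hm])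
    · intro k
      have : gen m P (fun k ↦ ξ k / ξ i.1) (Sum.inl (k, i.1, i.1)) / (m : K) ∈ Algebra.adjoin ℤ
        (Set.range fun s : Gen n ↦ gen m P (fun k ↦ ξ k / ξ i.1) s / (m : K)) :=
        Algebra.subset_adjoin ⟨_, rfl⟩
      simpa [gen, div_self hξ, mul_div_assoc, hm] using this
    · exact intCast_mem _ _
  · -- `ε = P(η)`
    have hc' : qf (P.map (Int.cast : ℤ → K)) ξ * ξ i.1 ≠ 0 := hc
    have hξ : ξ i.1 ≠ 0 := right_ne_zero_of_mul hc'
    have hP : qf (P.map (Int.cast : ℤ → K)) ξ ≠ 0 := left_ne_zero_of_mul hc'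
    have hPη : qf (P.map (Int.cast : ℤ → K)) (fun k ↦ ξ k / ξ i.1) ≠ 0 := by
      rw [qf_smul_div P ξ (ξ i.1) hξ] at hP
      exact right_ne_zero_of_mul hP
    have hfr : (fun s : Gen n ↦ gen m P ξ s / gen m P ξ (chartGen (Sum.inl (Sum.inr i)))) =
        fun s ↦ gen m P (fun k ↦ ξ k / ξ i.1) s /
          qf (P.map (Int.cast : ℤ → K)) (fun k ↦ ξ k / ξ i.1) := by
      funext s
      have : gen m P ξ (chartGen (Sum.inl (Sum.inr i))) =
          ξ i.1 ^ 3 * qf (P.map (Int.cast : ℤ → K)) (fun k ↦ ξ k / ξ i.1) := by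
        simp only [chartGen, gen, Sum.elim_inl, Sum.elim_inr]
        rw [qf_smul_div P ξ (ξ i.1) hξ]
        ring
      rw [this, gen_smul_div m P ξ (ξ i.1) hξ s]
      rw [mul_div_mul_left _ _ (pow_ne_zero 3 hξ)]
    rw [hfr]
    have hi : (fun k ↦ ξ k / ξ i.1) i.1 = (1 : K) := div_self hξ
    set η : Fin n → K := fun k ↦ ξ k / ξ i.1 with hη
    have hηA : ∀ k, η k ∈ Algebra.adjoin ℤ
        (Set.range fun s : Gen n ↦ gen m P η s / qf (P.map (Int.cast : ℤ → K)) η) := by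
      intro k
      have : gen m P η (Sum.inr (Sum.inl k)) / qf (P.map (Int.cast : ℤ → K)) η ∈
        Algebra.adjoin ℤ
        (Set.range fun s : Gen n ↦ gen m P η s / qf (P.map (Int.cast : ℤ → K)) η) :=
        Algebra.subset_adjoin ⟨_, rfl⟩
      simpa [gen, hPη] using this
    rw [adjoin_eq_chartRing m P η i.1 hi _ hPη hηA (qf_mem _ P η hηA)]
    exact hchart i.1 i.2 (Sum.inr 2) (Or.inr (Or.inl rfl)) _ hPη (by simp [pt, ← hη, hPη])
  · -- `ε = η_j`
    have hc' : ξ j.1 * ξ i.1 * ξ i.1 ≠ 0 := hc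
    have hξ : ξ i.1 ≠ 0 := right_ne_zero_of_mul hc'
    have hξj : ξ j.1 ≠ 0 := left_ne_zero_of_mul (left_ne_zero_of_mul hc')
    have hηj : ξ j.1 / ξ i.1 ≠ 0 := div_ne_zero hξj hξ
    have hfr : (fun s : Gen n ↦ gen m P ξ s / gen m P ξ (chartGen (Sum.inr (Sum.inl (j, i))))) =
        fun s ↦ gen m P (fun k ↦ ξ k / ξ i.1) s / (ξ j.1 / ξ i.1) := by
      funext s
      have : gen m P ξ (chartGen (Sum.inr (Sum.inl (j, i)))) =
          ξ i.1 ^ 3 * (ξ j.1 / ξ i.1) := by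
        simp only [chartGen, gen, Sum.elim_inr]
        field_simp
      rw [this, gen_smul_div m P ξ (ξ i.1) hξ s]
      rw [mul_div_mul_left _ _ (pow_ne_zero 3 hξ)]
    rw [hfr]
    have hi : (fun k ↦ ξ k / ξ i.1) i.1 = (1 : K) := div_self hξ
    set η : Fin n → K := fun k ↦ ξ k / ξ i.1 with hη
    have hηA : ∀ k, η k ∈ Algebra.adjoin ℤ
        (Set.range fun s : Gen n ↦ gen m P η s / (ξ j.1 / ξ i.1)) := by
      intro k
      have : gen m P η (Sum.inr (Sum.inr (j, k, i.1))) / (ξ j.1 / ξ i.1) ∈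
        Algebra.adjoin ℤ (Set.range fun s : Gen n ↦ gen m P η s / (ξ j.1 / ξ i.1)) :=
        Algebra.subset_adjoin ⟨_, rfl⟩
      have h2 : gen m P η (Sum.inr (Sum.inr (j, k, i.1))) / (ξ j.1 / ξ i.1) = η k := by
        simp only [gen, Sum.elim_inr, hη]
        rw [div_self hξ, mul_one, mul_div_assoc, mul_comm, div_mul_cancel₀ _ hηj]
      rwa [h2] at this
    rw [adjoin_eq_chartRing m P η i.1 hi _ hηj hηA (hηA j.1)]
    refine hchart i.1 i.2 (Sum.inl j.1) (Or.inr (Or.inr ⟨j.1, j.2, rfl⟩)) _ hηj ?_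
    simp only [pt, Sum.elim_inl, not_lt.2 j.2, if_false]
    exact div_self hηj
  · -- affine chart
    have hc' : ξ j.1 * ξ j.1 * ξ j.1 ≠ 0 := hc
    have hξ : ξ j.1 ≠ 0 := right_ne_zero_of_mul hc'
    have hfr : (fun s : Gen n ↦ gen m P ξ s / gen m P ξ (chartGen (Sum.inr (Sum.inr j)))) =
        fun s ↦ gen m P (fun k ↦ ξ k / ξ j.1) s := by
      funext s
      have : gen m P ξ (chartGen (Sum.inr (Sum.inr j))) = ξ j.1 ^ 3 := by
        simp only [chartGen, gen, Sum.elim_inr]; ring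
      rw [this, gen_smul_div m P ξ (ξ j.1) hξ s]
      rw [mul_div_cancel_left₀ _ (pow_ne_zero 3 hξ)]
    rw [hfr, adjoin_eq_affRing m P (fun k ↦ ξ k / ξ j.1) j.1 (div_self hξ) j.2]
    have h := haff j.1 j.2
    rw [affRing, ← Algebra.adjoin_range_eq_range_aeval] at h
    exact h

end Pool.Agent.QuadAll
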