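import Mathlib
import Pool.Agent.QuadAll.Defs
import Pool.Agent.QuadAll.PNotSq
import Pool.Agent.QuadAll.Kappa

set_option autoImplicit false

/-!
# Independence of the relations of a chart at the primes over `p ∣ m`
-/

namespace Pool.Agent.QuadAll

open Matrix Module Pool.Agent.QuadModel

namespace Indep

variable {n : ℕ}

/-- The derivative of a quadratic form. -/
theorem derivation_qf {A R : Type*} [CommRing A] [CommRing R] [Algebra A R]
    (D : Derivation A R R) (C : Matrix (Fin n) (Fin n) R) (hC : ∀ i j, D (C i j) = 0)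
    (v : Fin n → R) : D (qf C v) = ∑ k, D (v k) * ((C + Cᵀ) *ᵥ v) k := by
  have h1 : qf C v = ∑ i, ∑ j, v i * (C i j * v j) := by
    unfold qf
    simp only [dotProduct, Matrix.mulVec, Finset.mul_sum]
  have h2 : ∑ k, D (v k) * ((C + Cᵀ) *ᵥ v) k =
      (∑ i, ∑ j, D (v i) * (C i j * v j)) + ∑ i, ∑ j, D (v i) * (C j i * v j) := by
    rw [← Finset.sum_add_distrib]
    refine Finset.sum_congr rfl fun i _ ↦ ?_
    rw [Matrix.mulVec, dotProduct, Finset.mul_sum, ← Finset.sum_add_distrib]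
    refine Finset.sum_congr rfl fun j _ ↦ ?_
    rw [Matrix.add_apply, Matrix.transpose_apply]
    ring
  rw [h1, h2, Finset.sum_comm (f := fun i j ↦ D (v i) * (C j i * v j)), ← Finset.sum_add_distrib,
    map_sum]
  refine Finset.sum_congr rfl fun i _ ↦ ?_
  rw [map_sum, ← Finset.sum_add_distrib]
  refine Finset.sum_congr rfl fun j _ ↦ ?_
  rw [D.leibniz, D.leibniz, hC]
  simp only [smul_eq_mul]
  ring

/-- The value of `((C + Cᵀ).map C) *ᵥ v` under a ring homomorphism. -/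
theorem map_gram {R κ : Type*} [CommRing R] [CommRing κ] (φ : R →+* κ)
    (ψ : ℤ →+* R) (P : Matrix (Fin n) (Fin n) ℤ) (v : Fin n → R) (k : Fin n) :
    φ ((((P.map ψ) + (P.map ψ)ᵀ) *ᵥ v) k) =
      (((P + Pᵀ).map (Int.cast : ℤ → κ)) *ᵥ (fun j ↦ φ (v j))) k := by
  simp only [Matrix.mulVec, dotProduct, Matrix.add_apply, Matrix.transpose_apply, Matrix.map_apply,
    map_sum, map_mul, map_add]
  refine Finset.sum_congr rfl fun j _ ↦ ?_
  congr 1
  have h : ∀ z : ℤ, φ (ψ z) = (z : κ) := fun z ↦ by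
    rw [← RingHom.comp_apply]
    exact eq_intCast (φ.comp ψ) z
  rw [h, h, Int.cast_add]

theorem map_qf_int {R κ : Type*} [CommRing R] [CommRing κ] (φ : R →+* κ)
    (ψ : ℤ →+* R) (P : Matrix (Fin n) (Fin n) ℤ) (v : Fin n → R) :
    φ (qf (P.map ψ) v) = qf (P.map (Int.cast : ℤ → κ)) (fun j ↦ φ (v j)) := by
  rw [← qf_map φ (P.map ψ) v]
  congr 1
  ext i j
  simp only [Matrix.map_apply]
  rw [← RingHom.comp_apply]
  exact eq_intCast (φ.comp ψ) _



/-- The value of the derivative of the relations at a point. -/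
theorem key {m : ℤ} {P G : Matrix (Fin n) (Fin n) ℤ} (i : Fin n) (w : Var n)
    (Q : Ideal (TT n)) {κ : Type} [Field κ] (φ : TT n →+* κ) (hker : ∀ x ∈ Q, φ x = 0)
    (hrel : ∀ t, rel m P G i w t ∈ Q) (a : Fin 5 → TT n)
    (ha : ∑ t, a t * rel m P G i w t ∈ Q ^ 2) (dX : Var n → TT n) :
    φ (a 0) * (φ (dX (Sum.inr 0)) * φ (MvPolynomial.X (Sum.inr 1)) +
      φ (MvPolynomial.X (Sum.inr 0)) * φ (dX (Sum.inr 1))) +
    φ (a 1) * (φ (dX (Sum.inr 0)) * φ (MvPolynomial.X (Sum.inr 2)) +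
      φ (MvPolynomial.X (Sum.inr 0)) * φ (dX (Sum.inr 2)) -
        ∑ k : Fin n, (if (k : ℕ) < 2 then φ (dX (Sum.inl k))
          else φ (dX (Sum.inr 0)) * φ (yv n k) +
            φ (MvPolynomial.X (Sum.inr 0)) * φ (dX (Sum.inl k))) *
            (((P + Pᵀ).map (Int.cast : ℤ → κ)) *ᵥ fun j ↦ φ (xv n j)) k) +
    φ (a 2) * (φ (dX (Sum.inr 1)) * φ (MvPolynomial.X (Sum.inr 2)) +
      φ (MvPolynomial.X (Sum.inr 1)) * φ (dX (Sum.inr 2)) +
        ∑ k : Fin n, φ (dX (Sum.inl k)) *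
          (((G + Gᵀ).map (Int.cast : ℤ → κ)) *ᵥ fun j ↦ φ (yv n j)) k) +
    φ (a 3) * φ (dX (Sum.inl i)) + φ (a 4) * φ (dX w) = 0 := by
  let D : Derivation ℤ (TT n) (TT n) := MvPolynomial.mkDerivation ℤ dX
  have hDX : ∀ u, D (MvPolynomial.X u) = dX u := fun u ↦ MvPolynomial.mkDerivation_X _ _ _
  have hDC : ∀ z : ℤ, D (MvPolynomial.C z) = 0 := fun z ↦ D.map_algebraMap z
  have h1 := hker _ (derivation_mem D Q ha)
  rw [map_sum, map_sum, Fin.sum_univ_five] at h1
  have hterm : ∀ s, φ (D (a s * rel m P G i w s)) = φ (a s) * φ (D (rel m P G i w s)) := by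
    intro s
    rw [D.leibniz]
    simp only [smul_eq_mul, map_add, map_mul]
    rw [hker _ (hrel s), zero_mul, add_zero]
  rw [hterm, hterm, hterm, hterm, hterm] at h1
  have e0 : φ (D (rel m P G i w 0)) = φ (dX (Sum.inr 0)) * φ (MvPolynomial.X (Sum.inr 1)) +
      φ (MvPolynomial.X (Sum.inr 0)) * φ (dX (Sum.inr 1)) := by
    have h2 : rel m P G i w 0 = MvPolynomial.X (Sum.inr 0) * MvPolynomial.X (Sum.inr 1) -
      MvPolynomial.C m := rfl
    rw [h2, map_sub, D.leibniz, hDC, hDX, hDX, sub_zero]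
    simp only [smul_eq_mul, map_add, map_mul]
    ring
  have e1 : φ (D (rel m P G i w 1)) = φ (dX (Sum.inr 0)) * φ (MvPolynomial.X (Sum.inr 2)) +
      φ (MvPolynomial.X (Sum.inr 0)) * φ (dX (Sum.inr 2)) -
        ∑ k : Fin n, (if (k : ℕ) < 2 then φ (dX (Sum.inl k))
          else φ (dX (Sum.inr 0)) * φ (yv n k) +
            φ (MvPolynomial.X (Sum.inr 0)) * φ (dX (Sum.inl k))) *
            (((P + Pᵀ).map (Int.cast : ℤ → κ)) *ᵥ fun j ↦ φ (xv n j)) k := by
    have h2 : rel m P G i w 1 = MvPolynomial.X (Sum.inr 0) * MvPolynomial.X (Sum.inr 2) -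
      qf (P.map MvPolynomial.C) (xv n) := rfl
    rw [h2, map_sub, D.leibniz, hDX, hDX,
      derivation_qf D (P.map MvPolynomial.C) (fun _ _ ↦ hDC _)]
    simp only [smul_eq_mul, map_sub, map_add, map_mul, map_sum]
    congr 1
    · ring
    · refine Finset.sum_congr rfl fun k _ ↦ ?_
      rw [map_gram φ MvPolynomial.C]
      congr 1
      unfold xv
      split_ifs with hk
      · exact congrArg φ (hDX _)
      · rw [D.leibniz]
        simp only [smul_eq_mul, map_add, map_mul]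
        rw [hDX, hDX]
        have h5 : φ (MvPolynomial.X (Sum.inl k)) = φ (yv n k) := rfl
        rw [h5]
        ring
  have e2 : φ (D (rel m P G i w 2)) = φ (dX (Sum.inr 1)) * φ (MvPolynomial.X (Sum.inr 2)) +
      φ (MvPolynomial.X (Sum.inr 1)) * φ (dX (Sum.inr 2)) +
        ∑ k : Fin n, φ (dX (Sum.inl k)) *
          (((G + Gᵀ).map (Int.cast : ℤ → κ)) *ᵥ fun j ↦ φ (yv n j)) k := by
    have h2 : rel m P G i w 2 = MvPolynomial.X (Sum.inr 1) * MvPolynomial.X (Sum.inr 2) +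
      qf (G.map MvPolynomial.C) (yv n) := rfl
    rw [h2, map_add, D.leibniz, hDX, hDX,
      derivation_qf D (G.map MvPolynomial.C) (fun _ _ ↦ hDC _)]
    simp only [smul_eq_mul, map_add, map_mul, map_sum]
    congr 1
    · ring
    · refine Finset.sum_congr rfl fun k _ ↦ ?_
      rw [map_gram φ MvPolynomial.C]
      congr 1
      exact congrArg φ (hDX _)
  have e3 : φ (D (rel m P G i w 3)) = φ (dX (Sum.inl i)) := by
    have h2 : rel m P G i w 3 = MvPolynomial.X (Sum.inl i) - 1 := rfl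
    rw [h2, map_sub, hDX, D.map_one_eq_zero, sub_zero]
  have e4 : φ (D (rel m P G i w 4)) = φ (dX w) := by
    have h2 : rel m P G i w 4 = MvPolynomial.X w - 1 := rfl
    rw [h2, map_sub, hDX, D.map_one_eq_zero, sub_zero]
  rw [e0, e1, e2, e3, e4] at h1
  exact h1


theorem gramG_eq_zero {G : Matrix (Fin n) (Fin n) ℤ}
    (hG : ∀ i j : Fin n, (i : ℕ) < 2 ∨ (j : ℕ) < 2 → G i j = 0) {κ : Type} [Field κ]
    (y : Fin n → κ) (k : Fin n) (hk : (k : ℕ) < 2) :
    (((G + Gᵀ).map (Int.cast : ℤ → κ)) *ᵥ y) k = 0 := by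
  rw [Matrix.mulVec, dotProduct]
  refine Finset.sum_eq_zero fun j _ ↦ ?_
  rw [Matrix.map_apply, Matrix.add_apply, Matrix.transpose_apply, hG k j (Or.inl hk),
    hG j k (Or.inr hk)]
  simp

theorem two_qf {κ : Type} [Field κ] (C : Matrix (Fin n) (Fin n) ℤ) (v : Fin n → κ) :
    ∑ k, v k * (((C + Cᵀ).map (Int.cast : ℤ → κ)) *ᵥ v) k =
      2 * qf (C.map (Int.cast : ℤ → κ)) v := by
  have h1 : (C + Cᵀ).map (Int.cast : ℤ → κ) = C.map (Int.cast : ℤ → κ) +
      (C.map (Int.cast : ℤ → κ))ᵀ := by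
    ext i j
    simp
  rw [h1, two_mul_qf]
  rfl

section Point

variable {m : ℤ} {P G : Matrix (Fin n) (Fin n) ℤ} (i : Fin n) (w : Var n)
    (Q : Ideal (TT n)) {κ : Type} [Field κ] (φ : TT n →+* κ) (hker : ∀ x ∈ Q, φ x = 0)
    (hrel : ∀ t, rel m P G i w t ∈ Q)

include hker hrel

theorem pt_two : φ (MvPolynomial.X (Sum.inr 1)) * φ (MvPolynomial.X (Sum.inr 2)) +
      qf (G.map (Int.cast : ℤ → κ)) (fun j ↦ φ (yv n j)) = 0 := by
  have h1 := hker _ (hrel 2)
  have h2 : rel m P G i w 2 = MvPolynomial.X (Sum.inr 1) * MvPolynomial.X (Sum.inr 2) +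
    qf (G.map MvPolynomial.C) (yv n) := rfl
  rw [h2, map_add, map_mul, map_qf_int φ MvPolynomial.C] at h1
  exact h1

theorem pt_one : φ (MvPolynomial.X (Sum.inr 0)) * φ (MvPolynomial.X (Sum.inr 2)) =
      qf (P.map (Int.cast : ℤ → κ)) (fun j ↦ φ (xv n j)) := by
  have h1 := hker _ (hrel 1)
  have h2 : rel m P G i w 1 = MvPolynomial.X (Sum.inr 0) * MvPolynomial.X (Sum.inr 2) -
    qf (P.map MvPolynomial.C) (xv n) := rfl
  rw [h2, map_sub, map_mul, map_qf_int φ MvPolynomial.C, sub_eq_zero] at h1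
  exact h1

theorem pt_three : φ (MvPolynomial.X (Sum.inl i)) = 1 := by
  have h1 := hker _ (hrel 3)
  have h2 : rel m P G i w 3 = MvPolynomial.X (Sum.inl i) - 1 := rfl
  rw [h2, map_sub, map_one, sub_eq_zero] at h1
  exact h1

theorem pt_four : φ (MvPolynomial.X w) = 1 := by
  have h1 := hker _ (hrel 4)
  have h2 : rel m P G i w 4 = MvPolynomial.X w - 1 := rfl
  rw [h2, map_sub, map_one, sub_eq_zero] at h1
  exact h1

theorem pt_zero : φ (MvPolynomial.X (Sum.inr 0)) * φ (MvPolynomial.X (Sum.inr 1)) =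
    φ (MvPolynomial.C m) := by
  have h1 := hker _ (hrel 0)
  have h2 : rel m P G i w 0 = MvPolynomial.X (Sum.inr 0) * MvPolynomial.X (Sum.inr 1) -
    MvPolynomial.C m := rfl
  rw [h2, map_sub, map_mul, sub_eq_zero] at h1
  exact h1

variable (a : Fin 5 → TT n) (ha : ∑ t, a t * rel m P G i w t ∈ Q ^ 2)

include ha

theorem euler_one (hi : (i : ℕ) < 2)
    (hw : w = Sum.inr 1 ∨ w = Sum.inr 2 ∨ ∃ j : Fin n, 2 ≤ (j : ℕ) ∧ w = Sum.inl j)
    (hG : ∀ i j : Fin n, (i : ℕ) < 2 ∨ (j : ℕ) < 2 → G i j = 0) : φ (a 4) = 0 := by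
  classical
  let dX : Var n → TT n := Sum.elim
    (fun k : Fin n ↦ if (k : ℕ) < 2 then 0 else MvPolynomial.X (Sum.inl k))
    ![-MvPolynomial.X (Sum.inr 0), MvPolynomial.X (Sum.inr 1), MvPolynomial.X (Sum.inr 2)]
  have hk := key i w Q φ hker hrel a ha dX
  have d0 : dX (Sum.inr 0) = -MvPolynomial.X (Sum.inr 0) := rfl
  have d1 : dX (Sum.inr 1) = MvPolynomial.X (Sum.inr 1) := rfl
  have d2 : dX (Sum.inr 2) = MvPolynomial.X (Sum.inr 2) := rfl
  have di : dX (Sum.inl i) = 0 := if_pos hi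
  have dw : dX w = MvPolynomial.X w := by
    rcases hw with rfl | rfl | ⟨j, hj, rfl⟩
    · rfl
    · rfl
    · exact if_neg (by omega)
  have s1 : ∑ k : Fin n, (if (k : ℕ) < 2 then φ (dX (Sum.inl k))
          else φ (dX (Sum.inr 0)) * φ (yv n k) +
            φ (MvPolynomial.X (Sum.inr 0)) * φ (dX (Sum.inl k))) *
            (((P + Pᵀ).map (Int.cast : ℤ → κ)) *ᵥ fun j ↦ φ (xv n j)) k = 0 := by
    refine Finset.sum_eq_zero fun k _ ↦ ?_
    split_ifs with h
    · have : dX (Sum.inl k) = 0 := if_pos h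
      rw [this, map_zero, zero_mul]
    · have h1 : dX (Sum.inl k) = MvPolynomial.X (Sum.inl k) := if_neg h
      rw [h1, d0, map_neg]
      have h5 : φ (MvPolynomial.X (Sum.inl k)) = φ (yv n k) := rfl
      rw [h5]
      ring
  have s2 : ∑ k : Fin n, φ (dX (Sum.inl k)) *
          (((G + Gᵀ).map (Int.cast : ℤ → κ)) *ᵥ fun j ↦ φ (yv n j)) k =
      2 * qf (G.map (Int.cast : ℤ → κ)) (fun j ↦ φ (yv n j)) := by
    rw [← two_qf]
    refine Finset.sum_congr rfl fun k _ ↦ ?_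
    by_cases h : (k : ℕ) < 2
    · rw [gramG_eq_zero hG _ k h, mul_zero, mul_zero]
    · have h1 : dX (Sum.inl k) = MvPolynomial.X (Sum.inl k) := if_neg h
      rw [h1]
      rfl
  rw [s1, s2, d0, d1, d2, di, dw, map_neg, map_zero] at hk
  have h2 := pt_two i w Q φ hker hrel
  rw [pt_four i w Q φ hker hrel] at hk
  linear_combination hk - 2 * φ (a 2) * h2

theorem euler_two (hG : ∀ i j : Fin n, (i : ℕ) < 2 ∨ (j : ℕ) < 2 → G i j = 0)
    (hi : (i : ℕ) < 2) (h4 : φ (a 4) = 0) : φ (a 3) = 0 := by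
  classical
  let dX : Var n → TT n := Sum.elim
    (fun k : Fin n ↦ if (k : ℕ) < 2 then MvPolynomial.X (Sum.inl k) else 0)
    ![MvPolynomial.X (Sum.inr 0), -MvPolynomial.X (Sum.inr 1), MvPolynomial.X (Sum.inr 2)]
  have hk := key i w Q φ hker hrel a ha dX
  have d0 : dX (Sum.inr 0) = MvPolynomial.X (Sum.inr 0) := rfl
  have d1 : dX (Sum.inr 1) = -MvPolynomial.X (Sum.inr 1) := rfl
  have d2 : dX (Sum.inr 2) = MvPolynomial.X (Sum.inr 2) := rfl
  have di : dX (Sum.inl i) = MvPolynomial.X (Sum.inl i) := if_pos hi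
  have s1 : ∑ k : Fin n, (if (k : ℕ) < 2 then φ (dX (Sum.inl k))
          else φ (dX (Sum.inr 0)) * φ (yv n k) +
            φ (MvPolynomial.X (Sum.inr 0)) * φ (dX (Sum.inl k))) *
            (((P + Pᵀ).map (Int.cast : ℤ → κ)) *ᵥ fun j ↦ φ (xv n j)) k =
      2 * qf (P.map (Int.cast : ℤ → κ)) (fun j ↦ φ (xv n j)) := by
    rw [← two_qf]
    refine Finset.sum_congr rfl fun k _ ↦ ?_
    congr 1
    split_ifs with h
    · have h1 : dX (Sum.inl k) = MvPolynomial.X (Sum.inl k) := if_pos h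
      have h2 : xv n k = MvPolynomial.X (Sum.inl k) := if_pos h
      rw [h1, h2]
    · have h1 : dX (Sum.inl k) = 0 := if_neg h
      have h2 : xv n k = MvPolynomial.X (Sum.inr 0) * MvPolynomial.X (Sum.inl k) := if_neg h
      rw [h1, d0, h2, map_mul, map_zero, mul_zero, add_zero]
      rfl
  have s2 : ∑ k : Fin n, φ (dX (Sum.inl k)) *
          (((G + Gᵀ).map (Int.cast : ℤ → κ)) *ᵥ fun j ↦ φ (yv n j)) k = 0 := by
    refine Finset.sum_eq_zero fun k _ ↦ ?_
    by_cases h : (k : ℕ) < 2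
    · rw [gramG_eq_zero hG _ k h, mul_zero]
    · have h1 : dX (Sum.inl k) = 0 := if_neg h
      rw [h1, map_zero, zero_mul]
  rw [s1, s2, d0, d1, d2, di, h4, map_neg, pt_three i w Q φ hker hrel] at hk
  have h1 := pt_one i w Q φ hker hrel
  linear_combination hk - 2 * φ (a 1) * h1

theorem part_E (h3 : φ (a 3) = 0) (h4 : φ (a 4) = 0) :
    φ (a 0) * φ (MvPolynomial.X (Sum.inr 1)) + φ (a 1) * (φ (MvPolynomial.X (Sum.inr 2)) -
      ∑ k : Fin n, (if (k : ℕ) < 2 then 0 else φ (yv n k)) *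
        (((P + Pᵀ).map (Int.cast : ℤ → κ)) *ᵥ fun j ↦ φ (xv n j)) k) = 0 := by
  classical
  have hk := key i w Q φ hker hrel a ha (Pi.single (Sum.inr 0) 1)
  rw [h3, h4] at hk
  simpa using hk

theorem part_M (h3 : φ (a 3) = 0) (h4 : φ (a 4) = 0) :
    φ (a 0) * φ (MvPolynomial.X (Sum.inr 0)) + φ (a 2) * φ (MvPolynomial.X (Sum.inr 2)) = 0 := by
  classical
  have hk := key i w Q φ hker hrel a ha (Pi.single (Sum.inr 1) 1)
  rw [h3, h4] at hk
  simpa using hk

theorem part_B (h3 : φ (a 3) = 0) (h4 : φ (a 4) = 0) :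
    φ (a 1) * φ (MvPolynomial.X (Sum.inr 0)) + φ (a 2) * φ (MvPolynomial.X (Sum.inr 1)) = 0 := by
  classical
  have hk := key i w Q φ hker hrel a ha (Pi.single (Sum.inr 2) 1)
  rw [h3, h4] at hk
  simpa using hk

theorem part_X (h3 : φ (a 3) = 0) (h4 : φ (a 4) = 0)
    (hG : ∀ i j : Fin n, (i : ℕ) < 2 ∨ (j : ℕ) < 2 → G i j = 0) (k : Fin n) (hk2 : (k : ℕ) < 2) :
    φ (a 1) * (((P + Pᵀ).map (Int.cast : ℤ → κ)) *ᵥ fun j ↦ φ (xv n j)) k = 0 := by
  classical
  have hk := key i w Q φ hker hrel a ha (Pi.single (Sum.inl k) 1)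
  rw [h3, h4] at hk
  have s1 : ∑ l : Fin n, (if (l : ℕ) < 2 then φ ((Pi.single (Sum.inl k) 1 : Var n → TT n) (Sum.inl l))
          else φ ((Pi.single (Sum.inl k) 1 : Var n → TT n) (Sum.inr 0)) * φ (yv n l) +
            φ (MvPolynomial.X (Sum.inr 0)) *
              φ ((Pi.single (Sum.inl k) 1 : Var n → TT n) (Sum.inl l))) *
            (((P + Pᵀ).map (Int.cast : ℤ → κ)) *ᵥ fun j ↦ φ (xv n j)) l =
      (((P + Pᵀ).map (Int.cast : ℤ → κ)) *ᵥ fun j ↦ φ (xv n j)) k := by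
    rw [Finset.sum_eq_single k]
    · rw [if_pos hk2]
      simp
    · intro l _ hl
      have : (Pi.single (Sum.inl k) 1 : Var n → TT n) (Sum.inl l) = 0 :=
        Pi.single_eq_of_ne (by simpa using hl) _
      rw [this]
      simp
    · simp
  have s2 : ∑ l : Fin n, φ ((Pi.single (Sum.inl k) 1 : Var n → TT n) (Sum.inl l)) *
          (((G + Gᵀ).map (Int.cast : ℤ → κ)) *ᵥ fun j ↦ φ (yv n j)) l = 0 := by
    refine Finset.sum_eq_zero fun l _ ↦ ?_
    by_cases hl : l = k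
    · rw [hl, gramG_eq_zero hG _ k hk2, mul_zero]
    · have : (Pi.single (Sum.inl k) 1 : Var n → TT n) (Sum.inl l) = 0 :=
        Pi.single_eq_of_ne (by simpa using hl) _
      rw [this]
      simp
  rw [s1, s2] at hk
  simpa using hk

theorem part_Y (h3 : φ (a 3) = 0) (h4 : φ (a 4) = 0) (k : Fin n) (hk2 : 2 ≤ (k : ℕ)) :
    φ (a 1) * (φ (MvPolynomial.X (Sum.inr 0)) *
      (((P + Pᵀ).map (Int.cast : ℤ → κ)) *ᵥ fun j ↦ φ (xv n j)) k) =
    φ (a 2) * (((G + Gᵀ).map (Int.cast : ℤ → κ)) *ᵥ fun j ↦ φ (yv n j)) k := by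
  classical
  have hk := key i w Q φ hker hrel a ha (Pi.single (Sum.inl k) 1)
  rw [h3, h4] at hk
  have s1 : ∑ l : Fin n, (if (l : ℕ) < 2 then φ ((Pi.single (Sum.inl k) 1 : Var n → TT n) (Sum.inl l))
          else φ ((Pi.single (Sum.inl k) 1 : Var n → TT n) (Sum.inr 0)) * φ (yv n l) +
            φ (MvPolynomial.X (Sum.inr 0)) *
              φ ((Pi.single (Sum.inl k) 1 : Var n → TT n) (Sum.inl l))) *
            (((P + Pᵀ).map (Int.cast : ℤ → κ)) *ᵥ fun j ↦ φ (xv n j)) l =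
      φ (MvPolynomial.X (Sum.inr 0)) *
        (((P + Pᵀ).map (Int.cast : ℤ → κ)) *ᵥ fun j ↦ φ (xv n j)) k := by
    rw [Finset.sum_eq_single k]
    · rw [if_neg (by omega)]
      simp
    · intro l _ hl
      have : (Pi.single (Sum.inl k) 1 : Var n → TT n) (Sum.inl l) = 0 :=
        Pi.single_eq_of_ne (by simpa using hl) _
      rw [this]
      simp
    · simp
  have s2 : ∑ l : Fin n, φ ((Pi.single (Sum.inl k) 1 : Var n → TT n) (Sum.inl l)) *
          (((G + Gᵀ).map (Int.cast : ℤ → κ)) *ᵥ fun j ↦ φ (yv n j)) l =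
      (((G + Gᵀ).map (Int.cast : ℤ → κ)) *ᵥ fun j ↦ φ (yv n j)) k := by
    rw [Finset.sum_eq_single k]
    · simp
    · intro l _ hl
      have : (Pi.single (Sum.inl k) 1 : Var n → TT n) (Sum.inl l) = 0 :=
        Pi.single_eq_of_ne (by simpa using hl) _
      rw [this]
      simp
    · simp
  rw [s1, s2] at hk
  have h0 : (Pi.single (Sum.inl k) 1 : Var n → TT n) (Sum.inr 0) = 0 := by simp
  have h1 : (Pi.single (Sum.inl k) 1 : Var n → TT n) (Sum.inr 1) = 0 := by simp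
  have h2 : (Pi.single (Sum.inl k) 1 : Var n → TT n) (Sum.inr 2) = 0 := by simp
  rw [h0, h1, h2, map_zero] at hk
  linear_combination -hk

end Point

end Indep

open Indep

/-- The five relations are linearly independent modulo `Q ^ 2` at every prime `Q ∋ p`, `p ∣ m`. -/
theorem rel_independent {n : ℕ} {m : ℤ} {P G : Matrix (Fin n) (Fin n) ℤ} (hA : Adapted m P G)
    {p : ℕ} (hp : p.Prime) (hpm : (p : ℤ) ∣ m) (i : Fin n) (hi : (i : ℕ) < 2) (w : Var n)
    (hw : w = Sum.inr 1 ∨ w = Sum.inr 2 ∨ ∃ j : Fin n, 2 ≤ (j : ℕ) ∧ w = Sum.inl j)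
    (Q : Ideal (TT n)) [Q.IsPrime] (hpQ : (MvPolynomial.C (p : ℤ) : TT n) ∈ Q)
    (hrel : ∀ t, rel m P G i w t ∈ Q) (a : Fin 5 → TT n)
    (ha : ∑ t, a t * rel m P G i w t ∈ Q ^ 2) (t : Fin 5) : a t ∈ Q := by
  classical
  let κ := FractionRing (TT n ⧸ Q)
  let φ : TT n →+* κ := (algebraMap (TT n ⧸ Q) κ).comp (Ideal.Quotient.mk Q)
  have hker : ∀ x, φ x = 0 ↔ x ∈ Q := by
    intro x
    change algebraMap (TT n ⧸ Q) κ (Ideal.Quotient.mk Q x) = 0 ↔ _
    rw [← map_zero (algebraMap (TT n ⧸ Q) κ), (IsFractionRing.injective (TT n ⧸ Q) κ).eq_iff,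
      Ideal.Quotient.eq_zero_iff_mem]
  have hker' : ∀ x ∈ Q, φ x = 0 := fun x hx ↦ (hker x).2 hx
  have hchar : CharP κ p := by
    rw [CharP.charP_iff_prime_eq_zero hp]
    have h1 := (hker _).2 hpQ
    simpa using h1
  have hm0 : φ (MvPolynomial.C m) = 0 := by
    obtain ⟨c, hc⟩ := hpm
    rw [hc, map_mul, map_mul, (hker _).2 hpQ, zero_mul]
  have h4 : φ (a 4) = 0 := euler_one i w Q φ hker' hrel a ha hi hw hA.supp
  have h3 : φ (a 3) = 0 := euler_two i w Q φ hker' hrel a ha hA.supp hi h4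
  have hE := part_E i w Q φ hker' hrel a ha h3 h4
  have hM := part_M i w Q φ hker' hrel a ha h3 h4
  have hB := part_B i w Q φ hker' hrel a ha h3 h4
  have hX := fun k hk ↦ part_X i w Q φ hker' hrel a ha h3 h4 hA.supp k hk
  have hY := fun k hk ↦ part_Y i w Q φ hker' hrel a ha h3 h4 k hk
  have p0 := pt_zero i w Q φ hker' hrel
  have p1 := pt_one i w Q φ hker' hrel
  have p2 := pt_two i w Q φ hker' hrel
  have p3 := pt_three i w Q φ hker' hrel
  have p4 := pt_four i w Q φ hker' hrel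
  rw [hm0] at p0
  -- multiples of `m` in `Q ^ 2`
  have hmm : ∀ b : TT n, MvPolynomial.C m * b ∈ Q ^ 2 → b ∈ Q := by
    intro b hb
    obtain ⟨c, hc⟩ := hpm
    rw [hc, map_mul, mul_assoc] at hb
    have h1 := mem_of_prime_mul_mem_sq p hp Q hpQ _ hb
    refine (Ideal.IsPrime.mem_or_mem inferInstance h1).resolve_left fun h2 ↦ ?_
    have hpc : ¬ (p : ℤ) ∣ c := by
      rintro ⟨d, rfl⟩
      exact hA.sqfree p hp ⟨p * d, hc⟩ ⟨d, by rw [hc]; ring⟩
    have hcop : IsCoprime (p : ℤ) c :=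
      (Nat.prime_iff_prime_int.1 hp).coprime_iff_not_dvd.2 hpc
    obtain ⟨u, v, huv⟩ := hcop
    have h5 : (MvPolynomial.C (u * p + v * c) : TT n) ∈ Q := by
      rw [map_add, map_mul, map_mul]
      exact Q.add_mem (Q.mul_mem_left _ hpQ) (Q.mul_mem_left _ h2)
    rw [huv, map_one] at h5
    exact (Ideal.ne_top_iff_one Q).1 (Ideal.IsPrime.ne_top inferInstance) h5
  have hsq : ∀ x y : TT n, x ∈ Q → y ∈ Q → x * y ∈ Q ^ 2 := fun x y hx hy ↦ by
    rw [pow_two]
    exact Ideal.mul_mem_mul hx hy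
  have r0 : rel m P G i w 0 = MvPolynomial.X (Sum.inr 0) * MvPolynomial.X (Sum.inr 1) -
    MvPolynomial.C m := rfl
  have r2 : rel m P G i w 2 = MvPolynomial.X (Sum.inr 1) * MvPolynomial.X (Sum.inr 2) +
    qf (G.map MvPolynomial.C) (yv n) := rfl
  have m3 : a 3 * rel m P G i w 3 ∈ Q ^ 2 := hsq _ _ ((hker _).1 h3) (hrel 3)
  have m4 : a 4 * rel m P G i w 4 ∈ Q ^ 2 := hsq _ _ ((hker _).1 h4) (hrel 4)
  rw [Fin.sum_univ_five] at ha
  have ha' := (Q ^ 2).sub_mem ((Q ^ 2).sub_mem ha m4) m3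
  -- coordinates with a vanishing gram vector vanish, contradiction with `w = 1` unless `w = B`
  have hgram : (∀ k : Fin n, 2 ≤ (k : ℕ) → φ (a 2) *
      (((G + Gᵀ).map (Int.cast : ℤ → κ)) *ᵥ fun j ↦ φ (yv n j)) k = 0) → φ (a 2) ≠ 0 →
      qf (G.map (Int.cast : ℤ → κ)) (fun j ↦ φ (yv n j)) = 0 →
      ∀ k : Fin n, 2 ≤ (k : ℕ) → φ (yv n k) = 0 := by
    intro h1 h2 h5 k hk
    refine hA.eq_zero_of_singular hp hpm (fun j ↦ φ (yv n j)) ?_ h5 k hk
    ext l
    by_cases hl : (l : ℕ) < 2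
    · exact gramG_eq_zero hA.supp _ l hl
    · exact (mul_eq_zero.1 (h1 l (by omega))).resolve_left h2
  have main : φ (a 0) = 0 ∧ φ (a 1) = 0 ∧ φ (a 2) = 0 := by
    by_cases he : φ (MvPolynomial.X (Sum.inr 0)) = 0
    · -- `e = 0`
      have hx2 : ∀ k : Fin n, 2 ≤ (k : ℕ) → φ (xv n k) = 0 := by
        intro k hk
        have h1 : xv n k = MvPolynomial.X (Sum.inr 0) * MvPolynomial.X (Sum.inl k) :=
          if_neg (by omega)
        rw [h1, map_mul, he, zero_mul]
      have hx0 : (fun j ↦ φ (xv n j)) ≠ 0 := by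
        intro h
        have h1 := congrFun h i
        have h2 : xv n i = MvPolynomial.X (Sum.inl i) := if_pos hi
        simp only [Pi.zero_apply] at h1
        rw [h2, p3] at h1
        exact one_ne_zero h1
      rw [he, zero_mul] at p1
      obtain ⟨i', hi', hne⟩ := hA.exists_partial_ne hp hpm _ hx2 hx0 p1.symm
      have h1 : φ (a 1) = 0 := (mul_eq_zero.1 (hX i' hi')).resolve_right hne
      have h2 : φ (a 2) = 0 := by
        by_contra h2
        rw [he, mul_zero, zero_add] at hM hB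
        have hB0 := (mul_eq_zero.1 hM).resolve_left h2
        have hM0 := (mul_eq_zero.1 hB).resolve_left h2
        rw [hB0, mul_zero, zero_add] at p2
        have hy0 := hgram (fun k hk ↦ by rw [← hY k hk, h1, zero_mul]) h2 p2
        rcases hw with rfl | rfl | ⟨j, hj, rfl⟩
        · rw [hM0] at p4
          exact zero_ne_one p4
        · rw [hB0] at p4
          exact zero_ne_one p4
        · have h6 := hy0 j hj
          have h7 : φ (yv n j) = 1 := p4
          rw [h6] at h7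
          exact zero_ne_one h7
      refine ⟨?_, h1, h2⟩
      rw [h1, zero_mul, add_zero] at hE
      by_cases hM0 : φ (MvPolynomial.X (Sum.inr 1)) = 0
      · refine (hker _).2 (hmm _ ?_)
        have m1 : a 1 * rel m P G i w 1 ∈ Q ^ 2 := hsq _ _ ((hker _).1 h1) (hrel 1)
        have m2 : a 2 * rel m P G i w 2 ∈ Q ^ 2 := hsq _ _ ((hker _).1 h2) (hrel 2)
        have m5 := (Q ^ 2).mul_mem_left (a 0)
          (hsq _ _ ((hker _).1 he) ((hker (MvPolynomial.X (Sum.inr 1))).1 hM0))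
        have m6 := (Q ^ 2).sub_mem m5 ((Q ^ 2).sub_mem ((Q ^ 2).sub_mem ha' m2) m1)
        have : MvPolynomial.C m * a 0 = a 0 * (MvPolynomial.X (Sum.inr 0) *
          MvPolynomial.X (Sum.inr 1)) - (a 0 * rel m P G i w 0 + a 1 * rel m P G i w 1 +
            a 2 * rel m P G i w 2 + a 3 * rel m P G i w 3 + a 4 * rel m P G i w 4 -
              a 4 * rel m P G i w 4 - a 3 * rel m P G i w 3 - a 2 * rel m P G i w 2 -
                a 1 * rel m P G i w 1) := by
          rw [r0]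
          ring
        rw [this]
        exact m6
      · exact (mul_eq_zero.1 hE).resolve_right hM0
    · -- `e ≠ 0`
      have hM0 := (mul_eq_zero.1 p0).resolve_left he
      rw [hM0, mul_zero, add_zero] at hB
      have h1 := (mul_eq_zero.1 hB).resolve_right he
      have h2 : φ (a 2) = 0 := by
        by_contra h2
        rw [hM0, zero_mul, zero_add] at p2
        have hy0 := hgram (fun k hk ↦ by rw [← hY k hk, h1, zero_mul]) h2 p2
        have hyQ : ∀ k : Fin n, 2 ≤ (k : ℕ) → yv n k ∈ Q := fun k hk ↦ (hker _).1 (hy0 k hk)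
        have hqf : qf (G.map MvPolynomial.C) (yv n) ∈ Q ^ 2 := by
          unfold qf
          simp only [dotProduct, Matrix.mulVec, Finset.mul_sum]
          refine Ideal.sum_mem _ fun k _ ↦ Ideal.sum_mem _ fun l _ ↦ ?_
          by_cases h : (k : ℕ) < 2 ∨ (l : ℕ) < 2
          · rw [Matrix.map_apply, hA.supp k l h, map_zero, zero_mul, mul_zero]
            exact (Q ^ 2).zero_mem
          · push Not at h
            have h5 : yv n k * ((G.map MvPolynomial.C) k l * yv n l) =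
                (G.map MvPolynomial.C) k l * (yv n k * yv n l) := by ring
            rw [h5]
            exact (Q ^ 2).mul_mem_left _ (hsq _ _ (hyQ k h.1) (hyQ l h.2))
        have m1 : a 1 * rel m P G i w 1 ∈ Q ^ 2 := hsq _ _ ((hker _).1 h1) (hrel 1)
        have hMe : a 0 * MvPolynomial.X (Sum.inr 0) + a 2 * MvPolynomial.X (Sum.inr 2) ∈ Q := by
          rw [← hker, map_add, map_mul, map_mul]
          exact hM
        have m5 := hsq _ _ hMe ((hker (MvPolynomial.X (Sum.inr 1))).1 hM0)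
        have m6 := (Q ^ 2).add_mem m5 ((Q ^ 2).mul_mem_left (a 2) hqf)
        have m7 := (Q ^ 2).sub_mem m6 ((Q ^ 2).sub_mem ha' m1)
        have ha0 : a 0 ∈ Q := by
          apply hmm
          have : MvPolynomial.C m * a 0 = (a 0 * MvPolynomial.X (Sum.inr 0) +
            a 2 * MvPolynomial.X (Sum.inr 2)) * MvPolynomial.X (Sum.inr 1) +
              a 2 * qf (G.map MvPolynomial.C) (yv n) -
              (a 0 * rel m P G i w 0 + a 1 * rel m P G i w 1 +
            a 2 * rel m P G i w 2 + a 3 * rel m P G i w 3 + a 4 * rel m P G i w 4 -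
              a 4 * rel m P G i w 4 - a 3 * rel m P G i w 3 -
                a 1 * rel m P G i w 1) := by
            rw [r0, r2]
            ring
          rw [this]
          exact m7
        rw [(hker _).2 ha0, zero_mul, zero_add] at hM
        have hB0 := (mul_eq_zero.1 hM).resolve_left h2
        rcases hw with rfl | rfl | ⟨j, hj, rfl⟩
        · rw [hM0] at p4
          exact zero_ne_one p4
        · rw [hB0] at p4
          exact zero_ne_one p4
        · have h6 := hy0 j hj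
          have h7 : φ (yv n j) = 1 := p4
          rw [h6] at h7
          exact zero_ne_one h7
      rw [h2, zero_mul, add_zero] at hM
      exact ⟨(mul_eq_zero.1 hM).resolve_right he, h1, h2⟩
  obtain ⟨h0, h1, h2⟩ := main
  fin_cases t
  · exact (hker _).1 h0
  · exact (hker _).1 h1
  · exact (hker _).1 h2
  · exact (hker _).1 h3
  · exact (hker _).1 h4

end Pool.Agent.QuadAll
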