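import Mathlib

set_option autoImplicit false

namespace Pool.Agent.QuadAll

/-- If `C` becomes a localisation of `S` after inverting `e`, local rings at primes not containing
`e` agree. -/
theorem isRegularLocalRing_of_localization {S C : Type} [CommRing S] [CommRing C] [IsDomain C]
    (σ : S →+* C) (hσ : Function.Injective σ) (e : S)
    (hfrac : ∀ c : C, ∃ (n : ℕ) (s : S), σ e ^ n * c = σ s)
    (Q : Ideal C) [Q.IsPrime] (heQ : σ e ∉ Q)
    (hreg : IsRegularLocalRing (Localization.AtPrime (Q.comap σ))) :
    IsRegularLocalRing (Localization.AtPrime Q) := by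
  let _ : Algebra S (Localization.AtPrime Q) := ((algebraMap C (Localization.AtPrime Q)).comp σ).toAlgebra
  have halg : ∀ s : S, algebraMap S (Localization.AtPrime Q) s =
      algebraMap C (Localization.AtPrime Q) (σ s) := fun s ↦ rfl
  have hinj : Function.Injective (algebraMap C (Localization.AtPrime Q)) :=
    IsLocalization.injective _ Q.primeCompl_le_nonZeroDivisors
  have heP : ∀ n : ℕ, σ e ^ n ∉ Q := fun n h ↦ heQ (Ideal.IsPrime.mem_of_pow_mem ‹_› n h)
  have hloc : IsLocalization.AtPrime (Localization.AtPrime Q) (Q.comap σ) := by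
    refine ⟨fun y ↦ ?_, fun z ↦ ?_, fun {x y} hxy ↦ ?_⟩
    · rw [halg]
      exact IsLocalization.map_units (Localization.AtPrime Q) (⟨σ y.1, y.2⟩ : Q.primeCompl)
    · obtain ⟨⟨c, t⟩, hz⟩ := IsLocalization.surj Q.primeCompl z
      obtain ⟨n, s, hs⟩ := hfrac c
      obtain ⟨k, r, hr⟩ := hfrac t.1
      have hden : e ^ n * r ∉ Q.comap σ := by
        rw [Ideal.mem_comap, map_mul, map_pow, ← hr]
        intro h
        rcases Ideal.IsPrime.mem_or_mem ‹_› h with h | h
        · exact heP n h
        · rcases Ideal.IsPrime.mem_or_mem ‹_› h with h | h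
          · exact heP k h
          · exact t.2 h
      refine ⟨(e ^ k * s, ⟨e ^ n * r, hden⟩), ?_⟩
      simp only [halg] at hz ⊢
      rw [map_mul σ, map_mul σ, map_pow, map_pow, ← hr, ← hs]
      simp only [map_mul, map_pow]
      rw [← hz]
      ring
    · rw [halg, halg] at hxy
      exact ⟨1, by rw [hσ (hinj hxy)]⟩
  exact IsRegularLocalRing.of_ringEquiv
    (IsLocalization.algEquiv (Q.comap σ).primeCompl (Localization.AtPrime (Q.comap σ))
      (Localization.AtPrime Q)).toRingEquiv

end Pool.Agent.QuadAll
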