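import Mathlib
import Pool.Agent.QuadAll.Defs
import Pool.Agent.QuadAll.Indep
import Pool.Agent.QuadAll.PresReg
import Pool.Agent.QuadAll.LocReg
import Pool.Agent.QuadAll.Affine

set_option autoImplicit false

/-!
# Regularity of the charts of the model
-/

namespace Pool.Agent.QuadAll

open Matrix Module Pool.Agent.QuadModel

namespace ChartReg

variable {n : ℕ}

section Point

variable {K : Type} [Field K] {m : ℤ} {P G : Matrix (Fin n) (Fin n) ℤ} (η : Fin n → K) (ε : K)

theorem aeval_pt_xv (hε : ε ≠ 0) (k : Fin n) :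
    MvPolynomial.aeval (pt m P η ε) (xv n k) = η k := by
  unfold xv
  split_ifs with h
  · rw [MvPolynomial.aeval_X]
    exact if_pos h
  · rw [map_mul, MvPolynomial.aeval_X, MvPolynomial.aeval_X]
    have h1 : pt m P η ε (Sum.inl k) = η k / ε := if_neg h
    have h2 : pt m P η ε (Sum.inr 0) = ε := rfl
    rw [h1, h2]
    field_simp

theorem aeval_pt_aeval_xv (hε : ε ≠ 0) (f : MvPolynomial (Fin n) ℤ) :
    MvPolynomial.aeval (pt m P η ε) (MvPolynomial.aeval (xv n) f) = MvPolynomial.aeval η f := by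
  have h : (MvPolynomial.aeval (pt m P η ε)).comp (MvPolynomial.aeval (xv n)) =
      (MvPolynomial.aeval η : MvPolynomial (Fin n) ℤ →ₐ[ℤ] K) := by
    apply MvPolynomial.algHom_ext
    intro k
    rw [AlgHom.comp_apply, MvPolynomial.aeval_X, MvPolynomial.aeval_X, aeval_pt_xv η ε hε]
  rw [← h, AlgHom.comp_apply]

theorem aeval_qpoly {R : Type*} [CommRing R] [Algebra ℤ R] (D : Matrix (Fin n) (Fin n) ℤ)
    (v : Fin n → R) : MvPolynomial.aeval v (qpoly D) = qf (D.map (Int.cast : ℤ → R)) v := by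
  rw [MvPolynomial.aeval_def, eval₂_qpoly]
  congr 1
  ext i j
  simp

theorem aeval_xv_qpoly (D : Matrix (Fin n) (Fin n) ℤ) :
    MvPolynomial.aeval (xv n) (qpoly D) = qf (D.map MvPolynomial.C) (xv n) := by
  rw [aeval_qpoly]
  congr 1

theorem qf_smul_add {R : Type*} [CommRing R] (f : ℤ →+* R) (v : Fin n → R) :
    qf ((m • P + G).map f) v = f m * qf (P.map f) v + qf (G.map f) v := by
  unfold qf
  simp only [dotProduct, Matrix.mulVec, Finset.mul_sum]
  rw [← Finset.sum_add_distrib]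
  refine Finset.sum_congr rfl fun i _ ↦ ?_
  rw [← Finset.sum_add_distrib]
  refine Finset.sum_congr rfl fun j _ ↦ ?_
  simp only [Matrix.map_apply, Matrix.add_apply, Matrix.smul_apply, smul_eq_mul, map_add, map_mul]
  ring

theorem qf_supp {R : Type*} [CommRing R] (f : ℤ →+* R)
    (hG : ∀ i j : Fin n, (i : ℕ) < 2 ∨ (j : ℕ) < 2 → G i j = 0) (c : R) (v w : Fin n → R)
    (hvw : ∀ k : Fin n, 2 ≤ (k : ℕ) → v k = c * w k) :
    qf (G.map f) v = c ^ 2 * qf (G.map f) w := by
  unfold qf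
  simp only [dotProduct, Matrix.mulVec, Finset.mul_sum]
  refine Finset.sum_congr rfl fun i _ ↦ Finset.sum_congr rfl fun j _ ↦ ?_
  by_cases h : (i : ℕ) < 2 ∨ (j : ℕ) < 2
  · rw [Matrix.map_apply, hG i j h, map_zero]
    ring
  · push Not at h
    rw [hvw i h.1, hvw j h.2]
    ring

theorem qf_xv (hG : ∀ i j : Fin n, (i : ℕ) < 2 ∨ (j : ℕ) < 2 → G i j = 0) :
    qf (G.map MvPolynomial.C) (xv n) =
      MvPolynomial.X (Sum.inr 0) ^ 2 * qf (G.map MvPolynomial.C) (yv n) := by
  refine qf_supp MvPolynomial.C hG _ _ _ fun k hk ↦ ?_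
  unfold xv yv
  rw [if_neg (by omega)]

variable (i : Fin n) (w : Var n)

/-- The substitution of the coordinates maps the equation to a combination of the relations. -/
theorem qpoly_mem (hG : ∀ i j : Fin n, (i : ℕ) < 2 ∨ (j : ℕ) < 2 → G i j = 0) :
    MvPolynomial.aeval (xv n) (qpoly (m • P + G)) ∈
      Ideal.span (Set.range (rel m P G i w)) := by
  rw [aeval_xv_qpoly, qf_smul_add MvPolynomial.C, qf_xv hG]
  set J := Ideal.span (Set.range (rel m P G i w))
  have hr : ∀ t, rel m P G i w t ∈ J := fun t ↦ Ideal.subset_span ⟨t, rfl⟩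
  have r0 : rel m P G i w 0 = MvPolynomial.X (Sum.inr 0) * MvPolynomial.X (Sum.inr 1) -
    MvPolynomial.C m := rfl
  have r1 : rel m P G i w 1 = MvPolynomial.X (Sum.inr 0) * MvPolynomial.X (Sum.inr 2) -
    qf (P.map MvPolynomial.C) (xv n) := rfl
  have r2 : rel m P G i w 2 = MvPolynomial.X (Sum.inr 1) * MvPolynomial.X (Sum.inr 2) +
    qf (G.map MvPolynomial.C) (yv n) := rfl
  have h : MvPolynomial.C m * qf (P.map MvPolynomial.C) (xv n) +
      MvPolynomial.X (Sum.inr 0) ^ 2 * qf (G.map MvPolynomial.C) (yv n) =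
      MvPolynomial.X (Sum.inr 0) ^ 2 * rel m P G i w 2 -
        (MvPolynomial.X (Sum.inr 0) * MvPolynomial.X (Sum.inr 2)) * rel m P G i w 0 -
          MvPolynomial.C m * rel m P G i w 1 := by
    rw [r0, r1, r2]
    ring
  rw [h]
  exact J.sub_mem (J.sub_mem (J.mul_mem_left _ (hr 2)) (J.mul_mem_left _ (hr 0)))
    (J.mul_mem_left _ (hr 1))

/-- In the quotient by the relations `e` is a polynomial in the coordinates. -/
theorem exists_e
    (hw : w = Sum.inr 1 ∨ w = Sum.inr 2 ∨ ∃ j : Fin n, 2 ≤ (j : ℕ) ∧ w = Sum.inl j) :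
    ∃ s : MvPolynomial (Fin n) ℤ, MvPolynomial.X (Sum.inr 0) - MvPolynomial.aeval (xv n) s ∈
      Ideal.span (Set.range (rel m P G i w)) := by
  set J := Ideal.span (Set.range (rel m P G i w))
  have hr : ∀ t, rel m P G i w t ∈ J := fun t ↦ Ideal.subset_span ⟨t, rfl⟩
  have r0 : rel m P G i w 0 = MvPolynomial.X (Sum.inr 0) * MvPolynomial.X (Sum.inr 1) -
    MvPolynomial.C m := rfl
  have r1 : rel m P G i w 1 = MvPolynomial.X (Sum.inr 0) * MvPolynomial.X (Sum.inr 2) -
    qf (P.map MvPolynomial.C) (xv n) := rfl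
  have r4 : rel m P G i w 4 = MvPolynomial.X w - 1 := rfl
  rcases hw with rfl | rfl | ⟨j, hj, rfl⟩
  · refine ⟨MvPolynomial.C m, ?_⟩
    have h : (MvPolynomial.X (Sum.inr 0) - MvPolynomial.aeval (xv n) (MvPolynomial.C m) : TT n) =
        rel m P G i (Sum.inr 1) 0 - MvPolynomial.X (Sum.inr 0) * rel m P G i (Sum.inr 1) 4 := by
      rw [r0, r4, MvPolynomial.aeval_C, ← MvPolynomial.algebraMap_eq]
      ring
    rw [h]
    exact J.sub_mem (hr 0) (J.mul_mem_left _ (hr 4))
  · refine ⟨qpoly P, ?_⟩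
    have h : (MvPolynomial.X (Sum.inr 0) - MvPolynomial.aeval (xv n) (qpoly P) : TT n) =
        rel m P G i (Sum.inr 2) 1 - MvPolynomial.X (Sum.inr 0) * rel m P G i (Sum.inr 2) 4 := by
      rw [r1, r4, aeval_xv_qpoly]
      ring
    rw [h]
    exact J.sub_mem (hr 1) (J.mul_mem_left _ (hr 4))
  · refine ⟨MvPolynomial.X j, ?_⟩
    have h : (MvPolynomial.X (Sum.inr 0) - MvPolynomial.aeval (xv n)
      (MvPolynomial.X j : MvPolynomial (Fin n) ℤ) : TT n) =
        -MvPolynomial.X (Sum.inr 0) * rel m P G i (Sum.inl j) 4 := by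
      rw [r4, MvPolynomial.aeval_X]
      unfold xv
      rw [if_neg (by omega)]
      ring
    rw [h]
    exact J.mul_mem_left _ (hr 4)

/-- Up to a power of `e`, everything is a polynomial in the coordinates modulo the relations. -/
theorem exists_pow
    (hw : w = Sum.inr 1 ∨ w = Sum.inr 2 ∨ ∃ j : Fin n, 2 ≤ (j : ℕ) ∧ w = Sum.inl j)
    (t : TT n) :
    ∃ (N : ℕ) (s : MvPolynomial (Fin n) ℤ),
      MvPolynomial.X (Sum.inr 0) ^ N * t - MvPolynomial.aeval (xv n) s ∈
        Ideal.span (Set.range (rel m P G i w)) := by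
  obtain ⟨s₀, hs₀⟩ := exists_e (m := m) (P := P) (G := G) i w hw
  set J := Ideal.span (Set.range (rel m P G i w)) with hJ
  have hr : ∀ t, rel m P G i w t ∈ J := fun t ↦ Ideal.subset_span ⟨t, rfl⟩
  have r0 : rel m P G i w 0 = MvPolynomial.X (Sum.inr 0) * MvPolynomial.X (Sum.inr 1) -
    MvPolynomial.C m := rfl
  have r1 : rel m P G i w 1 = MvPolynomial.X (Sum.inr 0) * MvPolynomial.X (Sum.inr 2) -
    qf (P.map MvPolynomial.C) (xv n) := rfl
  let q : TT n →+* TT n ⧸ J := Ideal.Quotient.mk J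
  have hq : ∀ x y : TT n, x - y ∈ J ↔ q x = q y := fun x y ↦ Ideal.Quotient.eq.symm
  simp only [hq] at hs₀ ⊢
  let E : MvPolynomial (Fin n) ℤ →+* TT n ⧸ J := q.comp (MvPolynomial.aeval (xv n) :
    MvPolynomial (Fin n) ℤ →ₐ[ℤ] TT n).toRingHom
  have hE : ∀ s : MvPolynomial (Fin n) ℤ, q (MvPolynomial.aeval (xv n) s) = E s := fun _ ↦ rfl
  simp only [hE, map_mul, map_pow] at hs₀ ⊢
  induction t using MvPolynomial.induction_on with
  | C a =>
    refine ⟨0, MvPolynomial.C a, ?_⟩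
    rw [pow_zero, one_mul, ← hE, MvPolynomial.aeval_C, MvPolynomial.algebraMap_eq]
  | add t t' h h' =>
    obtain ⟨N, s, hs⟩ := h
    obtain ⟨N', s', hs'⟩ := h'
    refine ⟨N + N', s₀ ^ N' * s + s₀ ^ N * s', ?_⟩
    rw [map_add, map_add, map_mul, map_mul, ← hs, ← hs', map_pow, map_pow, ← hs₀]
    ring
  | mul_X t u h =>
    obtain ⟨N, s, hs⟩ := h
    have hu : ∃ (N : ℕ) (s : MvPolynomial (Fin n) ℤ),
        q (MvPolynomial.X (Sum.inr 0)) ^ N * q (MvPolynomial.X u) = E s := by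
      rcases u with k | l
      · by_cases hk : (k : ℕ) < 2
        · refine ⟨0, MvPolynomial.X k, ?_⟩
          rw [pow_zero, one_mul, ← hE, MvPolynomial.aeval_X]
          unfold xv
          rw [if_pos hk]
        · refine ⟨1, MvPolynomial.X k, ?_⟩
          rw [pow_one, ← hE, MvPolynomial.aeval_X, ← map_mul]
          unfold xv
          rw [if_neg hk]
      · fin_cases l
        · exact ⟨0, s₀, by simpa using hs₀⟩
        · refine ⟨1, MvPolynomial.C m, ?_⟩
          rw [pow_one, ← hE, MvPolynomial.aeval_C, ← map_mul, ← hq, MvPolynomial.algebraMap_eq]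
          exact hr 0
        · refine ⟨1, qpoly P, ?_⟩
          rw [pow_one, ← hE, aeval_xv_qpoly, ← map_mul, ← hq]
          exact hr 1
    obtain ⟨N', s', hs'⟩ := hu
    refine ⟨N + N', s * s', ?_⟩
    rw [map_mul, map_mul, ← hs, ← hs']
    ring

/-- The relations vanish at the point. -/
theorem aeval_rel_eq_zero (hε : ε ≠ 0)
    (hG : ∀ i j : Fin n, (i : ℕ) < 2 ∨ (j : ℕ) < 2 → G i j = 0) (hi : (i : ℕ) < 2) (hηi : η i = 1)
    (hF : qf ((m • P + G).map (Int.cast : ℤ → K)) η = 0) (hw1 : pt m P η ε w = 1) (t : Fin 5) :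
    MvPolynomial.aeval (pt m P η ε) (rel m P G i w t) = 0 := by
  have p0 : pt m P η ε (Sum.inr 0) = ε := rfl
  have p1 : pt m P η ε (Sum.inr 1) = (m : K) / ε := rfl
  have p2 : pt m P η ε (Sum.inr 2) = qf (P.map (Int.cast : ℤ → K)) η / ε := rfl
  have hqP : MvPolynomial.aeval (pt m P η ε) (qf (P.map MvPolynomial.C) (xv n)) =
      qf (P.map (Int.cast : ℤ → K)) η := by
    rw [← aeval_xv_qpoly, aeval_pt_aeval_xv η ε hε, aeval_qpoly]
  have hqG : qf (G.map (Int.cast : ℤ → K)) η =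
      ε ^ 2 * MvPolynomial.aeval (pt m P η ε) (qf (G.map MvPolynomial.C) (yv n)) := by
    have h1 := aeval_pt_aeval_xv (m := m) (P := P) η ε hε (qpoly G)
    rw [aeval_xv_qpoly, qf_xv hG, map_mul, map_pow, MvPolynomial.aeval_X, p0, aeval_qpoly] at h1
    exact h1.symm
  have hF' : (m : K) * qf (P.map (Int.cast : ℤ → K)) η + qf (G.map (Int.cast : ℤ → K)) η = 0 := by
    rw [← hF]
    exact (qf_smul_add (Int.castRingHom K) η).symm
  fin_cases t
  · change MvPolynomial.aeval (pt m P η ε) (MvPolynomial.X (Sum.inr 0) *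
      MvPolynomial.X (Sum.inr 1) - MvPolynomial.C m) = 0
    rw [map_sub, map_mul, MvPolynomial.aeval_X, MvPolynomial.aeval_X, p0, p1, MvPolynomial.aeval_C]
    simp only [algebraMap_int_eq, eq_intCast]
    field_simp
    ring
  · change MvPolynomial.aeval (pt m P η ε) (MvPolynomial.X (Sum.inr 0) *
      MvPolynomial.X (Sum.inr 2) - qf (P.map MvPolynomial.C) (xv n)) = 0
    rw [map_sub, map_mul, MvPolynomial.aeval_X, MvPolynomial.aeval_X, p0, p2, hqP]
    field_simp
    ring
  · change MvPolynomial.aeval (pt m P η ε) (MvPolynomial.X (Sum.inr 1) *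
      MvPolynomial.X (Sum.inr 2) + qf (G.map MvPolynomial.C) (yv n)) = 0
    rw [map_add, map_mul, MvPolynomial.aeval_X, MvPolynomial.aeval_X, p1, p2]
    rw [hqG] at hF'
    have h2 : ε ^ 2 ≠ 0 := pow_ne_zero 2 hε
    apply mul_left_cancel₀ h2
    rw [mul_zero, ← hF']
    field_simp
  · change MvPolynomial.aeval (pt m P η ε) (MvPolynomial.X (Sum.inl i) - 1) = 0
    rw [map_sub, MvPolynomial.aeval_X, map_one]
    have : pt m P η ε (Sum.inl i) = η i := if_pos hi
    rw [this, hηi, sub_self]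
  · change MvPolynomial.aeval (pt m P η ε) (MvPolynomial.X w - 1) = 0
    rw [map_sub, MvPolynomial.aeval_X, map_one, hw1, sub_self]

end Point

end ChartReg

open ChartReg

/-- The charts `x_i = 1` (`i < 2`), `w = 1` of the model are regular. -/
theorem isRegularRing_chartRing {n : ℕ} {M : Matrix (Fin n) (Fin n) ℚ} (hM : M.det ≠ 0) {m : ℤ}
    {P G : Matrix (Fin n) (Fin n) ℤ} (hA : Adapted m P G) (hmin : IsMin M (m • P + G))
    {K : Type} [Field K] [CharZero K] (ξ : Fin n → K)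
    (hξ : ∀ f : MvPolynomial (Fin n) ℤ, MvPolynomial.aeval ξ f = 0 ↔ qpoly (m • P + G) ∣ f)
    (i : Fin n) (hi : (i : ℕ) < 2) (hξi : ξ i ≠ 0) (w : Var n)
    (hw : w = Sum.inr 1 ∨ w = Sum.inr 2 ∨ ∃ j : Fin n, 2 ≤ (j : ℕ) ∧ w = Sum.inl j)
    (ε : K) (hε : ε ≠ 0) (hw1 : pt m P (fun k ↦ ξ k / ξ i) ε w = 1) :
    IsRegularRing (chartRing m P (fun k ↦ ξ k / ξ i) ε) := by
  classical
  set η : Fin n → K := fun k ↦ ξ k / ξ i with hη
  have hηi : η i = 1 := div_self hξi
  have hF : qf ((m • P + G).map (Int.cast : ℤ → K)) η = 0 := by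
    have h1 := (hξ (qpoly (m • P + G))).2 dvd_rfl
    rw [aeval_qpoly] at h1
    have h2 : η = (ξ i)⁻¹ • ξ := by
      ext k
      simp only [hη, Pi.smul_apply, smul_eq_mul]
      rw [div_eq_mul_inv, mul_comm]
    rw [h2, qf_smul, h1, mul_zero]
  have hrel0 : ∀ t, MvPolynomial.aeval (pt m P η ε) (rel m P G i w t) = 0 :=
    aeval_rel_eq_zero η ε i w hε hA.supp hi hηi hF hw1
  set J := Ideal.span (Set.range (rel m P G i w)) with hJ
  have hJ0 : ∀ x ∈ J, MvPolynomial.aeval (pt m P η ε) x = 0 := by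
    intro x hx
    have hle : J ≤ RingHom.ker (MvPolynomial.aeval (pt m P η ε) : TT n →ₐ[ℤ] K) := by
      rw [hJ, Ideal.span_le]
      rintro _ ⟨t, rfl⟩
      exact hrel0 t
    exact hle hx
  let π₀ : TT n →ₐ[ℤ] chartRing m P η ε := (MvPolynomial.aeval (pt m P η ε)).rangeRestrict
  let π : TT n →+* chartRing m P η ε := π₀.toRingHom
  have hπs : Function.Surjective π := AlgHom.rangeRestrict_surjective _
  have hπv : ∀ t, ((π t : chartRing m P η ε) : K) = MvPolynomial.aeval (pt m P η ε) t :=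
    fun t ↦ rfl
  have hπ0 : ∀ t, π t = 0 ↔ MvPolynomial.aeval (pt m P η ε) t = 0 := fun t ↦ by
    rw [← hπv, ZeroMemClass.coe_eq_zero]
  have hnoeth : IsNoetherianRing (chartRing m P η ε) :=
    isNoetherianRing_of_surjective (TT n) (chartRing m P η ε) π hπs
  have hle : affRing ξ i ≤ chartRing m P η ε := by
    rintro _ ⟨f, rfl⟩
    exact ⟨MvPolynomial.aeval (xv n) f, aeval_pt_aeval_xv η ε hε f⟩
  have hpow : ∀ t : TT n, ∃ (N : ℕ) (s : MvPolynomial (Fin n) ℤ),
      MvPolynomial.X (Sum.inr 0) ^ N * t - MvPolynomial.aeval (xv n) s ∈ J ∧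
        ε ^ N * MvPolynomial.aeval (pt m P η ε) t = MvPolynomial.aeval η s := by
    intro t
    obtain ⟨N, s, hs⟩ := exists_pow (m := m) (P := P) (G := G) i w hw t
    refine ⟨N, s, hs, ?_⟩
    have h1 := hJ0 _ hs
    rw [map_sub, map_mul, map_pow, MvPolynomial.aeval_X, aeval_pt_aeval_xv η ε hε,
      sub_eq_zero] at h1
    exact h1
  rw [isRegularRing_iff]
  intro Q hQ
  by_cases hmQ : (m : chartRing m P η ε) ∈ Q
  · -- primes over `p ∣ m`
    obtain ⟨p, hchar⟩ := CharP.exists (chartRing m P η ε ⧸ Q)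
    have hm0 : ((m : ℤ) : chartRing m P η ε ⧸ Q) = 0 := by
      have := Ideal.Quotient.eq_zero_iff_mem.2 hmQ
      simpa using this
    have hpm : (p : ℤ) ∣ m := (CharP.intCast_eq_zero_iff _ p m).1 hm0
    have hp : p.Prime := by
      rcases CharP.char_is_prime_or_zero (chartRing m P η ε ⧸ Q) p with h | h
      · exact h
      · exfalso
        rw [h] at hpm
        exact hA.ne_zero (by simpa using hpm)
    have hpQ : (p : chartRing m P η ε) ∈ Q := by
      rw [← Ideal.Quotient.eq_zero_iff_mem]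
      simp
    refine isRegularLocalRing_of_presentation π hπs (rel m P G i w)
      (fun t ↦ (hπ0 _).2 (hrel0 t)) (MvPolynomial.X (Sum.inr 0)) ?_ ?_ Q ?_
    · rw [Ne, hπ0, MvPolynomial.aeval_X]
      exact hε
    · intro t ht
      obtain ⟨N, s, hs, hs'⟩ := hpow t
      rw [(hπ0 t).1 ht, mul_zero] at hs'
      have h1 := (aeval_affine_eq_zero_iff ξ hξ i hξi s).1 hs'.symm
      refine ⟨N, ?_⟩
      have h2 : MvPolynomial.aeval (xv n) s ∈ J := by
        have hle2 : Ideal.span {qpoly (m • P + G), (MvPolynomial.X i - 1 :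
            MvPolynomial (Fin n) ℤ)} ≤ J.comap (MvPolynomial.aeval (xv n) :
              MvPolynomial (Fin n) ℤ →ₐ[ℤ] TT n) := by
          rw [Ideal.span_le]
          intro f hf
          rcases hf with rfl | hf
          · exact qpoly_mem i w hA.supp
          · rw [Set.mem_singleton_iff] at hf
            rw [hf, SetLike.mem_coe, Ideal.mem_comap, map_sub, MvPolynomial.aeval_X, map_one]
            have h3 : xv n i = MvPolynomial.X (Sum.inl i) := if_pos hi
            rw [h3]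
            exact Ideal.subset_span ⟨3, rfl⟩
        exact hle2 h1
      have h4 := J.add_mem hs h2
      rwa [sub_add_cancel] at h4
    · intro a ha t
      have : (Q.comap π).IsPrime := Ideal.IsPrime.comap π
      refine rel_independent hA hp hpm i hi w hw (Q.comap π) ?_ ?_ a ha t
      · rw [Ideal.mem_comap]
        have h5 : π (MvPolynomial.C (p : ℤ)) = (p : chartRing m P η ε) := by simp
        rw [h5]
        exact hpQ
      · intro t
        rw [Ideal.mem_comap, (hπ0 _).2 (hrel0 t)]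
        exact Q.zero_mem
  · -- the other primes
    obtain ⟨N₀, s₀, hs₀⟩ := exists_e (m := m) (P := P) (G := G) i w hw |>.imp
      (fun s hs ↦ hs) |> fun ⟨s, hs⟩ ↦ (⟨0, s, hs⟩ : ∃ (N : ℕ) (s : MvPolynomial (Fin n) ℤ),
        MvPolynomial.X (Sum.inr 0) - MvPolynomial.aeval (xv n) s ∈ J)
    have hεs : ε = MvPolynomial.aeval η s₀ := by
      have h1 := hJ0 _ hs₀
      rw [map_sub, MvPolynomial.aeval_X, aeval_pt_aeval_xv η ε hε, sub_eq_zero] at h1
      exact h1
    let σ : affRing ξ i →+* chartRing m P η ε := (Subalgebra.inclusion hle).toRingHom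
    have hσv : ∀ x : affRing ξ i, ((σ x : chartRing m P η ε) : K) = x := fun x ↦ rfl
    let e : affRing ξ i := ⟨ε, s₀, hεs.symm⟩
    have hσe : σ e * π (MvPolynomial.X (Sum.inr 1)) = (m : chartRing m P η ε) := by
      apply Subtype.ext
      rw [MulMemClass.coe_mul, hσv, hπv, MvPolynomial.aeval_X]
      change ε * ((m : K) / ε) = _
      rw [mul_div_cancel₀ _ hε]
      simp
    refine isRegularLocalRing_of_localization σ (Subalgebra.inclusion_injective hle) e ?_ Q ?_ ?_
    · intro c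
      obtain ⟨t, rfl⟩ := hπs c
      obtain ⟨N, s, -, hs⟩ := hpow t
      refine ⟨N, ⟨MvPolynomial.aeval η s, s, rfl⟩, ?_⟩
      apply Subtype.ext
      rw [MulMemClass.coe_mul, SubmonoidClass.coe_pow, hσv, hπv, hσv]
      exact hs
    · intro heQ
      apply hmQ
      rw [← hσe]
      exact Q.mul_mem_right _ heQ
    · refine isRegularLocalRing_affRing hM hA hmin ξ hξ i hξi (Q.comap σ) (Or.inl ?_)
      intro hmem
      apply hmQ
      rw [Ideal.mem_comap, map_intCast] at hmem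
      exact hmem

end Pool.Agent.QuadAll
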