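import Mathlib
import Pool.Agent.QuadAll.Defs

/-!
# The charts of the model cover it

A power of every generator of degree three lies in the ideal generated by the chart generators.
-/

set_option autoImplicit false

namespace Pool.Agent.QuadAll

open Pool.Agent.QuadModel

namespace Cover

variable {n : ℕ} {m : ℤ} {P : Matrix (Fin n) (Fin n) ℤ} {S : Type} [CommRing S] (ξ : Fin n → S)

variable (m P) in
/-- The ring generated by the generators. -/
noncomputable abbrev ring : Subalgebra ℤ S :=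
  (MvPolynomial.aeval (gen m P ξ) : MvPolynomial (Gen n) ℤ →ₐ[ℤ] S).range

variable (m P) in
/-- The generators as elements of `ring`. -/
noncomputable def gg (s : Gen n) : ring m P ξ :=
  ⟨gen m P ξ s, MvPolynomial.X s, MvPolynomial.aeval_X _ _⟩

variable (m P) in
/-- The ideal generated by the chart generators. -/
noncomputable def cid : Ideal (ring m P ξ) :=
  Ideal.span (Set.range fun c : Idx n ↦ gg m P ξ (chartGen c))

theorem chart_mem (c : Idx n) : gg m P ξ (chartGen c) ∈ cid m P ξ :=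
  Ideal.subset_span ⟨c, rfl⟩

theorem pair_eq (j : {j : Fin n // 2 ≤ (j : ℕ)}) (a b : Fin n) :
    gg m P ξ (Sum.inr (Sum.inr (j, a, b))) ^ 2 =
      gg m P ξ (Sum.inr (Sum.inr (j, a, a))) * gg m P ξ (Sum.inr (Sum.inr (j, b, b))) := by
  apply Subtype.ext
  simp only [gg, gen, Sum.elim_inr, SubmonoidClass.coe_pow, MulMemClass.coe_mul]
  ring

theorem cube_eq (j a : {j : Fin n // 2 ≤ (j : ℕ)}) (b : Fin n) :
    gg m P ξ (Sum.inr (Sum.inr (j, a.1, b))) ^ 3 =
      gg m P ξ (Sum.inr (Sum.inr (j, j.1, j.1))) *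
        (gg m P ξ (Sum.inr (Sum.inr (a, b, b))) * gg m P ξ (Sum.inr (Sum.inr (a, a.1, b)))) := by
  apply Subtype.ext
  simp only [gg, gen, Sum.elim_inr, SubmonoidClass.coe_pow, MulMemClass.coe_mul]
  ring

theorem cube_eq' (j a : {j : Fin n // 2 ≤ (j : ℕ)}) (b : Fin n) :
    gg m P ξ (Sum.inr (Sum.inr (j, b, a.1))) ^ 3 =
      gg m P ξ (Sum.inr (Sum.inr (j, j.1, j.1))) *
        (gg m P ξ (Sum.inr (Sum.inr (a, b, b))) * gg m P ξ (Sum.inr (Sum.inr (a, a.1, b)))) := by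
  apply Subtype.ext
  simp only [gg, gen, Sum.elim_inr, SubmonoidClass.coe_pow, MulMemClass.coe_mul]
  ring

theorem mem_radical_of_pow {R : Type*} [CommRing R] {I : Ideal R} {x : R} (k : ℕ)
    (h : x ^ k ∈ I) : x ∈ I.radical := ⟨k, h⟩

theorem third_mem (j : {j : Fin n // 2 ≤ (j : ℕ)}) (a b : Fin n) :
    gg m P ξ (Sum.inr (Sum.inr (j, a, b))) ∈ (cid m P ξ).radical := by
  by_cases ha : 2 ≤ (a : ℕ)
  · apply mem_radical_of_pow 3
    rw [cube_eq ξ j ⟨a, ha⟩ b]
    exact Ideal.mul_mem_right _ _ (chart_mem ξ (Sum.inr (Sum.inr j)))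
  by_cases hb : 2 ≤ (b : ℕ)
  · apply mem_radical_of_pow 3
    rw [cube_eq' ξ j ⟨b, hb⟩ a]
    exact Ideal.mul_mem_right _ _ (chart_mem ξ (Sum.inr (Sum.inr j)))
  · apply mem_radical_of_pow 2
    rw [pair_eq]
    exact Ideal.mul_mem_right _ _ (chart_mem ξ (Sum.inr (Sum.inl (j, ⟨a, by omega⟩))))

theorem first_eq (a b : Fin n) (c : {j : Fin n // 2 ≤ (j : ℕ)}) :
    gg m P ξ (Sum.inl (a, b, c.1)) = (m : ring m P ξ) * gg m P ξ (Sum.inr (Sum.inr (c, a, b))) := by
  apply Subtype.ext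
  simp only [gg, gen, Sum.elim_inr, Sum.elim_inl, MulMemClass.coe_mul, SubringClass.coe_intCast]
  ring

theorem first_eq' (a c : Fin n) (b : {j : Fin n // 2 ≤ (j : ℕ)}) :
    gg m P ξ (Sum.inl (a, b.1, c)) = (m : ring m P ξ) * gg m P ξ (Sum.inr (Sum.inr (b, a, c))) := by
  apply Subtype.ext
  simp only [gg, gen, Sum.elim_inr, Sum.elim_inl, MulMemClass.coe_mul, SubringClass.coe_intCast]
  ring

theorem first_eq'' (b c : Fin n) (a : {j : Fin n // 2 ≤ (j : ℕ)}) :
    gg m P ξ (Sum.inl (a.1, b, c)) = (m : ring m P ξ) * gg m P ξ (Sum.inr (Sum.inr (a, b, c))) := by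
  apply Subtype.ext
  simp only [gg, gen, Sum.elim_inr, Sum.elim_inl, MulMemClass.coe_mul, SubringClass.coe_intCast]
  ring

theorem first_cube (a b c : Fin n) :
    gg m P ξ (Sum.inl (a, b, c)) ^ 3 = gg m P ξ (Sum.inl (a, a, a)) *
      (gg m P ξ (Sum.inl (b, b, b)) * gg m P ξ (Sum.inl (c, c, c))) := by
  apply Subtype.ext
  simp only [gg, gen, Sum.elim_inl, MulMemClass.coe_mul, SubmonoidClass.coe_pow]
  ring

theorem second_eq (k : {j : Fin n // 2 ≤ (j : ℕ)}) :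
    gg m P ξ (Sum.inr (Sum.inl k.1)) =
      ∑ a, ∑ b, (P a b : ring m P ξ) * gg m P ξ (Sum.inr (Sum.inr (k, a, b))) := by
  apply Subtype.ext
  simp only [gg, gen, Sum.elim_inr, Sum.elim_inl, AddSubmonoidClass.coe_finsetSum,
    MulMemClass.coe_mul, SubringClass.coe_intCast, qf, dotProduct, Matrix.mulVec,
    Matrix.map_apply, Finset.sum_mul, Finset.mul_sum]
  refine Finset.sum_congr rfl fun a _ ↦ Finset.sum_congr rfl fun b _ ↦ ?_
  ring

theorem gen_mem (s : Gen n) : gg m P ξ s ∈ (cid m P ξ).radical := by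
  rcases s with ⟨a, b, c⟩ | k | ⟨j, a, b⟩
  · by_cases ha : 2 ≤ (a : ℕ)
    · rw [first_eq'' ξ b c ⟨a, ha⟩]
      exact Ideal.mul_mem_left _ _ (third_mem ξ _ _ _)
    by_cases hb : 2 ≤ (b : ℕ)
    · rw [first_eq' ξ a c ⟨b, hb⟩]
      exact Ideal.mul_mem_left _ _ (third_mem ξ _ _ _)
    by_cases hc : 2 ≤ (c : ℕ)
    · rw [first_eq ξ a b ⟨c, hc⟩]
      exact Ideal.mul_mem_left _ _ (third_mem ξ _ _ _)
    · apply mem_radical_of_pow 3
      rw [first_cube]
      exact Ideal.mul_mem_right _ _ (chart_mem ξ (Sum.inl (Sum.inl ⟨a, by omega⟩)))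
  · by_cases hk : 2 ≤ (k : ℕ)
    · rw [second_eq ξ ⟨k, hk⟩]
      exact Ideal.sum_mem _ fun a _ ↦ Ideal.sum_mem _ fun b _ ↦
        Ideal.mul_mem_left _ _ (third_mem ξ _ _ _)
    · exact Ideal.le_radical (chart_mem ξ (Sum.inl (Sum.inr ⟨k, by omega⟩)))
  · exact third_mem ξ j a b

end Cover

open Cover in
/-- A power of each generator lies in the ideal generated by the chart generators. -/
theorem gen_pow_mem {n : ℕ} {m : ℤ} {P : Matrix (Fin n) (Fin n) ℤ}
    {S : Type} [CommRing S] (ξ : Fin n → S) (s : Gen n) :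
    ∃ (k : ℕ) (a : Idx n → MvPolynomial (Gen n) ℤ), 0 < k ∧
      gen m P ξ s ^ k = ∑ c, MvPolynomial.aeval (gen m P ξ) (a c) * gen m P ξ (chartGen c) := by
  obtain ⟨k, hk⟩ := gen_mem (m := m) (P := P) ξ s
  have h1 : gg m P ξ s ^ (k + 1) ∈ cid m P ξ := by
    rw [pow_succ]
    exact Ideal.mul_mem_right _ _ hk
  rw [cid, Ideal.span, Submodule.mem_span_range_iff_exists_fun] at h1
  obtain ⟨c, hc⟩ := h1
  choose a ha using fun i ↦ (c i).2
  refine ⟨k + 1, a, Nat.succ_pos k, ?_⟩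
  have h2 := congrArg Subtype.val hc
  simp only [gg, SubmonoidClass.coe_pow, AddSubmonoidClass.coe_finsetSum, smul_eq_mul,
    MulMemClass.coe_mul] at h2
  rw [← h2]
  exact Finset.sum_congr rfl fun i _ ↦ by rw [← ha i]; rfl

end Pool.Agent.QuadAll
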