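import Mathlib
import Pool.Agent.QuadAll.Defs

/-!
# Forms of degree divisible by three are polynomials in the generators, up to integers
-/

set_option autoImplicit false

namespace Pool.Agent.QuadAll

open Pool.Agent.QuadModel

namespace Frac

theorem exists_split {n t : ℕ} (d : Fin n →₀ ℕ) (hd : d.degree = t + 1) :
    ∃ (a : Fin n) (e : Fin n →₀ ℕ), d = e + Finsupp.single a 1 ∧ e.degree = t := by
  have h0 : d ≠ 0 := by
    rintro rfl
    simp at hd
  obtain ⟨a, ha⟩ := Finsupp.ne_iff.mp h0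
  have h1 : Finsupp.single a 1 ≤ d := by
    rw [Finsupp.single_le_iff]
    exact Nat.one_le_iff_ne_zero.mpr ha
  have h2 : d = (d - Finsupp.single a 1) + Finsupp.single a 1 := (tsub_add_cancel_of_le h1).symm
  refine ⟨a, d - Finsupp.single a 1, h2, ?_⟩
  rw [h2] at hd
  rw [map_add, Finsupp.degree_single] at hd
  omega

theorem exists_monomial {n : ℕ} {m : ℤ} {P : Matrix (Fin n) (Fin n) ℤ}
    {S : Type} [CommRing S] (ξ : Fin n → S) (k : ℕ) (d : Fin n →₀ ℕ) (hd : d.degree = 3 * k) :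
    ∃ q : MvPolynomial (Gen n) ℤ, q.IsHomogeneous k ∧
      MvPolynomial.aeval (gen m P ξ) q =
        (m : S) ^ k * MvPolynomial.aeval ξ (MvPolynomial.monomial d (1 : ℤ)) := by
  induction k generalizing d with
  | zero =>
    have h0 : d = 0 := by rwa [mul_zero, Finsupp.degree_eq_zero_iff] at hd
    refine ⟨1, MvPolynomial.isHomogeneous_one _ _, ?_⟩
    subst h0
    simp
  | succ k ih =>
    obtain ⟨a, d1, h1, h1'⟩ := exists_split (t := 3 * k + 2) d (by rw [hd]; ring)
    obtain ⟨b, d2, h2, h2'⟩ := exists_split (t := 3 * k + 1) d1 h1'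
    obtain ⟨c, d3, h3, h3'⟩ := exists_split (t := 3 * k) d2 h2'
    obtain ⟨q, hq, hq'⟩ := ih d3 h3'
    refine ⟨q * MvPolynomial.X (Sum.inl (a, b, c)), hq.mul (MvPolynomial.isHomogeneous_X _ _), ?_⟩
    have h4 : (MvPolynomial.monomial d (1 : ℤ) : MvPolynomial (Fin n) ℤ) =
        MvPolynomial.monomial d3 1 * MvPolynomial.X c * MvPolynomial.X b * MvPolynomial.X a := by
      rw [h1, h2, h3]
      simp only [MvPolynomial.X, MvPolynomial.monomial_mul, mul_one]
    rw [h4, map_mul, hq', MvPolynomial.aeval_X]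
    simp only [map_mul, MvPolynomial.aeval_X, gen, Sum.elim_inl]
    ring

end Frac

open Frac in
/-- Multiples of all forms of degree `3 k` are polynomials in the generators. -/
theorem exists_gen_form {n : ℕ} {m : ℤ} (hm : m ≠ 0) {P : Matrix (Fin n) (Fin n) ℤ}
    {S : Type} [CommRing S] (ξ : Fin n → S) (k : ℕ) (f : MvPolynomial (Fin n) ℤ)
    (hf : f.IsHomogeneous (3 * k)) :
    ∃ (N : ℤ) (q : MvPolynomial (Gen n) ℤ), N ≠ 0 ∧ q.IsHomogeneous k ∧
      MvPolynomial.aeval (gen m P ξ) q = (N : S) * MvPolynomial.aeval ξ f := by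
  have h1 : ∀ d : Fin n →₀ ℕ, ∃ q : MvPolynomial (Gen n) ℤ, q.IsHomogeneous k ∧
      (d ∈ f.support → MvPolynomial.aeval (gen m P ξ) q =
        (m : S) ^ k * MvPolynomial.aeval ξ (MvPolynomial.monomial d (f.coeff d))) := by
    intro d
    by_cases hd : d ∈ f.support
    · have hd' : d.degree = 3 * k := by
        have := hf (MvPolynomial.mem_support_iff.mp hd)
        rwa [Finsupp.degree_eq_weight_one]
      obtain ⟨q, hq, hq'⟩ := exists_monomial (m := m) (P := P) ξ k d hd'
      refine ⟨MvPolynomial.C (f.coeff d) * q, ?_, fun _ ↦ ?_⟩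
      · simpa using (MvPolynomial.isHomogeneous_C (Gen n) (f.coeff d)).mul hq
      · have h2 : (MvPolynomial.monomial d (f.coeff d) : MvPolynomial (Fin n) ℤ) =
            MvPolynomial.C (f.coeff d) * MvPolynomial.monomial d 1 := by
          rw [MvPolynomial.C_mul_monomial, mul_one]
        rw [h2, map_mul, map_mul, hq', MvPolynomial.aeval_C, MvPolynomial.aeval_C]
        ring
    · exact ⟨0, MvPolynomial.isHomogeneous_zero _ _ _, fun h ↦ absurd h hd⟩
  choose q hq hq' using h1
  refine ⟨m ^ k, ∑ d ∈ f.support, q d, pow_ne_zero _ hm,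
    MvPolynomial.IsHomogeneous.sum _ _ _ fun d _ ↦ hq d, ?_⟩
  rw [map_sum, Int.cast_pow]
  conv_rhs => rw [f.as_sum, map_sum, Finset.mul_sum]
  exact Finset.sum_congr rfl fun d hd ↦ hq' d hd

end Pool.Agent.QuadAll
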