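import Mathlib
import Pool.Agent.QuadModel.Fibre

/-!
# Generic fibre of `Proj`, with the degrees multiplied by `d`

If a graded ring over `ℤ` maps injectively to the `d`-th Veronese subring of a graded
`ℚ`-algebra, and every element of the Veronese subring becomes an element of the image after
multiplication by a nonzero integer, then the generic fibre of `Proj` of the first ring is `Proj`
of the second.
-/

set_option autoImplicit false

namespace Pool.Agent.QuadAll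

open AlgebraicGeometry CategoryTheory CategoryTheory.Limits HomogeneousLocalization
open Pool.Agent.QuadModel

namespace GenFibre

section Algebra

variable {A B : Type} [CommRing A] [CommRing B] [Algebra ℚ B]
  (𝒜 : ℕ → Submodule ℤ A) [GradedAlgebra 𝒜] (ℬ : ℕ → Submodule ℚ B) [GradedAlgebra ℬ]
  (ψ : A →+* B) {d : ℕ} (hdeg : ∀ k, ∀ a ∈ 𝒜 k, ψ a ∈ ℬ (d * k))

omit [GradedAlgebra 𝒜] [GradedAlgebra ℬ] in
include hdeg in
theorem exists_val (x : A) (z : Away 𝒜 x) :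
    ∃ w : Away ℬ (ψ x), w.val = Localization.awayMap ψ x z.val := by
  obtain ⟨c, rfl⟩ := HomogeneousLocalization.mk_surjective z
  obtain ⟨j, hj⟩ := c.den_mem
  refine ⟨HomogeneousLocalization.mk ⟨d * c.deg, ⟨ψ c.num, hdeg _ _ c.num.2⟩,
    ⟨ψ c.den, hdeg _ _ c.den.2⟩, ⟨j, by simp only [← hj, map_pow]⟩⟩, ?_⟩
  rw [HomogeneousLocalization.val_mk, HomogeneousLocalization.val_mk, Localization.mk_eq_mk',
    Localization.mk_eq_mk', Localization.awayMap, IsLocalization.Away.map,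
    IsLocalization.map_mk']

/-- The map of degree zero localisations induced by `ψ`. -/
noncomputable def scale (x : A) : Away 𝒜 x →+* Away ℬ (ψ x) where
  toFun z := (exists_val 𝒜 ℬ ψ hdeg x z).choose
  map_one' := by
    apply HomogeneousLocalization.val_injective
    rw [(exists_val 𝒜 ℬ ψ hdeg x 1).choose_spec, HomogeneousLocalization.val_one,
      HomogeneousLocalization.val_one, map_one]
  map_mul' y z := by
    apply HomogeneousLocalization.val_injective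
    rw [(exists_val 𝒜 ℬ ψ hdeg x (y * z)).choose_spec, HomogeneousLocalization.val_mul,
      HomogeneousLocalization.val_mul, map_mul, (exists_val 𝒜 ℬ ψ hdeg x y).choose_spec,
      (exists_val 𝒜 ℬ ψ hdeg x z).choose_spec]
  map_zero' := by
    apply HomogeneousLocalization.val_injective
    rw [(exists_val 𝒜 ℬ ψ hdeg x 0).choose_spec, HomogeneousLocalization.val_zero,
      HomogeneousLocalization.val_zero, map_zero]
  map_add' y z := by
    apply HomogeneousLocalization.val_injective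
    rw [(exists_val 𝒜 ℬ ψ hdeg x (y + z)).choose_spec, HomogeneousLocalization.val_add,
      HomogeneousLocalization.val_add, map_add, (exists_val 𝒜 ℬ ψ hdeg x y).choose_spec,
      (exists_val 𝒜 ℬ ψ hdeg x z).choose_spec]

theorem val_scale (x : A) (z : Away 𝒜 x) :
    (scale 𝒜 ℬ ψ hdeg x z).val = Localization.awayMap ψ x z.val :=
  (exists_val 𝒜 ℬ ψ hdeg x z).choose_spec

theorem scale_injective (hψ : Function.Injective ψ) (x : A) :
    Function.Injective (scale 𝒜 ℬ ψ hdeg x) := by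
  intro y z hyz
  have h1 := congrArg HomogeneousLocalization.val hyz
  rw [val_scale, val_scale] at h1
  apply HomogeneousLocalization.val_injective
  refine (Localization.awayMap_injective_iff.mpr ?_) h1
  intro a ha
  exact ⟨0, by rw [pow_zero, one_mul, (map_eq_zero_iff _ hψ).mp ha]⟩

theorem val_scale_mk {x : A} {m : ℕ} (hx : x ∈ 𝒜 m) (k : ℕ) (a : A) (ha : a ∈ 𝒜 (k • m)) :
    (scale 𝒜 ℬ ψ hdeg x (Away.mk 𝒜 hx k a ha)).val =
      Localization.mk (ψ a) (⟨ψ x ^ k, k, rfl⟩ : Submonoid.powers (ψ x)) := by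
  rw [val_scale, Away.val_mk, Localization.mk_eq_mk', Localization.mk_eq_mk',
    Localization.awayMap, IsLocalization.Away.map, IsLocalization.map_mk']
  congr 1
  apply Subtype.ext
  simp

/-- `scale` commutes with further localisation. -/
theorem awayMap_comp_scale {f g x : A} {m m' : ℕ} (hg : g ∈ 𝒜 m') (hx : x = f * g)
    (hg' : ψ g ∈ ℬ (d * m')) (hx' : ψ x = ψ f * ψ g) (hf : f ∈ 𝒜 m) :
    (awayMap ℬ hg' hx').comp (scale 𝒜 ℬ ψ hdeg f) =
      (scale 𝒜 ℬ ψ hdeg x).comp (awayMap 𝒜 hg hx) := by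
  ext z
  obtain ⟨k, a, ha, rfl⟩ := Away.mk_surjective 𝒜 hf z
  have h1 : scale 𝒜 ℬ ψ hdeg f (Away.mk 𝒜 hf k a ha) =
      Away.mk ℬ (hdeg _ _ hf) k (ψ a)
        (by have := hdeg _ _ ha; rwa [smul_eq_mul, mul_left_comm] at this) := by
    apply HomogeneousLocalization.val_injective
    rw [val_scale_mk, Away.val_mk]
  rw [RingHom.comp_apply, RingHom.comp_apply, h1, val_scale, awayMap_mk, awayMap_mk,
    Away.val_mk, Away.val_mk]
  rw [Localization.mk_eq_mk', Localization.mk_eq_mk',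
    Localization.awayMap, IsLocalization.Away.map, IsLocalization.map_mk']
  congr 1
  · simp
  · apply Subtype.ext
    simp

/-- Degree-zero localisations commute with inverting the nonzero integers. -/
theorem isLocalization_scale (hψ : Function.Injective ψ)
    (hfrac : ∀ k, ∀ z ∈ ℬ (d * k), ∃ N : ℤ, N ≠ 0 ∧ ∃ a ∈ 𝒜 k, ψ a = (N : B) * z)
    {x : A} (hx : x ∈ 𝒜 1) :
    letI := (scale 𝒜 ℬ ψ hdeg x).toAlgebra
    IsLocalization (Algebra.algebraMapSubmonoid (Away 𝒜 x) (nonZeroDivisors ℤ))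
      (Away ℬ (ψ x)) := by
  let _ := (scale 𝒜 ℬ ψ hdeg x).toAlgebra
  have hbx : ψ x ∈ ℬ (d * 1) := hdeg _ _ hx
  refine ⟨?_, ?_, ?_⟩
  · rintro ⟨_, n, hn, rfl⟩
    change IsUnit (scale 𝒜 ℬ ψ hdeg x (algebraMap ℤ (Away 𝒜 x) n))
    rw [eq_intCast, map_intCast]
    exact isUnit_intCast_away ℬ (ψ x) (nonZeroDivisors.ne_zero hn)
  · intro z
    obtain ⟨k, b, hb, rfl⟩ := Away.mk_surjective ℬ hbx z
    obtain ⟨n, hn, a, ha, hab⟩ := hfrac k b (by
      rwa [smul_eq_mul, mul_left_comm, mul_one] at hb)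
    have ha' : a ∈ 𝒜 (k • 1) := by rwa [smul_eq_mul, mul_one]
    refine ⟨(Away.mk 𝒜 hx k a ha', ⟨_, n, mem_nonZeroDivisors_of_ne_zero hn, rfl⟩), ?_⟩
    change _ * scale 𝒜 ℬ ψ hdeg x (algebraMap ℤ (Away 𝒜 x) n) =
      scale 𝒜 ℬ ψ hdeg x (Away.mk 𝒜 hx k a ha')
    rw [eq_intCast, map_intCast]
    apply HomogeneousLocalization.val_injective
    rw [val_scale_mk, HomogeneousLocalization.val_mul, HomogeneousLocalization.val_intCast,
      Away.val_mk, ← map_intCast (algebraMap B (Localization.Away (ψ x))) n,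
      ← Localization.mk_one_eq_algebraMap, Localization.mk_mul, hab, mul_one, mul_comm b]
  · intro y z hyz
    refine ⟨1, ?_⟩
    rw [scale_injective 𝒜 ℬ ψ hdeg hψ x hyz]

theorem isPullback_spec_scale (hψ : Function.Injective ψ)
    (hfrac : ∀ k, ∀ z ∈ ℬ (d * k), ∃ N : ℤ, N ≠ 0 ∧ ∃ a ∈ 𝒜 k, ψ a = (N : B) * z)
    {x : A} (hx : x ∈ 𝒜 1) :
    IsPullback (Spec.map (CommRingCat.ofHom (scale 𝒜 ℬ ψ hdeg x)))
      (Spec.map (CommRingCat.ofHom ((fromZeroRingHom ℬ (Submonoid.powers (ψ x))).comp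
        (algebraMap ℚ (ℬ 0)))))
      (Spec.map (CommRingCat.ofHom (algebraMap ℤ (Away 𝒜 x))))
      (Spec.map (CommRingCat.ofHom (algebraMap ℤ ℚ))) := by
  let _ : Algebra (Away 𝒜 x) (Away ℬ (ψ x)) := (scale 𝒜 ℬ ψ hdeg x).toAlgebra
  let _ : Algebra ℚ (Away ℬ (ψ x)) :=
    ((fromZeroRingHom ℬ (Submonoid.powers (ψ x))).comp (algebraMap ℚ (ℬ 0))).toAlgebra
  have h1 : @IsScalarTower ℤ (Away 𝒜 x) (Away ℬ (ψ x)) Algebra.toSMul Algebra.toSMul
      Algebra.toSMul := IsScalarTower.of_algebraMap_eq' (RingHom.ext_int _ _)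
  have h2 : @IsScalarTower ℤ ℚ (Away ℬ (ψ x)) Algebra.toSMul Algebra.toSMul
      Algebra.toSMul := IsScalarTower.of_algebraMap_eq' (RingHom.ext_int _ _)
  have h3 := isLocalization_scale 𝒜 ℬ ψ hdeg hψ hfrac hx
  have h4 : Algebra.IsPushout ℤ (Away 𝒜 x) ℚ (Away ℬ (ψ x)) :=
    Algebra.isPushout_of_isLocalization (nonZeroDivisors ℤ) ℚ (Away 𝒜 x) (Away ℬ (ψ x))
  exact isPullback_SpecMap_of_isPushout _ _ _ _
    (CommRingCat.isPushout_of_isPushout ℤ (Away 𝒜 x) ℚ (Away ℬ (ψ x)))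

end Algebra

section Geometry

variable {A B : Type} [CommRing A] [CommRing B] [Algebra ℚ B]
  (𝒜 : ℕ → Submodule ℤ A) [GradedAlgebra 𝒜] (ℬ : ℕ → Submodule ℚ B) [GradedAlgebra ℬ]
  (ψ : A →+* B) {d : ℕ} (hdeg : ∀ k, ∀ a ∈ 𝒜 k, ψ a ∈ ℬ (d * k))

/-- The basic opens of the images of generators of `𝒜` cover `Proj ℬ`. -/
theorem iSup_basicOpen
    (hfrac : ∀ k, ∀ z ∈ ℬ (d * k), ∃ N : ℤ, N ≠ 0 ∧ ∃ a ∈ 𝒜 k, ψ a = (N : B) * z)
    {ι : Type} (x : ι → A)
    (hcov : (HomogeneousIdeal.irrelevant 𝒜).toIdeal ≤ Ideal.span (Set.range x)) :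
    ⨆ i, Proj.basicOpen ℬ (ψ (x i)) = ⊤ := by
  refine top_le_iff.mp fun p hp ↦ TopologicalSpace.Opens.mem_iSup.mpr ?_
  by_contra! H
  have H' : ∀ i, ψ (x i) ∈ p.asHomogeneousIdeal.toIdeal := fun i ↦ by
    by_contra h
    exact H i ((Proj.mem_basicOpen ℬ (ψ (x i)) p).mpr h)
  refine p.not_irrelevant_le ?_
  rw [HomogeneousIdeal.irrelevant_le]
  intro k hk z hz
  have hz' : z ∈ ℬ k := hz
  have h1 : z ^ d ∈ ℬ (d * k) := by
    have := SetLike.pow_mem_graded (A := ℬ) d hz'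
    rwa [smul_eq_mul] at this
  obtain ⟨N, hN, a, ha, hab⟩ := hfrac k _ h1
  have h2 : a ∈ Ideal.span (Set.range x) :=
    hcov (HomogeneousIdeal.mem_irrelevant_of_mem 𝒜 hk ha)
  have h3 : ψ a ∈ p.asHomogeneousIdeal.toIdeal := by
    have h4 : Ideal.span (Set.range x) ≤ p.asHomogeneousIdeal.toIdeal.comap ψ := by
      rw [Ideal.span_le, Set.range_subset_iff]
      intro i
      exact H' i
    exact h4 h2
  have h5 : z ^ d ∈ p.asHomogeneousIdeal.toIdeal := by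
    have h6 : z ^ d = algebraMap ℚ B ((N : ℚ)⁻¹) * ψ a := by
      rw [hab, ← mul_assoc, ← map_intCast (algebraMap ℚ B), ← map_mul, inv_mul_cancel₀
        (by exact_mod_cast hN), map_one, one_mul]
    rw [h6]
    exact Ideal.mul_mem_left _ _ h3
  exact p.isPrime.mem_of_pow_mem _ h5

/-- The open cover of `Proj ℬ` by the spectra of the degree zero localisations at the images of
the generators of `𝒜`. -/
noncomputable def cov (hd : 0 < d) {ι : Type} (x : ι → A) (hx : ∀ i, x i ∈ 𝒜 1)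
    (htop : ⨆ i, Proj.basicOpen ℬ (ψ (x i)) = ⊤) : (Proj ℬ).AffineOpenCover where
  I₀ := ι
  X i := .of (Away ℬ (ψ (x i)))
  f i := Proj.awayι ℬ (ψ (x i)) (hdeg _ _ (hx i)) (Nat.mul_pos hd one_pos)
  idx p := (TopologicalSpace.Opens.mem_iSup.mp (htop.ge (Set.mem_univ p))).choose
  covers p := by
    change p ∈ (Proj.awayι ℬ _ _ _).opensRange
    rw [Proj.opensRange_awayι]
    exact (TopologicalSpace.Opens.mem_iSup.mp (htop.ge (Set.mem_univ p))).choose_spec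

/-- The charts of the morphism `Proj ℬ ⟶ Proj 𝒜`. -/
noncomputable def chart {m : ℕ} (hm : 0 < m) (x : A) (hx : x ∈ 𝒜 m) :
    Spec (.of (Away ℬ (ψ x))) ⟶ Proj 𝒜 :=
  Spec.map (CommRingCat.ofHom (scale 𝒜 ℬ ψ hdeg x)) ≫ Proj.awayι 𝒜 x hx hm

theorem chart_left (hd : 0 < d) (x y : A) (hx : x ∈ 𝒜 1) (hy : y ∈ 𝒜 1) :
    pullback.fst (Proj.awayι ℬ (ψ x) (hdeg _ _ hx) (Nat.mul_pos hd one_pos))
      (Proj.awayι ℬ (ψ y) (hdeg _ _ hy) (Nat.mul_pos hd one_pos)) ≫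
        chart 𝒜 ℬ ψ hdeg one_pos x hx =
    (Proj.pullbackAwayιIso ℬ (hdeg _ _ hx) (Nat.mul_pos hd one_pos) (hdeg _ _ hy)
      (Nat.mul_pos hd one_pos) (map_mul ψ x y)).hom ≫
        chart 𝒜 ℬ ψ hdeg two_pos (x * y) (SetLike.mul_mem_graded hx hy) := by
  rw [← Iso.inv_comp_eq, Proj.pullbackAwayιIso_inv_fst_assoc, chart, chart]
  rw [← Proj.SpecMap_awayMap_awayι 𝒜 hx one_pos hy rfl, ← Spec.map_comp_assoc,
    ← Spec.map_comp_assoc, ← CommRingCat.ofHom_comp, ← CommRingCat.ofHom_comp,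
    awayMap_comp_scale 𝒜 ℬ ψ hdeg hy rfl (hdeg _ _ hy) (map_mul ψ x y) hx]

theorem chart_right (hd : 0 < d) (x y : A) (hx : x ∈ 𝒜 1) (hy : y ∈ 𝒜 1) :
    pullback.snd (Proj.awayι ℬ (ψ x) (hdeg _ _ hx) (Nat.mul_pos hd one_pos))
      (Proj.awayι ℬ (ψ y) (hdeg _ _ hy) (Nat.mul_pos hd one_pos)) ≫
        chart 𝒜 ℬ ψ hdeg one_pos y hy =
    (Proj.pullbackAwayιIso ℬ (hdeg _ _ hx) (Nat.mul_pos hd one_pos) (hdeg _ _ hy)
      (Nat.mul_pos hd one_pos) (map_mul ψ x y)).hom ≫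
        chart 𝒜 ℬ ψ hdeg two_pos (x * y) (SetLike.mul_mem_graded hx hy) := by
  rw [← Iso.inv_comp_eq, Proj.pullbackAwayιIso_inv_snd_assoc, chart, chart]
  rw [← Proj.SpecMap_awayMap_awayι 𝒜 hy one_pos hx (mul_comm x y), ← Spec.map_comp_assoc,
    ← Spec.map_comp_assoc, ← CommRingCat.ofHom_comp, ← CommRingCat.ofHom_comp,
    awayMap_comp_scale 𝒜 ℬ ψ hdeg hx (mul_comm x y) (hdeg _ _ hx)
      ((map_mul ψ x y).trans (mul_comm _ _)) hy]

theorem exists_hom (hd : 0 < d) {ι : Type} (x : ι → A) (hx : ∀ i, x i ∈ 𝒜 1)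
    (htop : ⨆ i, Proj.basicOpen ℬ (ψ (x i)) = ⊤) :
    ∃ π : Proj ℬ ⟶ Proj 𝒜, ∀ i,
      Proj.awayι ℬ (ψ (x i)) (hdeg _ _ (hx i)) (Nat.mul_pos hd one_pos) ≫ π =
        chart 𝒜 ℬ ψ hdeg one_pos (x i) (hx i) := by
  refine ⟨(cov 𝒜 ℬ ψ hdeg hd x hx htop).openCover.glueMorphisms
    (fun i ↦ chart 𝒜 ℬ ψ hdeg one_pos (x i) (hx i)) ?_, ?_⟩
  · intro i j
    exact (chart_left 𝒜 ℬ ψ hdeg hd _ _ (hx i) (hx j)).trans
      (chart_right 𝒜 ℬ ψ hdeg hd _ _ (hx i) (hx j)).symm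
  · intro i
    exact (cov 𝒜 ℬ ψ hdeg hd x hx htop).openCover.ι_glueMorphisms _ _ i

theorem preimage_basicOpen (hd : 0 < d) {ι : Type} (x : ι → A) (hx : ∀ i, x i ∈ 𝒜 1)
    (htop : ⨆ i, Proj.basicOpen ℬ (ψ (x i)) = ⊤) (π : Proj ℬ ⟶ Proj 𝒜)
    (hπ : ∀ i, Proj.awayι ℬ (ψ (x i)) (hdeg _ _ (hx i)) (Nat.mul_pos hd one_pos) ≫ π =
        chart 𝒜 ℬ ψ hdeg one_pos (x i) (hx i)) (i : ι) :
    π ⁻¹ᵁ Proj.basicOpen 𝒜 (x i) = Proj.basicOpen ℬ (ψ (x i)) := by
  have key : ∀ j, Proj.awayι ℬ (ψ (x j)) (hdeg _ _ (hx j)) (Nat.mul_pos hd one_pos) ⁻¹ᵁ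
      (π ⁻¹ᵁ Proj.basicOpen 𝒜 (x i)) =
      Proj.awayι ℬ (ψ (x j)) (hdeg _ _ (hx j)) (Nat.mul_pos hd one_pos) ⁻¹ᵁ
        (Proj.basicOpen ℬ (ψ (x i))) := by
    intro j
    rw [← Scheme.Hom.comp_preimage, hπ, chart, Scheme.Hom.comp_preimage,
      Proj.awayι_preimage_basicOpen 𝒜 (hx j) one_pos (hx i) one_pos,
      Proj.awayι_preimage_basicOpen ℬ (hdeg _ _ (hx j)) (Nat.mul_pos hd one_pos)
        (hdeg _ _ (hx i)) (Nat.mul_pos hd one_pos)]
    have h1 : Away.isLocalizationElem (hdeg _ _ (hx j)) (hdeg _ _ (hx i)) =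
        (scale 𝒜 ℬ ψ hdeg (x j) (Away.isLocalizationElem (hx j) (hx i))) ^ (d * 1) := by
      apply HomogeneousLocalization.val_injective
      rw [HomogeneousLocalization.val_pow, Away.isLocalizationElem, Away.isLocalizationElem,
        val_scale_mk, Away.val_mk, Localization.mk_pow]
      congr 1
      · simp
      · apply Subtype.ext
        simp
    rw [h1, PrimeSpectrum.basicOpen_pow _ _ (Nat.mul_pos hd one_pos)]
    rfl
  ext p
  have hp : p ∈ ⨆ i, Proj.basicOpen ℬ (ψ (x i)) := by rw [htop]; trivial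
  obtain ⟨j, hj⟩ := TopologicalSpace.Opens.mem_iSup.mp hp
  rw [← Proj.opensRange_awayι ℬ (ψ (x j)) (hdeg _ _ (hx j)) (Nat.mul_pos hd one_pos)] at hj
  obtain ⟨q, rfl⟩ := hj
  have := congrArg (fun U : TopologicalSpace.Opens _ ↦ q ∈ U) (key j)
  exact iff_of_eq this

end Geometry

end GenFibre

open GenFibre in
/-- The generic fibre of `Proj 𝒜` is `Proj ℬ` if `𝒜` maps to the `d`-th Veronese subring of `ℬ`
and is generic in it. -/
theorem generic_fibre_mul {A B : Type} [CommRing A] [CommRing B] [Algebra ℚ B]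
    (𝒜 : ℕ → Submodule ℤ A) [GradedAlgebra 𝒜] (ℬ : ℕ → Submodule ℚ B) [GradedAlgebra ℬ]
    (ψ : A →+* B) (hψ : Function.Injective ψ) {d : ℕ} (hd : 0 < d)
    (hdeg : ∀ k, ∀ a ∈ 𝒜 k, ψ a ∈ ℬ (d * k))
    (hfrac : ∀ k, ∀ z ∈ ℬ (d * k), ∃ N : ℤ, N ≠ 0 ∧ ∃ a ∈ 𝒜 k, ψ a = (N : B) * z)
    {ι : Type} (x : ι → A) (hx : ∀ i, x i ∈ 𝒜 1)
    (hcov : (HomogeneousIdeal.irrelevant 𝒜).toIdeal ≤ Ideal.span (Set.range x)) :
    Nonempty (pullback (specZIsTerminal.from (Proj 𝒜))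
      (specZIsTerminal.from (Spec (CommRingCat.of ℚ))) ≅ Proj ℬ) := by
  set tY := specZIsTerminal.from (Proj 𝒜) with htY
  set tQ := specZIsTerminal.from (Spec (CommRingCat.of ℚ)) with htQ
  have htop := iSup_basicOpen 𝒜 ℬ ψ hfrac x hcov
  obtain ⟨π, hπ⟩ := exists_hom 𝒜 ℬ ψ hdeg hd x hx htop
  let s : Proj ℬ ⟶ Spec (CommRingCat.of ℚ) :=
    Proj.toSpecZero ℬ ≫ Spec.map (CommRingCat.ofHom (algebraMap ℚ (ℬ 0)))
  let t : Proj ℬ ⟶ pullback tY tQ := pullback.lift π s (specZIsTerminal.hom_ext _ _)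
  have ht1 : t ≫ pullback.fst tY tQ = π := pullback.lift_fst _ _ _
  have ht2 : t ≫ pullback.snd tY tQ = s := pullback.lift_snd _ _ _
  have hiso : IsIso t := by
    let 𝒱 : (Proj 𝒜).OpenCover :=
      (Proj.affineOpenCoverOfIrrelevantLESpan 𝒜 x hx (fun _ ↦ one_pos) hcov).openCover
    let 𝒰 := 𝒱.pullback₁ (pullback.fst tY tQ)
    change MorphismProperty.isomorphisms Scheme t
    refine IsZariskiLocalAtTarget.of_openCover 𝒰 fun i ↦ ?_
    -- the chart `Spec B_i` of `Proj ℬ`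
    let a := Proj.awayι ℬ (ψ (x i)) (hdeg _ _ (hx i)) (Nat.mul_pos hd one_pos)
    let c := Proj.awayι 𝒜 (x i) (hx i) one_pos
    let g := Spec.map (CommRingCat.ofHom (scale 𝒜 ℬ ψ hdeg (x i)))
    have hcomm : a ≫ π = g ≫ c := hπ i
    have houter : IsPullback a g π c := by
      refine (IsOpenImmersion.isPullback g a c π hcomm ?_).flip
      rw [Proj.opensRange_awayι, Proj.opensRange_awayι]
      exact preimage_basicOpen 𝒜 ℬ ψ hdeg hd x hx htop π hπ i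
    let b : Spec (.of (Away ℬ (ψ (x i)))) ⟶ pullback (pullback.fst tY tQ) c :=
      pullback.lift (a ≫ t) g (by rw [Category.assoc, ht1, hcomm])
    have hb1 : b ≫ pullback.fst (pullback.fst tY tQ) c = a ≫ t := pullback.lift_fst _ _ _
    have hb2 : b ≫ pullback.snd (pullback.fst tY tQ) c = g := pullback.lift_snd _ _ _
    have hleft : IsPullback a b t (pullback.fst (pullback.fst tY tQ) c) := by
      refine IsPullback.of_bot (v₂₁ := pullback.snd (pullback.fst tY tQ) c)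
        (v₂₂ := pullback.fst tY tQ) (h₃₁ := c) ?_ hb1.symm (IsPullback.of_hasPullback _ _)
      rw [hb2, ht1]
      exact houter
    have hU : IsPullback (pullback.snd (pullback.fst tY tQ) c)
        (pullback.fst (pullback.fst tY tQ) c ≫ pullback.snd tY tQ) (c ≫ tY) tQ :=
      (IsPullback.of_hasPullback (pullback.fst tY tQ) c).flip.paste_vert
        (IsPullback.of_hasPullback tY tQ)
    have hZ := isPullback_spec_scale 𝒜 ℬ ψ hdeg hψ hfrac (hx i)
    have e1 : Spec.map (CommRingCat.ofHom (algebraMap ℤ (Away 𝒜 (x i)))) = c ≫ tY :=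
      specZIsTerminal.hom_ext _ _
    have e2 : Spec.map (CommRingCat.ofHom (algebraMap ℤ ℚ)) = tQ :=
      specZIsTerminal.hom_ext _ _
    rw [e1, e2] at hZ
    have hb : b = (hZ.isoIsPullback _ _ hU).hom := by
      apply hU.hom_ext
      · rw [IsPullback.isoIsPullback_hom_fst, hb2]
      · exact hom_spec_rat_ext _ _
    have hbiso : IsIso b := by
      rw [hb]
      infer_instance
    have hsnd : Scheme.Cover.pullbackHom 𝒰 t i = hleft.isoPullback.inv ≫ b :=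
      (hleft.isoPullback_inv_snd).symm
    have h3 : IsIso (hleft.isoPullback.inv ≫ b) := IsIso.comp_isIso
    rw [hsnd]
    exact h3
  exact ⟨(asIso t).symm⟩

end Pool.Agent.QuadAll
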