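import Mathlib
import Pool.Agent.QuadModel.Main
import Pool.Agent.QuadAll.Defs
import Pool.Agent.QuadAll.Cover
import Pool.Agent.QuadAll.Frac
import Pool.Agent.QuadAll.Family
import Pool.Agent.QuadAll.Affine
import Pool.Agent.QuadAll.ChartReg
import Pool.Agent.QuadAll.ChartRange
import Pool.Agent.QuadAll.Arith

set_option autoImplicit false

/-!
# Regular projective flat models of all smooth quadrics over the rational numbers
-/

namespace Pool.Agent.QuadAll

open Matrix Module HomogeneousLocalization AlgebraicGeometry CategoryTheory CategoryTheory.Limits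
open Pool.Agent.QuadModel

namespace Main

variable {n : ℕ}

/-- The map from the integral to the rational coordinate ring. -/
theorem exists_psi (hn : 3 ≤ n) {M : Matrix (Fin n) (Fin n) ℚ} (hM : M.det ≠ 0)
    {D : Matrix (Fin n) (Fin n) ℤ} (hD : IsMin M D)
    (B : Type) [CommRing B] [Algebra ℚ B] (ℬ : ℕ → Submodule ℚ B) [GradedAlgebra ℬ]
    (y : Fin n → B) (hy : ∀ i, y i ∈ ℬ 1)
    (hsurj : Function.Surjective (MvPolynomial.aeval y : MvPolynomial (Fin n) ℚ →ₐ[ℚ] B))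
    (hker : ∀ f : MvPolynomial (Fin n) ℚ, MvPolynomial.aeval y f = 0 ↔ qpoly M ∣ f) :
    ∃ ψ : QRing (qpoly D) →+* B, Function.Injective ψ ∧
      (∀ k, ∀ a ∈ qgr (qpoly D) k, ψ a ∈ ℬ k) ∧
      ∀ k, ∀ z ∈ ℬ k, ∃ N : ℤ, N ≠ 0 ∧ ∃ w : MvPolynomial (Fin n) ℤ, w.IsHomogeneous k ∧
        ψ (qmk (qpoly D) w) = (N : B) * z := by
  classical
  set F := qpoly D with hFdef
  have hF : Prime F := hD.prime_qpoly hn hM
  have hFh : F.IsHomogeneous 2 := isHomogeneous_qpoly D
  obtain ⟨c, g, hc, hg, hcg⟩ := hD.1.exists_subst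
  have hgu : IsUnit g.det := isUnit_iff_ne_zero.mpr hg
  let σ := lsub g⁻¹
  let τ := lsub g
  have hστ : ∀ f, σ (τ f) = f := fun f ↦ by
    have : σ.comp τ = AlgHom.id ℚ _ := by
      rw [lsub_comp, Matrix.mul_nonsing_inv _ hgu, lsub_one]
    exact congrArg (fun h : MvPolynomial (Fin n) ℚ →ₐ[ℚ] MvPolynomial (Fin n) ℚ ↦ h f) this
  have hτσ : ∀ f, τ (σ f) = f := fun f ↦ by
    have : τ.comp σ = AlgHom.id ℚ _ := by
      rw [lsub_comp, Matrix.nonsing_inv_mul _ hgu, lsub_one]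
    exact congrArg (fun h : MvPolynomial (Fin n) ℚ →ₐ[ℚ] MvPolynomial (Fin n) ℚ ↦ h f) this
  let φB : MvPolynomial (Fin n) ℚ →ₐ[ℚ] B := MvPolynomial.aeval y
  have hφB : ∀ n f, f.IsHomogeneous n → φB f ∈ ℬ n := aeval_mem_graded ℬ y hy
  have hker' : ∀ f, φB (σ f) = 0 ↔ MvPolynomial.map (Int.castRingHom ℚ) F ∣ f := by
    intro f
    rw [hker, hcg]
    constructor
    · rintro ⟨v, hv⟩
      refine ⟨MvPolynomial.C c⁻¹ * τ v, ?_⟩
      have h1 : f = τ (qpoly M) * τ v := by rw [← hτσ f, hv, map_mul]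
      calc f = (MvPolynomial.C (c * c⁻¹)) * (τ (qpoly M) * τ v) := by
            rw [mul_inv_cancel₀ hc, map_one, one_mul]
            exact h1
        _ = _ := by rw [map_mul]; ring
    · rintro ⟨v, hv⟩
      refine ⟨MvPolynomial.C c * σ v, ?_⟩
      rw [hv, map_mul, map_mul, hστ, ← MvPolynomial.algebraMap_eq, AlgHom.commutes]
      ring
  let ψ₀ : MvPolynomial (Fin n) ℤ →+* B :=
    (φB.comp σ : MvPolynomial (Fin n) ℚ →+* B).comp (MvPolynomial.map (Int.castRingHom ℚ))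
  have hψ₀ : ∀ f, ψ₀ f = 0 ↔ f ∈ Ideal.span {F} := by
    intro f
    rw [Ideal.mem_span_singleton]
    refine (hker' _).trans ⟨dvd_of_map_dvd hF two_pos hFh, fun h ↦ map_dvd _ h⟩
  let ψ : QRing F →+* B := Ideal.Quotient.lift (Ideal.span {F}) ψ₀ fun a ha ↦ (hψ₀ a).mpr ha
  refine ⟨ψ, ?_, ?_, ?_⟩
  · refine (injective_iff_map_eq_zero ψ).mpr fun a ha ↦ ?_
    obtain ⟨f, rfl⟩ := Ideal.Quotient.mk_surjective a
    exact Ideal.Quotient.eq_zero_iff_mem.mpr ((hψ₀ f).mp ha)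
  · rintro k _ ⟨f, hf, rfl⟩
    exact hφB k _ (lsub_isHomogeneous _ (MvPolynomial.IsHomogeneous.map hf _))
  · intro k z hz
    obtain ⟨f, hf⟩ := hsurj z
    have h1 : φB (MvPolynomial.homogeneousComponent k f) = z := by
      have h2 : (DirectSum.decompose ℬ z k : B) = z := DirectSum.decompose_of_mem_same ℬ hz
      rw [← h2, ← hf]
      exact (decompose_aeval ℬ y hy f k).symm
    obtain ⟨n', hn', w, hw⟩ := exists_int_multiple (τ (MvPolynomial.homogeneousComponent k f))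
    refine ⟨n', hn', w, isHomogeneous_of_map ?_, ?_⟩
    · rw [hw]
      exact (lsub_isHomogeneous _
        (MvPolynomial.homogeneousComponent_isHomogeneous k f)).C_mul _
    · change φB (σ (MvPolynomial.map (Int.castRingHom ℚ) w)) = _
      rw [hw, map_mul, hστ, map_mul, h1, ← MvPolynomial.algebraMap_eq, AlgHom.commutes,
        AlgHom.commutes, map_intCast]

theorem gen_map {R R' : Type*} [CommRing R] [CommRing R'] (f : R →+* R') (m : ℤ)
    (P : Matrix (Fin n) (Fin n) ℤ) (ξ : Fin n → R) (s : Gen n) :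
    f (gen m P ξ s) = gen m P (fun k ↦ f (ξ k)) s := by
  have hq : f (qf (P.map (Int.cast : ℤ → R)) ξ) =
      qf (P.map (Int.cast : ℤ → R')) (fun k ↦ f (ξ k)) := by
    rw [← qf_map f (P.map (Int.cast : ℤ → R)) ξ]
    congr 1
    ext i j
    simp
  rcases s with ⟨a, b, c⟩ | k | ⟨j, a, b⟩
  · simp [gen]
  · simp only [gen, Sum.elim_inr, Sum.elim_inl, map_mul, hq]
  · simp [gen]

/-- Regularity of the charts, over a field. -/
theorem isRegularRing_gen {M : Matrix (Fin n) (Fin n) ℚ} (hM : M.det ≠ 0) {m : ℤ}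
    {P G : Matrix (Fin n) (Fin n) ℤ} (hA : Adapted m P G) (hmin : IsMin M (m • P + G))
    {K : Type} [Field K] [CharZero K] (ξ : Fin n → K)
    (hξ : ∀ f : MvPolynomial (Fin n) ℤ, MvPolynomial.aeval ξ f = 0 ↔ qpoly (m • P + G) ∣ f)
    (hξ0 : ∀ i, ξ i ≠ 0) (hgen : ∀ c : Idx n, gen m P ξ (chartGen c) ≠ 0) (c : Idx n) :
    IsRegularRing (Algebra.adjoin ℤ
      (Set.range fun s : Gen n ↦ gen m P ξ s / gen m P ξ (chartGen c))) := by
  refine isRegularRing_adjoin_gen ξ hgen ?_ ?_ c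
  · intro i hi w hw ε hε hw1
    exact isRegularRing_chartRing hM hA hmin ξ hξ i hi (hξ0 i) w hw ε hε hw1
  · intro j hj
    have hnoeth : IsNoetherianRing (affRing ξ j) :=
      isNoetherianRing_of_surjective (MvPolynomial (Fin n) ℤ) (affRing ξ j)
        (MvPolynomial.aeval (fun k ↦ ξ k / ξ j) :
          MvPolynomial (Fin n) ℤ →ₐ[ℤ] K).rangeRestrict.toRingHom
        (AlgHom.rangeRestrict_surjective _)
    rw [isRegularRing_iff]
    intro Q hQ
    exact isRegularLocalRing_affRing hM hA hmin ξ hξ j (hξ0 j) Q (Or.inr hj)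

/-- Regularity of the charts, for elements of a domain. -/
theorem isRegularRing_frac {M : Matrix (Fin n) (Fin n) ℚ} (hM : M.det ≠ 0) {m : ℤ}
    {P G : Matrix (Fin n) (Fin n) ℤ} (hA : Adapted m P G) (hmin : IsMin M (m • P + G))
    {S K : Type} [CommRing S] [Field K] [Algebra S K] (hinj : Function.Injective (algebraMap S K))
    [CharZero S] (x : Fin n → S)
    (hx : ∀ f : MvPolynomial (Fin n) ℤ, MvPolynomial.aeval x f = 0 ↔ qpoly (m • P + G) ∣ f)
    (hx0 : ∀ i, x i ≠ 0) (hgen : ∀ c : Idx n, gen m P x (chartGen c) ≠ 0) (c : Idx n)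
    (inst : Algebra ℤ K) :
    IsRegularRing (Algebra.adjoin ℤ (Set.range fun s : Gen n ↦
      algebraMap S K (gen m P x s) / algebraMap S K (gen m P x (chartGen c)))) := by
  obtain rfl : inst = Ring.toIntAlgebra K := Subsingleton.elim _ _
  have hK0 : CharZero K := charZero_of_injective_algebraMap hinj
  have h1 : (fun s : Gen n ↦
      algebraMap S K (gen m P x s) / algebraMap S K (gen m P x (chartGen c))) =
        fun s ↦ gen m P (fun k ↦ algebraMap S K (x k)) s /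
          gen m P (fun k ↦ algebraMap S K (x k)) (chartGen c) := by
    funext s
    rw [gen_map, gen_map]
  rw [h1]
  refine isRegularRing_gen hM hA hmin (fun k ↦ algebraMap S K (x k)) ?_ ?_ ?_ c
  · intro f
    have h2 : MvPolynomial.aeval (fun k ↦ algebraMap S K (x k)) f =
        algebraMap S K (MvPolynomial.aeval x f) :=
      aeval_eq_of_int _ ((algebraMap S K).comp (MvPolynomial.aeval x).toRingHom)
        (fun i ↦ by simp) f
    rw [h2, map_eq_zero_iff _ hinj]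
    exact hx f
  · intro i h
    exact hx0 i (hinj (by rw [map_zero]; exact h))
  · intro c h
    rw [← gen_map] at h
    exact hgen c (hinj (by rw [map_zero]; exact h))

end Main

open Main

/-- Every smooth quadric over `ℚ` has a regular projective flat model over `ℤ`. -/
theorem exists_model_adapted {n : ℕ} (hn : 3 ≤ n) {M : Matrix (Fin n) (Fin n) ℚ}
    (hM : M.det ≠ 0) {m : ℤ} {P G : Matrix (Fin n) (Fin n) ℤ} (hA : Adapted m P G)
    (hmin : IsMin M (m • P + G)) (hmu : ¬ IsUnit m)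
    (B : Type) [CommRing B] [Algebra ℚ B] (ℬ : ℕ → Submodule ℚ B) [GradedAlgebra ℬ]
    (y : Fin n → B) (hy : ∀ i, y i ∈ ℬ 1)
    (hsurj : Function.Surjective (MvPolynomial.aeval y : MvPolynomial (Fin n) ℚ →ₐ[ℚ] B))
    (hker : ∀ f : MvPolynomial (Fin n) ℚ, MvPolynomial.aeval y f = 0 ↔ qpoly M ∣ f) :
    ∃ (Y : Scheme),
        IsIntegral Y ∧
        IsLocallyNoetherian Y ∧
        (∀ (U : Y.affineOpens) (p : PrimeSpectrum (Y.presheaf.obj (Opposite.op U.1))),
          ringKrullDim (Localization.AtPrime p.asIdeal) =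
            (((Module.finrank (IsLocalRing.ResidueField (Localization.AtPrime p.asIdeal))
              (IsLocalRing.CotangentSpace (Localization.AtPrime p.asIdeal)) : ℕ) : ℕ∞) :
                WithBot ℕ∞)) ∧
        (∃ (A : Type) (_ : CommRing A) (𝒜 : ℕ → Submodule ℤ A) (_ : GradedAlgebra 𝒜),
          (∀ a ∈ 𝒜 0, ∃ n : ℤ, (n : A) = a) ∧
          (∃ s : Finset A, (∀ a ∈ s, a ∈ 𝒜 1) ∧ Algebra.adjoin ℤ (s : Set A) = ⊤) ∧
          Nonempty (Y ≅ Proj 𝒜)) ∧
        Flat (specZIsTerminal.from Y) ∧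
        Nonempty (pullback (specZIsTerminal.from Y)
            (specZIsTerminal.from (Spec (CommRingCat.of ℚ))) ≅ Proj ℬ) := by
  classical
  set F := qpoly (m • P + G) with hFdef
  have hF : Prime F := hmin.prime_qpoly hn hM
  have hFh : F.IsHomogeneous 2 := isHomogeneous_qpoly _
  have hFd : F.totalDegree = 2 := hFh.totalDegree hF.ne_zero
  let _ : GradedAlgebra (qgr F) := qgraded F ⟨2, hFh⟩
  have hdom : IsDomain (QRing F) := isDomain_qring hF
  have hchar : CharZero (QRing F) := charZero_qring (by omega)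
  let x : Fin n → QRing F := fun i ↦ qmk F (MvPolynomial.X i)
  have hx : ∀ i, x i ∈ qgr F 1 := fun i ↦ qmk_mem F (MvPolynomial.isHomogeneous_X ℤ i)
  have hx0 : ∀ i, x i ≠ 0 := fun i ↦ qmk_X_ne_zero (by omega) i
  have hxf : ∀ f : MvPolynomial (Fin n) ℤ, MvPolynomial.aeval x f = qmk F f := by
    intro f
    exact aeval_eq_of_int x (Ideal.Quotient.mk (Ideal.span {F})) (fun i ↦ rfl) f
  -- `P` does not vanish on the quadric
  have hP0 : qf (P.map (Int.cast : ℤ → QRing F)) x ≠ 0 := by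
    intro h
    have h1 : qmk F (qpoly P) = 0 := by
      rw [← hxf, MvPolynomial.aeval_def, eval₂_qpoly, ← h]
      congr 1
    have h2 : F ∣ qpoly P :=
      Ideal.mem_span_singleton.1 (Ideal.Quotient.eq_zero_iff_mem.1 h1)
    obtain ⟨u, hu⟩ := h2
    let e₀ : Fin n → ℤ := Pi.single ⟨0, by omega⟩ 1
    have h3 := congrArg (MvPolynomial.eval e₀) hu
    rw [map_mul, eval_qpoly, hFdef, eval_qpoly] at h3
    have h4 : qf (m • P + G) e₀ = m * qf P e₀ := by
      have h5 : G ⟨0, by omega⟩ ⟨0, by omega⟩ = 0 := hA.supp _ _ (Or.inl (by simp))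
      simp only [e₀, qf_single, Matrix.add_apply, Matrix.smul_apply, smul_eq_mul, h5, add_zero]
    rw [h4] at h3
    obtain ⟨p, hp, hpm⟩ : ∃ p : ℕ, p.Prime ∧ (p : ℤ) ∣ m := by
      have h6 : m.natAbs ≠ 1 := fun h ↦ hmu (Int.isUnit_iff_natAbs_eq.2 h)
      obtain ⟨p, hp, hd⟩ := Nat.exists_prime_and_dvd h6
      exact ⟨p, hp, Int.natCast_dvd.2 hd⟩
    have h5 : qf P e₀ ≠ 0 := by
      intro h0
      have h6 := hA.aniso p hp hpm e₀ (fun k hk ↦ by
        refine Pi.single_eq_of_ne (fun h ↦ ?_) _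
        rw [h] at hk
        simp at hk) (by rw [h0]; exact dvd_zero _) ⟨0, by omega⟩
      simp only [e₀, Pi.single_eq_same] at h6
      have h7 : (p : ℕ) ∣ 1 := by exact_mod_cast h6
      exact hp.one_lt.ne' (Nat.dvd_one.1 h7)
    apply hmu
    refine IsUnit.of_mul_eq_one (MvPolynomial.eval e₀ u) ?_
    apply mul_left_cancel₀ h5
    linear_combination -h3
  have hm0 : (m : QRing F) ≠ 0 := by exact_mod_cast hA.ne_zero
  have hc : ∀ c : Idx n, gen m P x (chartGen c) ≠ 0 := by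
    rintro ((i | i) | (⟨j, i⟩ | j))
    · exact mul_ne_zero (mul_ne_zero (mul_ne_zero hm0 (hx0 _)) (hx0 _)) (hx0 _)
    · exact mul_ne_zero hP0 (hx0 _)
    · exact mul_ne_zero (mul_ne_zero (hx0 _) (hx0 _)) (hx0 _)
    · exact mul_ne_zero (mul_ne_zero (hx0 _) (hx0 _)) (hx0 _)
  have hmem2 : qf (P.map (Int.cast : ℤ → QRing F)) x ∈ qgr F 2 := by
    have h1 : qf (P.map (Int.cast : ℤ → QRing F)) x = qmk F (qpoly P) := by
      rw [← hxf, MvPolynomial.aeval_def, eval₂_qpoly]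
      congr 1
    rw [h1]
    exact qmk_mem F (isHomogeneous_qpoly P)
  have hmul : ∀ {a b : QRing F} {k l : ℕ}, a ∈ qgr F k → b ∈ qgr F l → a * b ∈ qgr F (k + l) :=
    fun ha hb ↦ SetLike.GradedMul.mul_mem ha hb
  have hv : ∀ s, gen m P x s ∈ qgr F 3 := by
    rintro (⟨a, b, c⟩ | k | ⟨j, a, b⟩)
    · have h1 : gen m P x (Sum.inl (a, b, c)) = m • (x a * x b * x c) := by
        simp only [gen, Sum.elim_inl, zsmul_eq_mul]
        ring
      rw [h1]
      exact Submodule.smul_mem _ _ (hmul (hmul (hx a) (hx b)) (hx c))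
    · exact hmul hmem2 (hx k)
    · exact hmul (hmul (hx _) (hx a)) (hx b)
  have hxk : ∀ f : MvPolynomial (Fin n) ℤ, MvPolynomial.aeval x f = 0 ↔ F ∣ f := by
    intro f
    rw [hxf, ← Ideal.mem_span_singleton]
    exact Ideal.Quotient.eq_zero_iff_mem
  obtain ⟨ψ, hψ, hψd, hψf⟩ := exists_psi hn hM hmin B ℬ y hy hsurj hker
  have hne : Nonempty (Idx n) := ⟨Sum.inl (Sum.inl ⟨⟨0, by omega⟩, by simp⟩)⟩
  refine exists_model_of_family (qgr F) (gen m P x) (d := 3) (by norm_num) hv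
    (chartGen (n := n)) hc (fun s ↦ gen_pow_mem x s)
    (fun c ↦ isRegularRing_frac hM hA hmin (IsFractionRing.injective _ _) x hxk hx0 hc c _)
    ℬ ψ hψ hψd ?_
  intro k z hz
  obtain ⟨N, hN, w, hw, hwz⟩ := hψf (3 * k) z hz
  obtain ⟨N', q, hN', hq, hqw⟩ := exists_gen_form hA.ne_zero (P := P) x k w hw
  refine ⟨N' * N, q, mul_ne_zero hN' hN, hq, ?_⟩
  have h1 := aeval_eq_of_int x (Ideal.Quotient.mk (Ideal.span {F})) (fun i ↦ rfl) w
  rw [hqw, map_mul, map_intCast, h1]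
  refine (congrArg (fun t : B ↦ (N' : B) * t) hwz).trans ?_
  push_cast
  ring

/-- Every smooth quadric over `ℚ` has a regular projective flat model over `ℤ`. -/
theorem exists_model_all {n : ℕ} (hn : 3 ≤ n) {M : Matrix (Fin n) (Fin n) ℚ} (hsymm : M.IsSymm)
    (hM : M.det ≠ 0)
    (B : Type) [CommRing B] [Algebra ℚ B] (ℬ : ℕ → Submodule ℚ B) [GradedAlgebra ℬ]
    (y : Fin n → B) (hy : ∀ i, y i ∈ ℬ 1)
    (hsurj : Function.Surjective (MvPolynomial.aeval y : MvPolynomial (Fin n) ℚ →ₐ[ℚ] B))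
    (hker : ∀ f : MvPolynomial (Fin n) ℚ, MvPolynomial.aeval y f = 0 ↔ qpoly M ∣ f) :
    ∃ (Y : Scheme),
        IsIntegral Y ∧
        IsLocallyNoetherian Y ∧
        (∀ (U : Y.affineOpens) (p : PrimeSpectrum (Y.presheaf.obj (Opposite.op U.1))),
          ringKrullDim (Localization.AtPrime p.asIdeal) =
            (((Module.finrank (IsLocalRing.ResidueField (Localization.AtPrime p.asIdeal))
              (IsLocalRing.CotangentSpace (Localization.AtPrime p.asIdeal)) : ℕ) : ℕ∞) :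
                WithBot ℕ∞)) ∧
        (∃ (A : Type) (_ : CommRing A) (𝒜 : ℕ → Submodule ℤ A) (_ : GradedAlgebra 𝒜),
          (∀ a ∈ 𝒜 0, ∃ n : ℤ, (n : A) = a) ∧
          (∃ s : Finset A, (∀ a ∈ s, a ∈ 𝒜 1) ∧ Algebra.adjoin ℤ (s : Set A) = ⊤) ∧
          Nonempty (Y ≅ Proj 𝒜)) ∧
        Flat (specZIsTerminal.from Y) ∧
        Nonempty (pullback (specZIsTerminal.from Y)
            (specZIsTerminal.from (Spec (CommRingCat.of ℚ))) ≅ Proj ℬ) := by
  obtain ⟨D, hD⟩ := exists_isMin M hsymm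
  obtain ⟨m, P, G, hA, hmin⟩ := exists_adapted hn hM hD
  by_cases hmu : IsUnit m
  · have hrad : ∀ (p : ℕ) [Fact p.Prime],
        Module.finrank (ZMod p) (radSub (redMat p (m • P + G))) ≤ 1 := by
      intro p hp
      refine hA.good p fun h ↦ ?_
      have h1 : IsUnit (p : ℤ) := isUnit_of_dvd_unit h hmu
      have h2 := Int.isUnit_iff_natAbs_eq.1 h1
      rw [Int.natAbs_natCast] at h2
      exact hp.out.one_lt.ne' h2
    obtain ⟨Y, h1, h2, h3, ⟨A, i1, 𝒜, i2, h4, h5, -, h6⟩, h7, h8⟩ :=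
      exists_regular_model hn hM hmin hrad B ℬ y hy hsurj hker
    exact ⟨Y, h1, h2, h3, ⟨A, i1, 𝒜, i2, h4, h5, h6⟩, h7, h8⟩
  · exact exists_model_adapted hn hM hA hmin hmu B ℬ y hy hsurj hker

end Pool.Agent.QuadAll
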