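import Pool.Agent.QuadAll.Main
import Pool.Agent.QuadModel.Padic

set_option autoImplicit false

/-!
# Regular projective flat models of all smooth quadrics over the integers

Every smooth quadric hypersurface over `ℚ` of dimension at least one is the generic fibre of an
integral, regular, locally Noetherian scheme, projective and flat over `ℤ`.

Take an integral form of smallest discriminant among all integral forms similar over `ℚ` to the
given one.  Its radical modulo every prime has dimension at most two, and the hypersurface is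
regular if all these dimensions are at most one, in particular in the situation of the last clause
below.  In general the form is written `m P + G` with `m` squarefree, where `G` involves the
variables `x_k`, `k ≥ 2` only and is nonsingular modulo the primes `p ∣ m`, and where `P` is
anisotropic modulo these primes on the plane `x_2 = ... = 0`.  The hypersurface is singular at two
conjugate points of this line over each such `p`, where it is locally
`m P(x) + G(x_2, ..., x_(n-1)) = 0`; the model is the blow up of the ideal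
`(m, P(x), x_2, ..., x_(n-1))`, built from the graded ring of the forms `m x_a x_b x_c`,
`P(x) x_k`, `x_j x_a x_b` (`j ≥ 2`).
-/

open AlgebraicGeometry CategoryTheory CategoryTheory.Limits

namespace Pool.Agent.QuadAll.OldAllQuadrics

theorem result (m : ℕ) (hm : 3 ≤ m) (M : Matrix (Fin m) (Fin m) ℚ) (hsymm : M.IsSymm)
    (hdet : M.det ≠ 0)
    (B : Type) [CommRing B] [Algebra ℚ B] (ℬ : ℕ → Submodule ℚ B) [GradedAlgebra ℬ]
    (y : Fin m → B) (hy : ∀ i, y i ∈ ℬ 1)
    (hsurj : Function.Surjective (MvPolynomial.aeval y : MvPolynomial (Fin m) ℚ →ₐ[ℚ] B))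
    (hker : RingHom.ker (MvPolynomial.aeval y : MvPolynomial (Fin m) ℚ →ₐ[ℚ] B) =
      Ideal.span {∑ i, ∑ j, MvPolynomial.C (M i j) * MvPolynomial.X i * MvPolynomial.X j})
    (X : Scheme) (hX : Nonempty (X ≅ Proj ℬ)) :
    ∃ (Y : Scheme),
        IsIntegral Y ∧
        IsLocallyNoetherian Y ∧
        (∀ (U : Y.affineOpens) (p : PrimeSpectrum (Y.presheaf.obj (Opposite.op U.1))),
          ringKrullDim (Localization.AtPrime p.asIdeal) =
            (((Module.finrank (IsLocalRing.ResidueField (Localization.AtPrime p.asIdeal))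
              (IsLocalRing.CotangentSpace (Localization.AtPrime p.asIdeal)) : ℕ) : ℕ∞) :
                WithBot ℕ∞)) ∧
        (∃ (A : Type) (_ : CommRing A) (𝒜 : ℕ → Submodule ℤ A) (_ : GradedAlgebra 𝒜),
          (∀ a ∈ 𝒜 0, ∃ n : ℤ, (n : A) = a) ∧
          (∃ s : Finset A, (∀ a ∈ s, a ∈ 𝒜 1) ∧ Algebra.adjoin ℤ (s : Set A) = ⊤) ∧
          ((Odd m ∨ ∀ (p : ℕ) [Fact p.Prime], ∃ W : Submodule ℚ_[p] (Fin m → ℚ_[p]),
              (∀ v ∈ W, ∑ i, ∑ j, v i * ((M i j : ℚ) : ℚ_[p]) * v j = 0) ∧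
                m ≤ 2 * Module.finrank ℚ_[p] W + 3) →
            ∃ (N : Matrix (Fin m) (Fin m) ℤ) (x : Fin m → A), (∀ i, x i ∈ 𝒜 1) ∧
              Function.Surjective (MvPolynomial.aeval x : MvPolynomial (Fin m) ℤ →ₐ[ℤ] A) ∧
              RingHom.ker (MvPolynomial.aeval x : MvPolynomial (Fin m) ℤ →ₐ[ℤ] A) =
                Ideal.span {∑ i, ∑ j,
                  MvPolynomial.C (N i j) * MvPolynomial.X i * MvPolynomial.X j}) ∧
          Nonempty (Y ≅ Proj 𝒜)) ∧
        Flat (specZIsTerminal.from Y) ∧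
        Nonempty (pullback (specZIsTerminal.from Y)
            (specZIsTerminal.from (Spec (CommRingCat.of ℚ))) ≅ X) := by
  have hker' : ∀ f : MvPolynomial (Fin m) ℚ,
      MvPolynomial.aeval y f = 0 ↔ QuadModel.qpoly M ∣ f := by
    intro f
    rw [← Ideal.mem_span_singleton, QuadModel.qpoly_eq_sum, ← hker, RingHom.mem_ker]
  obtain ⟨e⟩ := hX
  by_cases hcond : Odd m ∨ ∀ (p : ℕ) [Fact p.Prime], ∃ W : Submodule ℚ_[p] (Fin m → ℚ_[p]),
      (∀ v ∈ W, ∑ i, ∑ j, v i * ((M i j : ℚ) : ℚ_[p]) * v j = 0) ∧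
        m ≤ 2 * Module.finrank ℚ_[p] W + 3
  · obtain ⟨D, hD⟩ := QuadModel.exists_isMin M hsymm
    have hrad : ∀ (p : ℕ) [Fact p.Prime],
        Module.finrank (ZMod p) (QuadModel.radSub (QuadModel.redMat p D)) ≤ 1 := by
      intro p hp
      rcases hcond with hodd | hcond
      · exact (hD.finrank_radSub_le_two hdet p).2 hodd
      · obtain ⟨W, hW, hdim⟩ := hcond p
        refine hD.finrank_radSub_le_one hdet p W (fun v hv ↦ ?_) hdim
        rw [← hW v hv]
        simp only [QuadModel.qf, dotProduct, Matrix.mulVec, Matrix.map_apply, Finset.mul_sum,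
          eq_ratCast, mul_assoc]
    obtain ⟨Y, h1, h2, h3, ⟨A, i1, 𝒜, i2, h4, h5, h6, h7⟩, h8, ⟨h9⟩⟩ :=
      QuadModel.exists_regular_model hm hdet hD hrad B ℬ y hy hsurj hker'
    exact ⟨Y, h1, h2, h3, ⟨A, i1, 𝒜, i2, h4, h5, fun _ ↦ h6, h7⟩, h8, ⟨h9 ≪≫ e.symm⟩⟩
  · obtain ⟨Y, h1, h2, h3, ⟨A, i1, 𝒜, i2, h4, h5, h6⟩, h7, ⟨h8⟩⟩ :=
      QuadAll.exists_model_all hm hsymm hdet B ℬ y hy hsurj hker'
    exact ⟨Y, h1, h2, h3, ⟨A, i1, 𝒜, i2, h4, h5, fun h ↦ absurd h hcond, h6⟩, h7,
      ⟨h8 ≪≫ e.symm⟩⟩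

end Pool.Agent.QuadAll.OldAllQuadrics
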