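import Pool.Agent.QuadModel.Main
import Pool.Agent.QuadModel.Padic

set_option autoImplicit false

/-!
# Regular projective flat models of quadrics over the integers

Every smooth quadric hypersurface over `ℚ` of odd dimension, and every smooth quadric hypersurface
of even dimension all of whose `p`-adic anisotropic kernels have dimension less than four, is the
generic fibre of an integral, regular, locally Noetherian scheme, projective and flat over `ℤ`,
which is itself a quadric hypersurface over `ℤ`.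

The model is the hypersurface of an integral form of smallest discriminant among all integral
forms similar over `ℚ` to the given one.  Its regularity, at `p = 2` too, comes from the
Chevalley-Warning theorem: minimality bounds the radical modulo each prime `p` by one dimension.
-/

open AlgebraicGeometry CategoryTheory CategoryTheory.Limits

namespace Pool.Agent.QuadAll.OldQuadricModels

theorem result (m : ℕ) (hm : 3 ≤ m) (M : Matrix (Fin m) (Fin m) ℚ) (hsymm : M.IsSymm)
    (hdet : M.det ≠ 0)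
    (hcond : Odd m ∨ ∀ (p : ℕ) [Fact p.Prime], ∃ W : Submodule ℚ_[p] (Fin m → ℚ_[p]),
      (∀ v ∈ W, ∑ i, ∑ j, v i * ((M i j : ℚ) : ℚ_[p]) * v j = 0) ∧
        m ≤ 2 * Module.finrank ℚ_[p] W + 3)
    (B : Type) [CommRing B] [Algebra ℚ B] (ℬ : ℕ → Submodule ℚ B) [GradedAlgebra ℬ]
    (y : Fin m → B) (hy : ∀ i, y i ∈ ℬ 1)
    (hsurj : Function.Surjective (MvPolynomial.aeval y : MvPolynomial (Fin m) ℚ →ₐ[ℚ] B))
    (hker : RingHom.ker (MvPolynomial.aeval y : MvPolynomial (Fin m) ℚ →ₐ[ℚ] B) =
      Ideal.span {∑ i, ∑ j, MvPolynomial.C (M i j) * MvPolynomial.X i * MvPolynomial.X j})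
    (X : Scheme) (hX : Nonempty (X ≅ Proj ℬ)) :
    ∃ (Y : Scheme),
        IsIntegral Y ∧
        IsLocallyNoetherian Y ∧
        (∀ (U : Y.affineOpens) (p : PrimeSpectrum (Y.presheaf.obj (Opposite.op U.1))),
          ringKrullDim (Localization.AtPrime p.asIdeal) =
            (((Module.finrank (IsLocalRing.ResidueField (Localization.AtPrime p.asIdeal))
              (IsLocalRing.CotangentSpace (Localization.AtPrime p.asIdeal)) : ℕ) : ℕ∞) :
                WithBot ℕ∞)) ∧
        (∃ (A : Type) (_ : CommRing A) (𝒜 : ℕ → Submodule ℤ A) (_ : GradedAlgebra 𝒜),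
          (∀ a ∈ 𝒜 0, ∃ n : ℤ, (n : A) = a) ∧
          (∃ s : Finset A, (∀ a ∈ s, a ∈ 𝒜 1) ∧ Algebra.adjoin ℤ (s : Set A) = ⊤) ∧
          (∃ (N : Matrix (Fin m) (Fin m) ℤ) (x : Fin m → A), (∀ i, x i ∈ 𝒜 1) ∧
            Function.Surjective (MvPolynomial.aeval x : MvPolynomial (Fin m) ℤ →ₐ[ℤ] A) ∧
            RingHom.ker (MvPolynomial.aeval x : MvPolynomial (Fin m) ℤ →ₐ[ℤ] A) =
              Ideal.span {∑ i, ∑ j,
                MvPolynomial.C (N i j) * MvPolynomial.X i * MvPolynomial.X j}) ∧
          Nonempty (Y ≅ Proj 𝒜)) ∧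
        Flat (specZIsTerminal.from Y) ∧
        Nonempty (pullback (specZIsTerminal.from Y)
            (specZIsTerminal.from (Spec (CommRingCat.of ℚ))) ≅ X) := by
  obtain ⟨D, hD⟩ := QuadModel.exists_isMin M hsymm
  have hrad : ∀ (p : ℕ) [Fact p.Prime],
      Module.finrank (ZMod p) (QuadModel.radSub (QuadModel.redMat p D)) ≤ 1 := by
    intro p hp
    rcases hcond with hodd | hcond
    · exact (hD.finrank_radSub_le_two hdet p).2 hodd
    · obtain ⟨W, hW, hdim⟩ := hcond p
      refine hD.finrank_radSub_le_one hdet p W (fun v hv ↦ ?_) hdim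
      rw [← hW v hv]
      simp only [QuadModel.qf, dotProduct, Matrix.mulVec, Matrix.map_apply, Finset.mul_sum,
        eq_ratCast, mul_assoc]
  have hker' : ∀ f : MvPolynomial (Fin m) ℚ,
      MvPolynomial.aeval y f = 0 ↔ QuadModel.qpoly M ∣ f := by
    intro f
    rw [← Ideal.mem_span_singleton, QuadModel.qpoly_eq_sum, ← hker, RingHom.mem_ker]
  obtain ⟨Y, h1, h2, h3, h4, h5, ⟨h6⟩⟩ :=
    QuadModel.exists_regular_model hm hdet hD hrad B ℬ y hy hsurj hker'
  obtain ⟨e⟩ := hX
  exact ⟨Y, h1, h2, h3, h4, h5, ⟨h6 ≪≫ e.symm⟩⟩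

end Pool.Agent.QuadAll.OldQuadricModels
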