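import Mathlib
import Pool.Agent.QuadModel.Regular

set_option autoImplicit false

namespace Pool.Agent.QuadAll

open Pool.Agent.QuadModel IsLocalRing

namespace RegDomain

/-- Passing to the quotient by `f ∈ m ∖ m²` decreases the number of generators. -/
theorem spanFinrank_quotient_lt {R : Type*} [CommRing R] [IsLocalRing R] [IsNoetherianRing R]
    {f : R} (hf : f ∈ maximalIdeal R) (hf2 : f ∉ (maximalIdeal R) ^ 2)
    [IsLocalRing (R ⧸ Ideal.span {f})] :
    (maximalIdeal (R ⧸ Ideal.span {f})).spanFinrank < (maximalIdeal R).spanFinrank := by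
  classical
  have hsurj : Function.Surjective (Ideal.Quotient.mk (Ideal.span {f})) :=
    Ideal.Quotient.mk_surjective
  have fg : (maximalIdeal R).FG := (maximalIdeal R).fg_of_isNoetherianRing
  have hfin := Submodule.FG.finite_generators fg
  set G : Finset R := hfin.toFinset with hGdef
  have hG : Ideal.span (G : Set R) = maximalIdeal R := by
    simp only [hGdef, Set.Finite.coe_toFinset]
    exact (maximalIdeal R).span_generators
  have hcard : G.card = (maximalIdeal R).spanFinrank := by
    rw [← Submodule.FG.generators_ncard fg, hGdef, Set.ncard_eq_toFinset_card _ hfin]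
  obtain ⟨g, hg, hgm⟩ := exists_generator G hG hf hf2
  set q := Ideal.Quotient.mk (Ideal.span {f})
  have hmax : (maximalIdeal R).map q = maximalIdeal (R ⧸ Ideal.span {f}) :=
    map_maximalIdeal_of_surjective q hsurj
  have hgen : maximalIdeal (R ⧸ Ideal.span {f}) ≤
      Ideal.span ((G.erase g).image q : Set (R ⧸ Ideal.span {f})) := by
    rw [← hmax, ← hG, Ideal.map_span, Ideal.span_le]
    rintro _ ⟨x, hx, rfl⟩
    by_cases hxg : x = g
    · subst hxg
      have h3 : q x ∈ (Ideal.span (((G.erase x : Finset R) : Set R) ∪ {f})).map q :=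
        Ideal.mem_map_of_mem _ hgm
      rw [Ideal.map_span, Set.image_union, Set.image_singleton] at h3
      have hq0 : q f = 0 := Ideal.Quotient.eq_zero_iff_mem.mpr (Ideal.mem_span_singleton_self f)
      rw [hq0] at h3
      have h4 : Ideal.span (q '' ((G.erase x : Finset R) : Set R) ∪ {0}) ≤
          Ideal.span ((G.erase x).image q : Set (R ⧸ Ideal.span {f})) := by
        rw [Ideal.span_le]
        rintro y (hy | hy)
        · exact Ideal.subset_span (by simpa using hy)
        · rw [Set.mem_singleton_iff] at hy
          rw [hy]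
          exact Ideal.zero_mem _
      exact h4 h3
    · refine Ideal.subset_span ?_
      rw [Finset.coe_image]
      exact ⟨x, by simp [hxg, hx], rfl⟩
  have hgen' : maximalIdeal (R ⧸ Ideal.span {f}) =
      Ideal.span ((G.erase g).image q : Set (R ⧸ Ideal.span {f})) := by
    refine le_antisymm hgen ?_
    rw [← hmax, Ideal.span_le]
    rintro _ hx
    rw [Finset.coe_image] at hx
    obtain ⟨x, hx, rfl⟩ := hx
    refine Ideal.mem_map_of_mem _ ?_
    rw [← hG]
    exact Ideal.subset_span (Finset.mem_of_mem_erase hx)
  have hspan : (maximalIdeal (R ⧸ Ideal.span {f})).spanFinrank ≤ G.card - 1 := by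
    rw [hgen']
    refine (Submodule.spanFinrank_span_le_ncard_of_finite (Finset.finite_toSet _)).trans ?_
    rw [Set.ncard_coe_finset]
    refine Finset.card_image_le.trans ?_
    rw [Finset.card_erase_of_mem hg]
  have hGpos : 1 ≤ G.card := Finset.card_pos.mpr ⟨g, hg⟩
  omega

/-- Prime avoidance: in a regular local ring which is not a field there is an element of
`m ∖ m²` lying in no minimal prime. -/
theorem exists_mem_not_mem {R : Type*} [CommRing R] [IsLocalRing R] [IsNoetherianRing R]
    (hm : maximalIdeal R ≠ ⊥) (hmin : maximalIdeal R ∉ minimalPrimes R) :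
    ∃ f ∈ maximalIdeal R, f ∉ (maximalIdeal R) ^ 2 ∧ ∀ p ∈ minimalPrimes R, f ∉ p := by
  classical
  have hfin : (minimalPrimes R).Finite := minimalPrimes.finite_of_isNoetherianRing R
  by_contra hcon
  push Not at hcon
  have hsub : (maximalIdeal R : Set R) ⊆
      ⋃ i ∈ (↑(insert ((maximalIdeal R) ^ 2) hfin.toFinset) : Set (Ideal R)), (id i : Ideal R) := by
    intro x hx
    by_cases hx2 : x ∈ (maximalIdeal R) ^ 2
    · refine Set.mem_biUnion (x := (maximalIdeal R) ^ 2) ?_ hx2
      simp
    · obtain ⟨p, hp, hxp⟩ := hcon x hx hx2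
      refine Set.mem_biUnion (x := p) ?_ hxp
      simp [hp]
  rw [Ideal.subset_union_prime ((maximalIdeal R) ^ 2) ((maximalIdeal R) ^ 2)] at hsub
  · obtain ⟨i, hi, hle⟩ := hsub
    rw [Finset.mem_insert] at hi
    rcases hi with rfl | hi
    · apply hm
      refine Submodule.eq_bot_of_le_smul_of_le_jacobson_bot (maximalIdeal R) _
        (IsNoetherian.noetherian _) ?_ ?_
      · rw [smul_eq_mul, ← pow_two]
        exact hle
      · rw [IsLocalRing.jacobson_eq_maximalIdeal ⊥ bot_ne_top]
    · rw [Set.Finite.mem_toFinset] at hi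
      apply hmin
      have hip : i.IsPrime := hi.1.1
      have : i = maximalIdeal R := le_antisymm (IsLocalRing.le_maximalIdeal hip.ne_top) hle
      rw [← this]
      exact hi
  · intro i hi hi1 _
    rw [Finset.mem_insert] at hi
    rcases hi with rfl | hi
    · exact absurd rfl hi1
    · rw [Set.Finite.mem_toFinset] at hi
      exact hi.1.1

theorem aux (n : ℕ) : ∀ (R : Type) [CommRing R] [IsRegularLocalRing R],
    (maximalIdeal R).spanFinrank = n → IsDomain R := by
  induction n using Nat.strong_induction_on with
  | _ n ih =>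
    intro R _ _ hn
    have hreg := (isRegularLocalRing_iff R).mp inferInstance
    by_cases hm : maximalIdeal R = ⊥
    · exact ((IsLocalRing.isField_iff_maximalIdeal_eq).mpr hm).isDomain
    have hmin : maximalIdeal R ∉ minimalPrimes R := by
      intro h
      have h0 : (maximalIdeal R).height = 0 := Ideal.height_eq_zero_iff.mpr h
      rw [← maximalIdeal_height_eq_ringKrullDim, h0] at hreg
      have h1 : (maximalIdeal R).spanFinrank = 0 := by exact_mod_cast hreg
      exact hm ((Submodule.spanFinrank_eq_zero_iff_eq_bot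
        (maximalIdeal R).fg_of_isNoetherianRing).mp h1)
    obtain ⟨f, hf, hf2, hfp⟩ := exists_mem_not_mem hm hmin
    have hregq := isRegularLocalRing_quotient hf hf2
    have hlt := spanFinrank_quotient_lt hf hf2
    have hdom : IsDomain (R ⧸ Ideal.span {f}) := ih _ (hn ▸ hlt) _ rfl
    have hprime : (Ideal.span {f}).IsPrime := (Ideal.Quotient.isDomain_iff_prime _).mp hdom
    obtain ⟨q, hq, hqf⟩ := Ideal.exists_minimalPrimes_le (I := (⊥ : Ideal R))
      (J := Ideal.span {f}) bot_le
    have hfq : f ∉ q := hfp q hq
    have hqprime : q.IsPrime := hq.1.1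
    have hq0 : q = ⊥ := by
      refine Submodule.eq_bot_of_le_smul_of_le_jacobson_bot (Ideal.span {f}) _
        (IsNoetherian.noetherian _) ?_ ?_
      · intro y hy
        obtain ⟨z, rfl⟩ := Ideal.mem_span_singleton'.mp (hqf hy)
        have hz : z ∈ q := (hqprime.mem_or_mem hy).resolve_right hfq
        rw [smul_eq_mul, mul_comm z f]
        exact Ideal.mul_mem_mul (Ideal.mem_span_singleton_self f) hz
      · rw [IsLocalRing.jacobson_eq_maximalIdeal ⊥ bot_ne_top, Ideal.span_le,
          Set.singleton_subset_iff]
        exact hf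
    rw [hq0] at hqprime
    have hd : IsDomain (R ⧸ (⊥ : Ideal R)) := (Ideal.Quotient.isDomain_iff_prime _).mpr hqprime
    exact (RingEquiv.quotientBot R).symm.toMulEquiv.isDomain (R ⧸ (⊥ : Ideal R))

end RegDomain

/-- A regular local ring is a domain. -/
theorem isDomain_of_isRegularLocalRing (R : Type) [CommRing R] [IsRegularLocalRing R] :
    IsDomain R :=
  RegDomain.aux _ R rfl

end Pool.Agent.QuadAll
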